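import Mathlib

set_option autoImplicit false
open MeasureTheory Filter Topology Set

namespace Pool.Agent.Helper49.Sq.Defs

/-- `γ` is the counterclockwise arc length parametrization, of period 4, of the boundary of the
unit square with vertices 0, 1, 1 + i, i; the vertex 0 has parameter 0. -/
structure IsUnitSquare (γ : ℝ → ℂ) : Prop where
  periodic : Function.Periodic γ 4
  top : ∀ s ∈ Icc (-2 : ℝ) (-1), γ s = ((-1 - s : ℝ) : ℂ) + Complex.I
  left : ∀ s ∈ Icc (-1 : ℝ) 0, γ s = ((-s : ℝ) : ℂ) * Complex.I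
  bottom : ∀ s ∈ Icc (0 : ℝ) 1, γ s = ((s : ℝ) : ℂ)
  right : ∀ s ∈ Icc (1 : ℝ) 2, γ s = 1 + ((s - 1 : ℝ) : ℂ) * Complex.I

/-- Arc length measure on the curve, in the parameter interval (-2, 2]. -/
noncomputable abbrev mu : Measure ℝ := volume.restrict (Ioc (-2 : ℝ) 2)

/-- The Hilbert space `L²(Γ)`, in the arc length parameter, with the norm, the inner product and
the completeness that Mathlib gives to `Lp ℂ 2 mu`. -/
def H : Type := Lp ℂ 2 mu

noncomputable instance instNormed : NormedAddCommGroup H :=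
  (inferInstance : NormedAddCommGroup (Lp ℂ 2 mu))

noncomputable instance instInner : InnerProductSpace ℂ H :=
  (inferInstance : InnerProductSpace ℂ (Lp ℂ 2 mu))

instance instComplete : CompleteSpace H := (inferInstance : CompleteSpace (Lp ℂ 2 mu))

/-- The function of the arc length parameter given by an element of `L²(Γ)`. -/
noncomputable def H.fn (f : H) : ℝ → ℂ := ((show Lp ℂ 2 mu from f) : ℝ → ℂ)

/-- Bounded linear operators on `L²(Γ)`. -/
abbrev Op : Type := H →L[ℂ] H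

/-- The truncated Cauchy singular integral of `f` at the point `γ s`, with positive orientation:
`(1/(πi)) ∫ f(τ)/(τ - t) dτ` over the points `τ` of the curve with `|τ - t| > δ`, `t = γ s`. -/
noncomputable def truncCauchy (γ : ℝ → ℂ) (δ : ℝ) (f : ℝ → ℂ) (s : ℝ) : ℂ :=
  (1 / ((Real.pi : ℂ) * Complex.I)) *
    ∫ σ in Ioc (-2 : ℝ) 2 ∩ {σ | δ < ‖γ σ - γ s‖}, f σ * deriv γ σ / (γ σ - γ s)

/-- The bounded operator `S` on `L²(Γ)` is the Cauchy singular integral operator of the curve: for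
every Lipschitz function `f` on the closed curve, `S f` is almost everywhere the principal value. -/
def IsCauchyOp (γ : ℝ → ℂ) (S : Op) : Prop :=
  ∀ f : ℝ → ℂ, (∃ K, LipschitzWith K f) → f (-2) = f 2 → ∀ F : H, F.fn =ᵐ[mu] f →
    ∀ᵐ s ∂mu, Tendsto (fun δ => truncCauchy γ δ f s) (𝓝[>] 0) (𝓝 ((S F).fn s))

/-- `f` is a piecewise continuous function on the curve: bounded, with one-sided limits at every
point (a function of the arc length parameter, of period 4). -/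
def IsPC (f : ℝ → ℂ) : Prop :=
  Function.Periodic f 4 ∧ (∃ M, ∀ s, ‖f s‖ ≤ M) ∧
  ∀ s, (∃ l, Tendsto f (𝓝[>] s) (𝓝 l)) ∧ (∃ l, Tendsto f (𝓝[<] s) (𝓝 l))

/-- `M` is the operator of multiplication by `b` on `L²(Γ)`. -/
def IsMulOp (b : ℝ → ℂ) (M : Op) : Prop :=
  ∀ f : H, (M f).fn =ᵐ[mu] fun s => b s * f.fn s

/-- `A = a I + b S`. -/
def IsAIbS (a b : ℝ → ℂ) (S A : Op) : Prop :=
  ∀ f : H, (A f).fn =ᵐ[mu] fun s => a s * f.fn s + b s * (S f).fn s

/-- `A = a I + S b I`. -/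
def IsAISb (a b : ℝ → ℂ) (S A : Op) : Prop :=
  ∃ M : Op, IsMulOp b M ∧ ∀ f : H, (A f).fn =ᵐ[mu] fun s => a s * f.fn s + (S (M f)).fn s

/-- Condition (3) of the problem for the coefficients `a`, `b`, with `c = a + b`, `d = a - b`. -/
def Condition3 (a b : ℝ → ℂ) : Prop :=
  ∀ (s : ℝ) (cp cm dp dm : ℂ),
    Tendsto (fun x => a x + b x) (𝓝[>] s) (𝓝 cp) → Tendsto (fun x => a x + b x) (𝓝[<] s) (𝓝 cm) →
    Tendsto (fun x => a x - b x) (𝓝[>] s) (𝓝 dp) → Tendsto (fun x => a x - b x) (𝓝[<] s) (𝓝 dm) →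
    ∀ μ ∈ Icc (0 : ℝ) 1, ∀ ν ∈ Icc (0 : ℝ) 1,
      (cp * dm * μ + cm * dp * (1 - μ)) * ν + dp * dm * (1 - ν) ≠ 0

/-- `R` is the real part `(B + B*)/2` of `B`. -/
def IsRealPart (B R : Op) : Prop :=
  ∀ f g : H, (inner ℂ (R f) g : ℂ) = (inner ℂ (B f) g + inner ℂ f (B g)) / 2

/-- `D` is positive definite: symmetric, and bounded below by a positive constant. -/
def PosDef (D : Op) : Prop :=
  (∀ f g : H, (inner ℂ (D f) g : ℂ) = inner ℂ f (D g)) ∧
    ∃ κ : ℝ, 0 < κ ∧ ∀ f : H, κ * ‖f‖ ^ 2 ≤ (inner ℂ (D f) f : ℂ).re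

/-- Strong ellipticity: `Re B = D + T` with `D` positive definite and `T` compact. -/
def StronglyElliptic (B : Op) : Prop :=
  ∃ R D T : Op, IsRealPart B R ∧ PosDef D ∧ IsCompactOperator T ∧ ∀ f, R f = D f + T f

/-- `θ`-strong ellipticity: `θ A` is strongly elliptic for some piecewise continuous `θ` without
zeros and with positive infimum of `|θ|`. -/
def ThetaStronglyElliptic (A : Op) : Prop :=
  ∃ θ : ℝ → ℂ, IsPC θ ∧ (∀ s, θ s ≠ 0) ∧ (∃ m : ℝ, 0 < m ∧ ∀ s, m ≤ ‖θ s‖) ∧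
    ∃ M : Op, IsMulOp θ M ∧ StronglyElliptic (M ∘L A)

end Pool.Agent.Helper49.Sq.Defs
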