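import Mathlib
import Pool.Agent.Helper49.Sq.Defs

set_option autoImplicit false
open MeasureTheory Filter Topology Set
open Pool.Agent.Helper49.Sq.Defs (IsUnitSquare mu truncCauchy IsPC Condition3)

namespace Pool.Agent.Helper49.Sq.Core

noncomputable abbrev L2 := Lp ℂ 2 mu

def IsCauchyOp (γ : ℝ → ℂ) (S : L2 →L[ℂ] L2) : Prop :=
  ∀ f : ℝ → ℂ, (∃ K, LipschitzWith K f) → f (-2) = f 2 → ∀ F : L2, (F : ℝ → ℂ) =ᵐ[mu] f →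
    ∀ᵐ s ∂mu, Tendsto (fun δ => truncCauchy γ δ f s) (𝓝[>] 0) (𝓝 ((S F : ℝ → ℂ) s))

def IsMulOp (b : ℝ → ℂ) (M : L2 →L[ℂ] L2) : Prop :=
  ∀ f : L2, (M f : ℝ → ℂ) =ᵐ[mu] fun s => b s * (f : ℝ → ℂ) s

def StronglyElliptic (B : L2 →L[ℂ] L2) : Prop :=
  ∃ D T : L2 →L[ℂ] L2, (1/2 : ℂ) • (B + ContinuousLinearMap.adjoint B) = D + T ∧
    (∃ κ : ℝ, 0 < κ ∧ ∀ f, κ * ‖f‖^2 ≤ (inner ℂ (D f) f : ℂ).re) ∧ IsCompactOperator T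

def ThetaStronglyElliptic (A : L2 →L[ℂ] L2) : Prop :=
  ∃ θ : ℝ → ℂ, IsPC θ ∧ (∀ s, θ s ≠ 0) ∧ (∃ m : ℝ, 0 < m ∧ ∀ s, m ≤ ‖θ s‖) ∧
    ∃ M : L2 →L[ℂ] L2, IsMulOp θ M ∧ StronglyElliptic (M ∘L A)

end Pool.Agent.Helper49.Sq.Core
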