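import Mathlib

set_option autoImplicit false
open MeasureTheory Filter Topology Set
open scoped NNReal ENNReal

namespace Pool.Agent.Helper49.Sq.Hardy

lemma core_deriv {a : ℝ} (ha : 0 < a) (t : ℝ) (ht : 0 < t) :
    HasDerivAt (fun t : ℝ => 2 / √a * Real.arctan (√(t / a))) (1 / ((a + t) * √t)) t := by
  have h1 : HasDerivAt (fun t : ℝ => t / a) (1 / a) t := (hasDerivAt_id t).div_const a
  have h2 : t / a ≠ 0 := by positivity
  have h3 := ((h1.sqrt h2).arctan).const_mul (2 / √a)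
  refine h3.congr_deriv ?_
  rw [Real.sqrt_div ht.le, div_pow, Real.sq_sqrt ht.le, Real.sq_sqrt ha.le]
  have h4 : 0 < √a := Real.sqrt_pos.mpr ha
  have h5 : 0 < √t := Real.sqrt_pos.mpr ht
  have h6 : √a * √a = a := Real.mul_self_sqrt ha.le
  field_simp

lemma core {a : ℝ} (ha : 0 < a) :
    ∫⁻ t in Ioi (0:ℝ), ENNReal.ofReal (1 / ((a + |t|) * √|t|)) = ENNReal.ofReal (Real.pi / √a) := by
  have hcongr : ∫⁻ t in Ioi (0:ℝ), ENNReal.ofReal (1 / ((a + |t|) * √|t|)) =
      ∫⁻ t in Ioi (0:ℝ), ENNReal.ofReal (1 / ((a + t) * √t)) := by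
    apply setLIntegral_congr_fun measurableSet_Ioi
    intro t ht
    have : 0 < t := ht
    simp only [abs_of_pos this]
  rw [hcongr]
  have hc : ContinuousWithinAt (fun t : ℝ => 2 / √a * Real.arctan (√(t / a))) (Ici 0) 0 := by
    apply Continuous.continuousWithinAt
    fun_prop
  have hd : ∀ x ∈ Ioi (0:ℝ), HasDerivAt (fun t : ℝ => 2 / √a * Real.arctan (√(t / a))) (1 / ((a + x) * √x)) x :=
    fun x hx => core_deriv ha x hx
  have hp : ∀ x ∈ Ioi (0:ℝ), 0 ≤ 1 / ((a + x) * √x) := by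
    intro x hx
    have : 0 < x := hx
    positivity
  have hlim : Tendsto (fun t : ℝ => 2 / √a * Real.arctan (√(t / a))) atTop (𝓝 (2 / √a * (Real.pi / 2))) := by
    apply Tendsto.const_mul
    refine (tendsto_nhdsWithin_iff.mp Real.tendsto_arctan_atTop).1.comp ?_
    exact Real.tendsto_sqrt_atTop.comp (tendsto_id.atTop_div_const ha)
  have hi := integrableOn_Ioi_deriv_of_nonneg hc hd hp hlim
  have hv := integral_Ioi_of_hasDerivAt_of_nonneg hc hd hp hlim
  rw [← ofReal_integral_eq_lintegral_ofReal hi]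
  · rw [hv]
    congr 1
    simp
  · exact (ae_restrict_mem measurableSet_Ioi).mono fun x hx => hp x hx

lemma core2 {a : ℝ} (ha : 0 < a) :
    ∫⁻ t : ℝ, ENNReal.ofReal (1 / ((a + |t|) * √|t|)) = ENNReal.ofReal (2 * Real.pi / √a) := by
  have hneg : ∫⁻ t in Iio (0:ℝ), ENNReal.ofReal (1 / ((a + |t|) * √|t|)) =
      ∫⁻ t in Ioi (0:ℝ), ENNReal.ofReal (1 / ((a + |t|) * √|t|)) := by
    have hmp : MeasurePreserving (fun x : ℝ => -x) volume volume := Measure.measurePreserving_neg volume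
    have hm : Measurable (fun t : ℝ => ENNReal.ofReal (1 / ((a + |t|) * √|t|))) := by
      fun_prop
    have := hmp.setLIntegral_comp_preimage (measurableSet_Ioi (a := (0:ℝ))) hm
    rw [← this]
    have h2 : (fun x : ℝ => -x) ⁻¹' Ioi 0 = Iio 0 := by
      ext x; simp
    rw [h2]
    simp only [abs_neg]
  rw [← lintegral_add_compl _ (measurableSet_Ioi (a := (0:ℝ)))]
  rw [compl_Ioi, core ha]
  rw [← setLIntegral_congr (Iio_ae_eq_Iic (a := (0:ℝ)) (μ := volume)), hneg, core ha]
  rw [← ENNReal.ofReal_add (by positivity) (by positivity)]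
  congr 1
  ring

/-- the kernel -/
noncomputable def kap (m m' s σ : ℝ) : ℝ := 1 / (|s - m| + |σ - m'|)

lemma kap_nonneg (m m' s σ : ℝ) : 0 ≤ kap m m' s σ := by unfold kap; positivity

lemma kap_symm (m m' s σ : ℝ) : kap m m' s σ = kap m' m σ s := by unfold kap; rw [add_comm]

lemma int1 (m m' s : ℝ) (hs : s ≠ m) :
    ∫⁻ σ, ENNReal.ofReal (kap m m' s σ / √|σ - m'|) = ENNReal.ofReal (2 * Real.pi / √|s - m|) := by
  have ha : 0 < |s - m| := abs_pos.mpr (sub_ne_zero.mpr hs)
  rw [← core2 ha]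
  rw [← lintegral_sub_right_eq_self (fun t : ℝ => ENNReal.ofReal (1 / ((|s-m| + |t|) * √|t|))) m']
  apply lintegral_congr
  intro σ
  unfold kap
  rw [div_div]

lemma int2 (m m' σ : ℝ) (hs : σ ≠ m') :
    ∫⁻ s, ENNReal.ofReal (kap m m' s σ / √|s - m|) = ENNReal.ofReal (2 * Real.pi / √|σ - m'|) := by
  simp_rw [kap_symm m m']
  exact int1 m' m σ hs

lemma meas_kap (m m' : ℝ) : Measurable (Function.uncurry (kap m m')) := by
  unfold kap
  simp only [Function.uncurry_def]
  fun_prop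

/-- pointwise Cauchy-Schwarz -/
lemma cs (m m' s : ℝ) (f : ℝ → ℝ≥0∞) (hf : Measurable f) :
    (∫⁻ σ, ENNReal.ofReal (kap m m' s σ) * f σ)^2 ≤
    (∫⁻ σ, ENNReal.ofReal (kap m m' s σ / √|σ - m'|)) *
      ∫⁻ σ, ENNReal.ofReal (kap m m' s σ * √|σ - m'|) * (f σ)^2 := by
  have hk : Measurable (fun σ => kap m m' s σ) := (meas_kap m m').of_uncurry_left
  have h := ENNReal.lintegral_mul_le_Lp_mul_Lq volume (p := 2) (q := 2) Real.HolderConjugate.two_two
    (f := fun σ => ENNReal.ofReal (√(kap m m' s σ / √|σ - m'|)))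
    (g := fun σ => ENNReal.ofReal (√(kap m m' s σ * √|σ - m'|)) * f σ)
    (by fun_prop) (by fun_prop)
  have e1 : ∫⁻ σ, ENNReal.ofReal (kap m m' s σ) * f σ =
      ∫⁻ σ, ((fun σ => ENNReal.ofReal (√(kap m m' s σ / √|σ - m'|))) *
        (fun σ => ENNReal.ofReal (√(kap m m' s σ * √|σ - m'|)) * f σ)) σ := by
    apply lintegral_congr_ae
    filter_upwards [Measure.ae_ne volume m'] with σ hσ
    simp only [Pi.mul_apply]
    rw [← mul_assoc, ← ENNReal.ofReal_mul (by positivity)]
    congr 2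
    have h1 : 0 < |σ - m'| := abs_pos.mpr (sub_ne_zero.mpr hσ)
    have h2 : 0 < √|σ - m'| := Real.sqrt_pos.mpr h1
    have h3 := kap_nonneg m m' s σ
    rw [← Real.sqrt_mul (by positivity)]
    have : kap m m' s σ / √|σ - m'| * (kap m m' s σ * √|σ - m'|) = (kap m m' s σ)^2 := by
      field_simp
    rw [this, Real.sqrt_sq h3]
  rw [e1]
  have h2 := pow_le_pow_left₀ (by positivity) h 2
  refine h2.trans ?_
  rw [mul_pow]
  have hpow : ∀ x : ℝ≥0∞, (x ^ (1/(2:ℝ)))^2 = x := by
    intro x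
    rw [← ENNReal.rpow_natCast, ← ENNReal.rpow_mul]
    norm_num
  rw [hpow, hpow]
  have e2 : ∀ σ, ENNReal.ofReal (√(kap m m' s σ / √|σ - m'|)) ^ (2:ℝ) = ENNReal.ofReal (kap m m' s σ / √|σ - m'|) := by
    intro σ
    have h3 := kap_nonneg m m' s σ
    rw [ENNReal.ofReal_rpow_of_nonneg (by positivity) (by norm_num)]
    congr 1
    rw [Real.rpow_two, Real.sq_sqrt (by positivity)]
  have e3 : ∀ σ, (ENNReal.ofReal (√(kap m m' s σ * √|σ - m'|)) * f σ) ^ (2:ℝ) =
      ENNReal.ofReal (kap m m' s σ * √|σ - m'|) * (f σ)^2 := by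
    intro σ
    have h3 := kap_nonneg m m' s σ
    rw [ENNReal.mul_rpow_of_nonneg _ _ (by norm_num), ENNReal.ofReal_rpow_of_nonneg (by positivity) (by norm_num)]
    congr 1
    · congr 1
      rw [Real.rpow_two, Real.sq_sqrt (by positivity)]
    · exact ENNReal.rpow_two _
  simp_rw [e2, e3]
  exact le_rfl

/-- Hardy-Hilbert inequality -/
lemma hardy (m m' : ℝ) (f : ℝ → ℝ≥0∞) (hf : Measurable f) :
    ∫⁻ s, (∫⁻ σ, ENNReal.ofReal (kap m m' s σ) * f σ)^2 ≤
      ENNReal.ofReal ((2 * Real.pi)^2) * ∫⁻ σ, (f σ)^2 := by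
  have hk := meas_kap m m'
  calc ∫⁻ s, (∫⁻ σ, ENNReal.ofReal (kap m m' s σ) * f σ)^2
      ≤ ∫⁻ s, ENNReal.ofReal (2 * Real.pi / √|s - m|) *
        ∫⁻ σ, ENNReal.ofReal (kap m m' s σ * √|σ - m'|) * (f σ)^2 := by
        apply lintegral_mono_ae
        filter_upwards [Measure.ae_ne volume m] with s hs
        rw [← int1 m m' s hs]
        exact cs m m' s f hf
    _ = ∫⁻ s, ∫⁻ σ, ENNReal.ofReal (2 * Real.pi / √|s - m|) *
        (ENNReal.ofReal (kap m m' s σ * √|σ - m'|) * (f σ)^2) := by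
        apply lintegral_congr
        intro s
        rw [lintegral_const_mul]
        have : Measurable (fun σ => kap m m' s σ) := hk.of_uncurry_left
        fun_prop
    _ = ∫⁻ σ, ∫⁻ s, ENNReal.ofReal (2 * Real.pi / √|s - m|) *
        (ENNReal.ofReal (kap m m' s σ * √|σ - m'|) * (f σ)^2) := by
        rw [lintegral_lintegral_swap]
        apply Measurable.aemeasurable
        simp only [Function.uncurry_def]
        have h1 : Measurable (fun a : ℝ × ℝ => kap m m' a.1 a.2) := hk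
        fun_prop
    _ = ∫⁻ σ, (ENNReal.ofReal (2 * Real.pi * √|σ - m'|) * (f σ)^2) *
        ∫⁻ s, ENNReal.ofReal (kap m m' s σ / √|s - m|) := by
        apply lintegral_congr
        intro σ
        have h1 : Measurable (fun s => kap m m' s σ) := hk.of_uncurry_right
        rw [← lintegral_const_mul _ (by fun_prop)]
        apply lintegral_congr
        intro s
        have h3 := kap_nonneg m m' s σ
        have e : ENNReal.ofReal (2 * Real.pi / √|s - m|) * ENNReal.ofReal (kap m m' s σ * √|σ - m'|) =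
          ENNReal.ofReal (2 * Real.pi * √|σ - m'|) * ENNReal.ofReal (kap m m' s σ / √|s - m|) := by
          rw [← ENNReal.ofReal_mul (by positivity), ← ENNReal.ofReal_mul (by positivity)]
          congr 1
          ring
        rw [← mul_assoc, e]
        ring
    _ ≤ ∫⁻ σ, ENNReal.ofReal ((2 * Real.pi)^2) * (f σ)^2 := by
        apply lintegral_mono_ae
        filter_upwards [Measure.ae_ne volume m'] with σ hσ
        rw [int2 m m' σ hσ]
        have h1 : 0 < |σ - m'| := abs_pos.mpr (sub_ne_zero.mpr hσ)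
        have h2 : 0 < √|σ - m'| := Real.sqrt_pos.mpr h1
        apply le_of_eq
        have e : ENNReal.ofReal (2 * Real.pi * √|σ - m'|) * ENNReal.ofReal (2 * Real.pi / √|σ - m'|) =
          ENNReal.ofReal ((2 * Real.pi)^2) := by
          rw [← ENNReal.ofReal_mul (by positivity)]
          congr 1
          field_simp
        rw [mul_right_comm, e]
    _ = _ := by
        rw [lintegral_const_mul _ (by fun_prop)]

end Pool.Agent.Helper49.Sq.Hardy
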