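import Mathlib

set_option autoImplicit false
open MeasureTheory Filter Topology Set

namespace Pool.Agent.Helper49.Sq.Keps

/-- regularised kernel -/
noncomputable def k (ε x : ℝ) : ℝ := x / (x ^ 2 + ε ^ 2)

lemma k_neg (ε x : ℝ) : k ε (-x) = - k ε x := by unfold k; rw [neg_sq]; ring

lemma k_cont {ε : ℝ} (hε : 0 < ε) : Continuous (k ε) := by
  unfold k
  apply Continuous.div (by fun_prop) (by fun_prop)
  intro x
  positivity

lemma k_sq_le {ε : ℝ} (hε : 0 < ε) (x : ℝ) : (k ε x) ^ 2 ≤ (x ^ 2 + ε ^ 2)⁻¹ := by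
  unfold k
  rw [div_pow, ← one_div, div_le_div_iff₀ (by positivity) (by positivity)]
  nlinarith [sq_nonneg x, sq_nonneg ε, mul_nonneg (sq_nonneg x) (sq_nonneg ε), sq_nonneg (ε^2)]

lemma integrable_inv_sq {ε : ℝ} (hε : 0 < ε) : Integrable (fun x : ℝ => (x ^ 2 + ε ^ 2)⁻¹) := by
  have h := (integrable_inv_one_add_sq.comp_div hε.ne').const_mul ((ε^2)⁻¹)
  refine h.congr (Filter.Eventually.of_forall fun x => ?_)
  simp only
  rw [← mul_inv]
  congr 1
  field_simp
  ring

lemma integrable_k_sq {ε : ℝ} (hε : 0 < ε) : Integrable (fun x : ℝ => (k ε x) ^ 2) := by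
  refine (integrable_inv_sq hε).mono' ((k_cont hε).pow 2).aestronglyMeasurable ?_
  refine Filter.Eventually.of_forall fun x => ?_
  rw [Real.norm_eq_abs, abs_of_nonneg (sq_nonneg _)]
  exact k_sq_le hε x

lemma integrable_kk {ε : ℝ} (hε : 0 < ε) (u : ℝ) : Integrable (fun w : ℝ => k ε w * k ε (w + u)) := by
  have h1 := integrable_k_sq hε
  have h2 := h1.comp_add_right u
  refine ((h1.add h2).const_mul (1/2)).mono' ?_ ?_
  · exact ((k_cont hε).mul ((k_cont hε).comp (by fun_prop))).aestronglyMeasurable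
  · refine Filter.Eventually.of_forall fun x => ?_
    simp only [Pi.add_apply]
    rw [Real.norm_eq_abs, abs_le]
    constructor <;> nlinarith [sq_nonneg (k ε x + k ε (x+u)), sq_nonneg (k ε x - k ε (x+u))]

lemma tendsto_log_ratio (ε u : ℝ) (hε : 0 < ε) (l : Filter ℝ) (hl : Tendsto (fun w : ℝ => |w|) l atTop) :
    Tendsto (fun w : ℝ => Real.log (w^2+ε^2) - Real.log ((w+u)^2+ε^2)) l (𝓝 0) := by
  have h1 : Tendsto (fun w : ℝ => (w^2+ε^2) / ((w+u)^2+ε^2)) l (𝓝 1) := by
    have hw : Tendsto (fun w : ℝ => w⁻¹) l (𝓝 0) := by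
      have := tendsto_inv_atTop_zero.comp hl
      rw [tendsto_zero_iff_norm_tendsto_zero]
      refine this.congr ?_
      intro w
      simp [Real.norm_eq_abs, abs_inv]
    have h2 : Tendsto (fun w : ℝ => (1 + ε^2 * (w⁻¹)^2) / ((1 + u * w⁻¹)^2 + ε^2*(w⁻¹)^2)) l (𝓝 1) := by
      have h3 := ((hw.pow 2).const_mul (ε^2)).const_add 1
      have h4 := (((hw.const_mul u).const_add 1).pow 2).add ((hw.pow 2).const_mul (ε^2))
      have h5 : Tendsto (fun w : ℝ => (1 + ε^2 * (w⁻¹)^2) / ((1 + u * w⁻¹)^2 + ε^2*(w⁻¹)^2)) l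
        (𝓝 ((1 + ε^2 * 0^2) / ((1 + u * 0)^2 + ε^2*0^2))) := h3.div h4 (by norm_num)
      have h6 : (1 + ε^2 * 0^2) / ((1 + u * 0)^2 + ε^2*0^2) = 1 := by norm_num
      rwa [h6] at h5
    refine h2.congr' ?_
    have h6 : ∀ᶠ w in l, (1:ℝ) ≤ |w| := hl.eventually_ge_atTop 1
    filter_upwards [h6] with w hw1
    have hw0 : w ≠ 0 := by
      intro h; rw [h] at hw1; simp at hw1; linarith
    field_simp
  have h2 := (Real.continuousAt_log (by norm_num : (1:ℝ) ≠ 0)).tendsto.comp h1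
  rw [Real.log_one] at h2
  refine h2.congr ?_
  intro w
  simp only [Function.comp]
  rw [Real.log_div (by positivity) (by positivity)]

/-- T1: the key integral identity -/
lemma integral_kk {ε : ℝ} (hε : 0 < ε) (u : ℝ) (hu : u ≠ 0) :
    ∫ w : ℝ, k ε w * k ε (w + u) = 2 * Real.pi * ε / (u ^ 2 + 4 * ε ^ 2) := by
  set α : ℝ := (u^2 + 2 * ε^2) / (u * (u^2 + 4 * ε^2)) with hα
  set β : ℝ := ε^2 / (u^2 + 4 * ε^2) with hβ
  have hpos : 0 < u^2 + 4 * ε^2 := by positivity
  have hderiv : ∀ w : ℝ, HasDerivAt (fun w : ℝ => (α/2) * (Real.log (w^2+ε^2) - Real.log ((w+u)^2+ε^2))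
      + (β/ε) * (Real.arctan (w/ε) + Real.arctan ((w+u)/ε))) (k ε w * k ε (w + u)) w := by
    intro w
    have p1 : (w^2+ε^2) ≠ 0 := by positivity
    have p2 : ((w+u)^2+ε^2) ≠ 0 := by positivity
    have d1 : HasDerivAt (fun w : ℝ => w^2+ε^2) (2*w) w := by
      have := (hasDerivAt_pow 2 w).add_const (ε^2)
      simpa using this
    have d2 : HasDerivAt (fun w : ℝ => (w+u)^2+ε^2) (2*(w+u)) w := by
      have := (((hasDerivAt_id w).add_const u).pow 2).add_const (ε^2)
      simpa using this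
    have d3 := (d1.log p1).sub (d2.log p2)
    have d4 : HasDerivAt (fun w : ℝ => w/ε) (1/ε) w := (hasDerivAt_id w).div_const ε
    have d5 : HasDerivAt (fun w : ℝ => (w+u)/ε) (1/ε) w := ((hasDerivAt_id w).add_const u).div_const ε
    have d6 := (d4.arctan).add (d5.arctan)
    have d7 := (d3.const_mul (α/2)).add (d6.const_mul (β/ε))
    refine d7.congr_deriv ?_
    unfold k
    rw [hα, hβ]
    have hε0 : ε ≠ 0 := hε.ne'
    have q1 : (1 + (w/ε)^2) = (w^2+ε^2)/ε^2 := by field_simp; ring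
    have q2 : (1 + ((w+u)/ε)^2) = ((w+u)^2+ε^2)/ε^2 := by field_simp; ring
    rw [q1, q2]
    have hp := hpos.ne'
    field_simp
    ring
  have htop : Tendsto (fun w : ℝ => (α/2) * (Real.log (w^2+ε^2) - Real.log ((w+u)^2+ε^2))
      + (β/ε) * (Real.arctan (w/ε) + Real.arctan ((w+u)/ε))) atTop (𝓝 ((β/ε) * (Real.pi/2 + Real.pi/2))) := by
    have h1 := (tendsto_log_ratio ε u hε atTop tendsto_abs_atTop_atTop).const_mul (α/2)
    have h2 : Tendsto (fun w : ℝ => Real.arctan (w/ε)) atTop (𝓝 (Real.pi/2)) :=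
      (tendsto_nhdsWithin_iff.mp Real.tendsto_arctan_atTop).1.comp (tendsto_id.atTop_div_const hε)
    have h3 : Tendsto (fun w : ℝ => Real.arctan ((w+u)/ε)) atTop (𝓝 (Real.pi/2)) :=
      (tendsto_nhdsWithin_iff.mp Real.tendsto_arctan_atTop).1.comp ((tendsto_atTop_add_const_right _ u tendsto_id).atTop_div_const hε)
    have := h1.add ((h2.add h3).const_mul (β/ε))
    simpa using this
  have hbot : Tendsto (fun w : ℝ => (α/2) * (Real.log (w^2+ε^2) - Real.log ((w+u)^2+ε^2))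
      + (β/ε) * (Real.arctan (w/ε) + Real.arctan ((w+u)/ε))) atBot (𝓝 ((β/ε) * (-(Real.pi/2) + -(Real.pi/2)))) := by
    have h1 := (tendsto_log_ratio ε u hε atBot tendsto_abs_atBot_atTop).const_mul (α/2)
    have h2 : Tendsto (fun w : ℝ => Real.arctan (w/ε)) atBot (𝓝 (-(Real.pi/2))) :=
      (tendsto_nhdsWithin_iff.mp Real.tendsto_arctan_atBot).1.comp (tendsto_id.atBot_div_const hε)
    have h3 : Tendsto (fun w : ℝ => Real.arctan ((w+u)/ε)) atBot (𝓝 (-(Real.pi/2))) :=
      (tendsto_nhdsWithin_iff.mp Real.tendsto_arctan_atBot).1.comp ((tendsto_atBot_add_const_right _ u tendsto_id).atBot_div_const hε)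
    have := h1.add ((h2.add h3).const_mul (β/ε))
    simpa using this
  rw [integral_of_hasDerivAt_of_tendsto hderiv (integrable_kk hε u) hbot htop]
  rw [hβ]
  field_simp
  ring


noncomputable def J (ε u : ℝ) : ℝ := 2 * Real.pi * ε / (u ^ 2 + 4 * ε ^ 2)

lemma J_nonneg {ε : ℝ} (hε : 0 < ε) (u : ℝ) : 0 ≤ J ε u := by
  unfold J; positivity

lemma J_cont {ε : ℝ} (hε : 0 < ε) : Continuous (J ε) := by
  unfold J
  apply Continuous.div (by fun_prop) (by fun_prop)
  intro x; positivity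

lemma J_le {ε : ℝ} (hε : 0 < ε) (u : ℝ) : J ε u ≤ Real.pi / (2 * ε) := by
  unfold J
  rw [div_le_div_iff₀ (by positivity) (by positivity)]
  nlinarith [Real.pi_pos, sq_nonneg u, mul_nonneg Real.pi_pos.le (sq_nonneg u)]

lemma J_eq {ε : ℝ} (hε : 0 < ε) (u : ℝ) : J ε u = (Real.pi / (2*ε)) * (1 + (u / (2*ε))^2)⁻¹ := by
  unfold J
  field_simp
  ring

lemma J_integrable {ε : ℝ} (hε : 0 < ε) : Integrable (J ε) := by
  have h := (integrable_inv_one_add_sq.comp_div (R := 2*ε) (by positivity)).const_mul (Real.pi / (2*ε))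
  refine h.congr (Filter.Eventually.of_forall fun x => ?_)
  simp only
  rw [J_eq hε]

lemma J_integral {ε : ℝ} (hε : 0 < ε) : ∫ u, J ε u = Real.pi ^ 2 := by
  simp_rw [J_eq hε]
  rw [integral_const_mul]
  have := Measure.integral_comp_div (fun x : ℝ => (1 + x^2)⁻¹) (2*ε)
  rw [this, integral_univ_inv_one_add_sq, abs_of_pos (by positivity)]
  simp only [smul_eq_mul]
  field_simp

lemma integral_kk' {ε : ℝ} (hε : 0 < ε) (y z : ℝ) (h : y ≠ z) :
    ∫ x : ℝ, k ε (y - x) * k ε (z - x) = J ε (z - y) := by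
  have h1 := integral_sub_left_eq_self (fun w => k ε w * k ε (w + (z - y))) (μ := (volume : Measure ℝ)) y
  have h2 : (fun x => k ε (y - x) * k ε (y - x + (z - y))) = fun x => k ε (y - x) * k ε (z - x) := by
    funext x
    congr 2
    ring
  rw [h2] at h1
  rw [h1, integral_kk hε _ (sub_ne_zero.mpr (Ne.symm h))]
  rfl

lemma integrable_prod_ksq {ε : ℝ} (hε : 0 < ε) (ν : Measure ℝ) [IsFiniteMeasure ν] :
    Integrable (fun q : ℝ × (ℝ × ℝ) => (k ε (q.2.1 - q.1))^2) (volume.prod (ν.prod ν)) := by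
  have hm : AEStronglyMeasurable (fun q : ℝ × (ℝ × ℝ) => (k ε (q.2.1 - q.1))^2) (volume.prod (ν.prod ν)) := by
    apply Continuous.aestronglyMeasurable
    exact ((k_cont hε).comp (by fun_prop)).pow 2
  rw [integrable_prod_iff' hm]
  constructor
  · refine Filter.Eventually.of_forall fun p => ?_
    exact (integrable_k_sq hε).comp_sub_left p.1
  · have : (fun y : ℝ × ℝ => ∫ x : ℝ, ‖(k ε ((x, y).2.1 - (x, y).1))^2‖) = fun _ => ∫ x, (k ε x)^2 := by
      funext y
      have h1 := integral_sub_left_eq_self (fun w => (k ε w)^2) (μ := (volume : Measure ℝ)) y.1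
      rw [← h1]
      congr 1
      funext x
      rw [Real.norm_eq_abs, abs_of_nonneg (sq_nonneg _)]
    rw [this]
    exact integrable_const _

lemma integrable_prod_ksq' {ε : ℝ} (hε : 0 < ε) (ν : Measure ℝ) [IsFiniteMeasure ν] :
    Integrable (fun q : ℝ × (ℝ × ℝ) => (k ε (q.2.2 - q.1))^2) (volume.prod (ν.prod ν)) := by
  have hm : AEStronglyMeasurable (fun q : ℝ × (ℝ × ℝ) => (k ε (q.2.2 - q.1))^2) (volume.prod (ν.prod ν)) := by
    apply Continuous.aestronglyMeasurable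
    exact ((k_cont hε).comp (by fun_prop)).pow 2
  rw [integrable_prod_iff' hm]
  constructor
  · refine Filter.Eventually.of_forall fun p => ?_
    exact (integrable_k_sq hε).comp_sub_left p.2
  · have : (fun y : ℝ × ℝ => ∫ x : ℝ, ‖(k ε ((x, y).2.2 - (x, y).1))^2‖) = fun _ => ∫ x, (k ε x)^2 := by
      funext y
      have h1 := integral_sub_left_eq_self (fun w => (k ε w)^2) (μ := (volume : Measure ℝ)) y.2
      rw [← h1]
      congr 1
      funext x
      rw [Real.norm_eq_abs, abs_of_nonneg (sq_nonneg _)]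
    rw [this]
    exact integrable_const _

lemma integrable_Phi {ε : ℝ} (hε : 0 < ε) (ν : Measure ℝ) [IsFiniteMeasure ν] (f : ℝ → ℝ)
    (hf : Measurable f) (M : ℝ) (hM : ∀ x, |f x| ≤ M) :
    Integrable (fun q : ℝ × (ℝ × ℝ) => (f q.2.1 * k ε (q.2.1 - q.1)) * (f q.2.2 * k ε (q.2.2 - q.1)))
      (volume.prod (ν.prod ν)) := by
  have hM0 : 0 ≤ M := le_trans (abs_nonneg _) (hM 0)
  have h1 := ((integrable_prod_ksq hε ν).add (integrable_prod_ksq' hε ν)).const_mul (M^2/2)
  refine h1.mono' ?_ ?_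
  · apply Measurable.aestronglyMeasurable
    have := (k_cont hε).measurable
    fun_prop
  · refine Filter.Eventually.of_forall fun q => ?_
    simp only [Pi.add_apply]
    rw [norm_mul, norm_mul, norm_mul, Real.norm_eq_abs, Real.norm_eq_abs, Real.norm_eq_abs, Real.norm_eq_abs]
    have a1 := hM q.2.1
    have a2 := hM q.2.2
    set K1 := k ε (q.2.1 - q.1)
    set K2 := k ε (q.2.2 - q.1)
    calc |f q.2.1| * |K1| * (|f q.2.2| * |K2|) = (|f q.2.1| * |f q.2.2|) * (|K1| * |K2|) := by ring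
      _ ≤ (M * M) * (|K1| * |K2|) := by gcongr
      _ ≤ (M * M) * ((K1^2 + K2^2)/2) := by
          gcongr
          nlinarith [sq_nonneg (|K1| - |K2|), sq_abs K1, sq_abs K2]
      _ = _ := by ring

lemma integrable_bdd {α : Type*} [MeasurableSpace α] (ν : Measure α) [IsFiniteMeasure ν] (f : α → ℝ)
    (hf : Measurable f) (M : ℝ) (hM : ∀ x, |f x| ≤ M) : Integrable f ν :=
  Integrable.of_bound hf.aestronglyMeasurable M (Filter.Eventually.of_forall hM)

/-- T2, T3: the L2 bound of the regularised Hilbert transform, real version -/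
lemma keps_bound {ε : ℝ} (hε : 0 < ε) (ν : Measure ℝ) [IsFiniteMeasure ν] (hν : ν ≤ volume) (f : ℝ → ℝ)
    (hf : Measurable f) (M : ℝ) (hM : ∀ x, |f x| ≤ M) :
    Integrable (fun x => (∫ y, f y * k ε (y - x) ∂ν)^2) ∧
    ∫ x, (∫ y, f y * k ε (y - x) ∂ν)^2 ≤ Real.pi^2 * ∫ y, (f y)^2 ∂ν := by
  have hPhi := integrable_Phi hε ν f hf M hM
  have hsq : ∀ x : ℝ, (∫ y, f y * k ε (y - x) ∂ν)^2 =
      ∫ p : ℝ × ℝ, (f p.1 * k ε (p.1 - x)) * (f p.2 * k ε (p.2 - x)) ∂(ν.prod ν) := by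
    intro x
    rw [sq]
    exact (integral_prod_mul (fun y => f y * k ε (y - x)) (fun y => f y * k ε (y - x))).symm
  constructor
  · simp_rw [hsq]
    exact hPhi.integral_prod_left
  have hM0 : 0 ≤ M := le_trans (abs_nonneg _) (hM 0)
  have hJm : Measurable (J ε) := (J_cont hε).measurable
  have hJb : ∀ u, |J ε u| ≤ Real.pi / (2 * ε) := fun u => by
    rw [abs_of_nonneg (J_nonneg hε u)]; exact J_le hε u
  have hNA : ∀ x, ν {x} = 0 := by
    intro x
    have := hν {x}
    simpa using this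
  have step1 : ∫ x, (∫ y, f y * k ε (y - x) ∂ν)^2 =
      ∫ p : ℝ × ℝ, f p.1 * f p.2 * J ε (p.2 - p.1) ∂(ν.prod ν) := by
    simp_rw [hsq]
    rw [integral_integral_swap hPhi]
    apply integral_congr_ae
    have hdiag : ∀ᵐ p : ℝ × ℝ ∂(ν.prod ν), p.1 ≠ p.2 := by
      have hms : MeasurableSet {p : ℝ × ℝ | ¬ (p.1 ≠ p.2)} := by
        simp only [ne_eq, not_not]
        exact measurableSet_eq_fun measurable_fst measurable_snd
      rw [ae_iff, Measure.prod_apply hms]
      have : ∀ x : ℝ, ν (Prod.mk x ⁻¹' {p : ℝ × ℝ | ¬ (p.1 ≠ p.2)}) = 0 := by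
        intro x
        have h2 : (Prod.mk x ⁻¹' {p : ℝ × ℝ | ¬ (p.1 ≠ p.2)}) = {x} := by
          ext y; simp [eq_comm]
        rw [h2]; exact hNA x
      rw [lintegral_congr this]; simp
    filter_upwards [hdiag] with p hp
    have h3 : ∀ x : ℝ, (f p.1 * k ε (p.1 - x)) * (f p.2 * k ε (p.2 - x)) =
        (f p.1 * f p.2) * (k ε (p.1 - x) * k ε (p.2 - x)) := fun x => by ring
    simp_rw [h3]
    rw [integral_const_mul, integral_kk' hε _ _ hp]
  rw [step1]
  have i1 : Integrable (fun p : ℝ × ℝ => f p.1 * f p.2 * J ε (p.2 - p.1)) (ν.prod ν) := by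
    apply integrable_bdd _ _ (by fun_prop) (M * M * (Real.pi / (2*ε)))
    intro p
    rw [abs_mul, abs_mul]
    have := hM p.1; have := hM p.2; have := hJb (p.2 - p.1)
    gcongr
  have i2 : Integrable (fun p : ℝ × ℝ => (f p.1)^2 * J ε (p.2 - p.1)) (ν.prod ν) := by
    apply integrable_bdd _ _ (by fun_prop) (M^2 * (Real.pi / (2*ε)))
    intro p
    rw [abs_mul, abs_pow]
    have := hM p.1; have := hJb (p.2 - p.1)
    gcongr
  have i3 : Integrable (fun p : ℝ × ℝ => (f p.2)^2 * J ε (p.2 - p.1)) (ν.prod ν) := by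
    apply integrable_bdd _ _ (by fun_prop) (M^2 * (Real.pi / (2*ε)))
    intro p
    rw [abs_mul, abs_pow]
    have := hM p.2; have := hJb (p.2 - p.1)
    gcongr
  have hJν : ∀ y : ℝ, ∫ z, J ε (z - y) ∂ν ≤ Real.pi^2 := by
    intro y
    have h4 : Integrable (fun z => J ε (z - y)) volume := (J_integrable hε).comp_sub_right y
    calc ∫ z, J ε (z - y) ∂ν ≤ ∫ z, J ε (z - y) :=
          integral_mono_measure hν (Filter.Eventually.of_forall fun z => J_nonneg hε _) h4
      _ = ∫ z, J ε z := integral_sub_right_eq_self (J ε) y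
      _ = Real.pi^2 := J_integral hε
  have hJν' : ∀ y : ℝ, ∫ z, J ε (y - z) ∂ν ≤ Real.pi^2 := by
    intro y
    have : (fun z => J ε (y - z)) = fun z => J ε (z - y) := by
      funext z; unfold J; congr 2; ring
    rw [this]; exact hJν y
  have hf2 : Integrable (fun y => (f y)^2) ν := by
    apply integrable_bdd _ _ (by fun_prop) (M^2)
    intro y; rw [abs_pow]; have := hM y; gcongr
  have e2 : ∫ p : ℝ × ℝ, (f p.1)^2 * J ε (p.2 - p.1) ∂(ν.prod ν) ≤ Real.pi^2 * ∫ y, (f y)^2 ∂ν := by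
    rw [integral_prod _ i2]
    simp only
    simp_rw [integral_const_mul]
    rw [← integral_const_mul]
    apply integral_mono_ae
    · have := i2.integral_prod_left
      simpa [integral_const_mul] using this
    · exact hf2.const_mul _
    · refine Filter.Eventually.of_forall fun y => ?_
      simp only
      rw [mul_comm (Real.pi^2)]
      exact mul_le_mul_of_nonneg_left (hJν y) (sq_nonneg _)
  have e3 : ∫ p : ℝ × ℝ, (f p.2)^2 * J ε (p.2 - p.1) ∂(ν.prod ν) ≤ Real.pi^2 * ∫ y, (f y)^2 ∂ν := by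
    rw [integral_prod_symm _ i3]
    simp only
    simp_rw [integral_const_mul]
    rw [← integral_const_mul]
    apply integral_mono_ae
    · have := i3.integral_prod_right
      simpa [integral_const_mul] using this
    · exact hf2.const_mul _
    · refine Filter.Eventually.of_forall fun y => ?_
      simp only
      rw [mul_comm (Real.pi^2)]
      exact mul_le_mul_of_nonneg_left (hJν' y) (sq_nonneg _)
  calc ∫ p : ℝ × ℝ, f p.1 * f p.2 * J ε (p.2 - p.1) ∂(ν.prod ν)
      ≤ ∫ p : ℝ × ℝ, (1/2) * ((f p.1)^2 * J ε (p.2 - p.1)) + (1/2) * ((f p.2)^2 * J ε (p.2 - p.1)) ∂(ν.prod ν) := by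
        apply integral_mono i1 ((i2.const_mul _).add (i3.const_mul _))
        intro p
        show f p.1 * f p.2 * J ε (p.2 - p.1) ≤
          (1/2) * ((f p.1)^2 * J ε (p.2 - p.1)) + (1/2) * ((f p.2)^2 * J ε (p.2 - p.1))
        have := J_nonneg hε (p.2 - p.1)
        have h5 : f p.1 * f p.2 ≤ (1/2) * (f p.1)^2 + (1/2) * (f p.2)^2 := by
          nlinarith [sq_nonneg (f p.1 - f p.2)]
        calc _ ≤ ((1/2) * (f p.1)^2 + (1/2) * (f p.2)^2) * J ε (p.2 - p.1) := by gcongr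
          _ = _ := by ring
    _ = (1/2) * (∫ p : ℝ × ℝ, (f p.1)^2 * J ε (p.2 - p.1) ∂(ν.prod ν)) +
        (1/2) * (∫ p : ℝ × ℝ, (f p.2)^2 * J ε (p.2 - p.1) ∂(ν.prod ν)) := by
        rw [integral_add (i2.const_mul _) (i3.const_mul _), integral_const_mul, integral_const_mul]
    _ ≤ _ := by linarith

end Pool.Agent.Helper49.Sq.Keps
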