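import Mathlib
import Pool.Agent.Helper49.Sq.Keps

set_option autoImplicit false
open MeasureTheory Filter Topology Set
open scoped NNReal
open Pool.Agent.Helper49.Sq.Keps

namespace Pool.Agent.Helper49.Sq.Pv

/-- principal value of `∫_a^b f(σ)/(σ-s) dσ` in explicit form -/
noncomputable def EE (f : ℝ → ℂ) (a b s : ℝ) : ℂ :=
  (∫ σ in Ioc a b, (f σ - f s) / ((σ - s : ℝ) : ℂ)) + (Real.log ((b - s) / (s - a)) : ℂ) * f s

lemma quot_bound {f : ℝ → ℂ} {K : ℝ≥0} (hf : LipschitzWith K f) (s σ : ℝ) :
    ‖(f σ - f s) / ((σ - s : ℝ) : ℂ)‖ ≤ K := by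
  rw [norm_div, Complex.norm_real, Real.norm_eq_abs]
  rcases eq_or_ne σ s with h | h
  · simp [h]
  · have h1 : 0 < |σ - s| := abs_pos.mpr (sub_ne_zero.mpr h)
    rw [div_le_iff₀ h1]
    have := hf.dist_le_mul σ s
    rwa [dist_eq_norm, Real.dist_eq] at this

lemma quot_meas {f : ℝ → ℂ} {K : ℝ≥0} (hf : LipschitzWith K f) (s : ℝ) :
    Measurable fun σ => (f σ - f s) / ((σ - s : ℝ) : ℂ) := by
  have := hf.continuous.measurable
  fun_prop

lemma quot_int {f : ℝ → ℂ} {K : ℝ≥0} (hf : LipschitzWith K f) (s a b : ℝ) :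
    Integrable (fun σ => (f σ - f s) / ((σ - s : ℝ) : ℂ)) (volume.restrict (Ioc a b)) :=
  Integrable.of_bound (quot_meas hf s).aestronglyMeasurable K
    (Filter.Eventually.of_forall fun σ => quot_bound hf s σ)

/-- integral of k over an interval -/
lemma int_k {ε : ℝ} (hε : 0 < ε) (a b s : ℝ) :
    ∫ σ in a..b, k ε (σ - s) = (Real.log ((b-s)^2+ε^2) - Real.log ((a-s)^2+ε^2)) / 2 := by
  have hd : ∀ x ∈ uIcc a b, HasDerivAt (fun σ : ℝ => Real.log ((σ-s)^2+ε^2) / 2) (k ε (x - s)) x := by
    intro x _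
    have d2 : HasDerivAt (fun w : ℝ => (w-s)^2+ε^2) (2*(x-s)) x := by
      have := (((hasDerivAt_id x).sub_const s).pow 2).add_const (ε^2)
      simpa using this
    have := (d2.log (by positivity)).div_const 2
    refine this.congr_deriv ?_
    unfold k; ring
  rw [intervalIntegral.integral_eq_sub_of_hasDerivAt hd]
  · ring
  · exact ((k_cont hε).comp (by fun_prop)).intervalIntegrable _ _

/-- (ii) limit of the regularised integrals -/
lemma tendsto_keps {f : ℝ → ℂ} {K : ℝ≥0} (hf : LipschitzWith K f) {a b s : ℝ} (ha : a < s) (hb : s < b)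
    (e : ℕ → ℝ) (he : ∀ n, 0 < e n) (he0 : Tendsto e atTop (𝓝 0)) :
    Tendsto (fun n => ∫ σ in Ioc a b, (k (e n) (σ - s) : ℂ) * f σ) atTop (𝓝 (EE f a b s)) := by
  have hab : a ≤ b := (ha.trans hb).le
  have hk1 : ∀ n, Integrable (fun σ => (k (e n) (σ - s) : ℂ)) (volume.restrict (Ioc a b)) := by
    intro n
    have h1 : Continuous (fun σ => (k (e n) (σ - s) : ℂ)) :=
      Complex.continuous_ofReal.comp ((k_cont (he n)).comp (by fun_prop))
    exact (h1.integrableOn_Icc (a := a) (b := b)).mono_set Ioc_subset_Icc_self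
  have hsplit : ∀ n, ∫ σ in Ioc a b, (k (e n) (σ - s) : ℂ) * f σ =
      (∫ σ in Ioc a b, (k (e n) (σ - s) : ℂ) * (f σ - f s)) +
      (((Real.log ((b-s)^2+(e n)^2) - Real.log ((a-s)^2+(e n)^2)) / 2 : ℝ) : ℂ) * f s := by
    intro n
    rw [← int_k (he n) a b s, intervalIntegral.integral_of_le hab, ← integral_complex_ofReal]
    rw [← integral_mul_const, ← integral_add]
    · congr 1
      funext σ
      ring
    · have h1 : Continuous (fun σ => (k (e n) (σ - s) : ℂ) * (f σ - f s)) :=
        (Complex.continuous_ofReal.comp ((k_cont (he n)).comp (by fun_prop))).mul (hf.continuous.sub continuous_const)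
      exact (h1.integrableOn_Icc (a := a) (b := b)).mono_set Ioc_subset_Icc_self
    · exact (hk1 n).mul_const _
  simp_rw [hsplit]
  unfold EE
  apply Tendsto.add
  · apply tendsto_integral_of_dominated_convergence (fun _ => (K:ℝ))
    · intro n
      apply Continuous.aestronglyMeasurable
      exact (Complex.continuous_ofReal.comp ((k_cont (he n)).comp (by fun_prop))).mul (hf.continuous.sub continuous_const)
    · exact integrable_const _
    · intro n
      refine Filter.Eventually.of_forall fun σ => ?_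
      have h1 := quot_bound hf s σ
      rw [norm_mul, Complex.norm_real, Real.norm_eq_abs]
      have h2 : ‖f σ - f s‖ ≤ K * |σ - s| := by
        have := hf.dist_le_mul σ s
        rwa [dist_eq_norm, Real.dist_eq] at this
      unfold k
      rw [abs_div]
      have hp : 0 < (σ - s)^2 + (e n)^2 := by have := he n; positivity
      rw [abs_of_pos hp, div_mul_eq_mul_div, div_le_iff₀ hp]
      have h3 := sq_abs (σ - s)
      have h4 : 0 ≤ (K:ℝ) := K.2
      calc |σ - s| * ‖f σ - f s‖ ≤ |σ - s| * (K * |σ - s|) := by gcongr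
        _ = K * (σ - s)^2 := by rw [← h3]; ring
        _ ≤ K * ((σ - s)^2 + (e n)^2) := by gcongr; nlinarith [sq_nonneg (e n)]
    · have hae : ∀ᵐ σ : ℝ ∂(volume.restrict (Ioc a b)), σ ≠ s := by
        apply ae_restrict_of_ae
        exact Measure.ae_ne volume s
      filter_upwards [hae] with σ hσ
      have hne : σ - s ≠ 0 := sub_ne_zero.mpr hσ
      have h1 : Tendsto (fun n => k (e n) (σ - s)) atTop (𝓝 (1 / (σ - s))) := by
        unfold k
        have h2 : Tendsto (fun n => (σ - s)^2 + (e n)^2) atTop (𝓝 ((σ - s)^2 + 0^2)) :=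
          (he0.pow 2).const_add _
        have h3 := (tendsto_const_nhds (x := σ - s)).div h2 (by positivity)
        have h4 : (σ - s) / ((σ - s)^2 + 0^2) = 1 / (σ - s) := by field_simp; ring
        rw [h4] at h3
        exact h3
      have h5 := ((Complex.continuous_ofReal.tendsto _).comp h1).mul_const (f σ - f s)
      have h6 : ((1 / (σ - s) : ℝ) : ℂ) * (f σ - f s) = (f σ - f s) / ((σ - s : ℝ) : ℂ) := by
        push_cast; ring
      rw [h6] at h5
      exact h5
  · apply Tendsto.mul_const
    have h1 : Tendsto (fun n => (b-s)^2 + (e n)^2) atTop (𝓝 ((b-s)^2 + 0^2)) := (he0.pow 2).const_add _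
    have h2 : Tendsto (fun n => (a-s)^2 + (e n)^2) atTop (𝓝 ((a-s)^2 + 0^2)) := (he0.pow 2).const_add _
    have hbs : 0 < b - s := by linarith
    have has : a - s < 0 := by linarith
    have h3 := ((h1.log (by positivity)).sub (h2.log (by nlinarith))).div_const 2
    have h4 : (Real.log ((b-s)^2 + 0^2) - Real.log ((a-s)^2 + 0^2)) / 2 = Real.log ((b - s) / (s - a)) := by
      have hs : 0 < s - a := by linarith
      rw [Real.log_div hbs.ne' hs.ne']
      have e1 : (b-s)^2 + 0^2 = (b-s)^2 := by ring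
      have e2 : (a-s)^2 + 0^2 = (s-a)^2 := by ring
      rw [e1, e2, Real.log_pow, Real.log_pow]
      push_cast; ring
    rw [h4] at h3
    exact (Complex.continuous_ofReal.tendsto _).comp h3


lemma measurableSet_far (δ s : ℝ) : MeasurableSet {σ : ℝ | δ < |σ - s|} := by
  apply measurableSet_lt measurable_const
  fun_prop

lemma set_eq {a b s δ : ℝ} (hδ : 0 < δ) (h1 : δ < s - a) (h2 : δ < b - s) :
    Ioc a b ∩ {σ : ℝ | δ < |σ - s|} = Ioo a (s - δ) ∪ Ioc (s + δ) b := by
  ext σ
  simp only [mem_inter_iff, mem_Ioc, mem_setOf_eq, mem_union, mem_Ioo]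
  constructor
  · rintro ⟨⟨h3, h4⟩, h5⟩
    rcases lt_abs.mp h5 with h | h
    · right; exact ⟨by linarith, h4⟩
    · left; exact ⟨h3, by linarith⟩
  · rintro (⟨h3, h4⟩ | ⟨h3, h4⟩)
    · exact ⟨⟨h3, by linarith⟩, lt_abs.mpr (Or.inr (by linarith))⟩
    · exact ⟨⟨by linarith, h4⟩, lt_abs.mpr (Or.inl (by linarith))⟩

lemma int_inv_far {a b s δ : ℝ} (hδ : 0 < δ) (h1 : δ < s - a) (h2 : δ < b - s) :
    IntegrableOn (fun σ => (σ - s)⁻¹) (Ioc a b ∩ {σ : ℝ | δ < |σ - s|}) ∧
    ∫ σ in Ioc a b ∩ {σ : ℝ | δ < |σ - s|}, (σ - s)⁻¹ = Real.log ((b - s) / (s - a)) := by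
  rw [set_eq hδ h1 h2]
  have c1 : IntegrableOn (fun σ => (σ - s)⁻¹) (Icc a (s - δ)) := by
    apply ContinuousOn.integrableOn_Icc
    apply ContinuousOn.inv₀ (by fun_prop)
    intro x hx
    have := hx.2
    have : x - s < 0 := by linarith
    exact this.ne
  have c2 : IntegrableOn (fun σ => (σ - s)⁻¹) (Icc (s + δ) b) := by
    apply ContinuousOn.integrableOn_Icc
    apply ContinuousOn.inv₀ (by fun_prop)
    intro x hx
    have := hx.1
    have : 0 < x - s := by linarith
    exact this.ne'
  have d1 : IntegrableOn (fun σ => (σ - s)⁻¹) (Ioo a (s - δ)) := c1.mono_set Ioo_subset_Icc_self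
  have d2 : IntegrableOn (fun σ => (σ - s)⁻¹) (Ioc (s + δ) b) := c2.mono_set Ioc_subset_Icc_self
  refine ⟨d1.union d2, ?_⟩
  have hdisj : Disjoint (Ioo a (s - δ)) (Ioc (s + δ) b) := by
    rw [Set.disjoint_left]
    intro x hx hx'
    have := hx.2; have := hx'.1
    linarith
  rw [setIntegral_union hdisj measurableSet_Ioc d1 d2]
  rw [← integral_Ioc_eq_integral_Ioo, ← intervalIntegral.integral_of_le (by linarith),
    ← intervalIntegral.integral_of_le (by linarith)]
  rw [intervalIntegral.integral_comp_sub_right (fun x => x⁻¹) s,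
    intervalIntegral.integral_comp_sub_right (fun x => x⁻¹) s]
  rw [integral_inv_of_neg (by linarith) (by linarith), integral_inv_of_pos (by linarith) (by linarith)]
  have e1 : s - δ - s = -δ := by ring
  have e2 : s + δ - s = δ := by ring
  rw [e1, e2]
  rw [← Real.log_mul]
  · congr 1
    have : a - s ≠ 0 := by linarith
    have : s - a ≠ 0 := by linarith
    field_simp
    ring
  · apply div_ne_zero (by linarith) (by linarith)
  · apply div_ne_zero (by linarith) (by linarith)

/-- (i) the truncated integrals -/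
lemma tendsto_trunc {f : ℝ → ℂ} {K : ℝ≥0} (hf : LipschitzWith K f) {a b s : ℝ} (ha : a < s) (hb : s < b) :
    Tendsto (fun δ => ∫ σ in Ioc a b ∩ {σ : ℝ | δ < |σ - s|}, f σ / ((σ - s : ℝ) : ℂ)) (𝓝[>] 0)
      (𝓝 (EE f a b s)) := by
  have hmain : Tendsto (fun δ => (∫ σ in Ioc a b, ({σ : ℝ | δ < |σ - s|}.indicator
      (fun σ => (f σ - f s) / ((σ - s : ℝ) : ℂ))) σ) + (Real.log ((b - s) / (s - a)) : ℂ) * f s) (𝓝[>] 0)
      (𝓝 (EE f a b s)) := by
    unfold EE
    apply Tendsto.add_const
    apply tendsto_integral_filter_of_dominated_convergence (fun _ => (K:ℝ))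
    · refine Filter.Eventually.of_forall fun δ => ?_
      exact ((quot_meas hf s).indicator (measurableSet_far δ s)).aestronglyMeasurable
    · refine Filter.Eventually.of_forall fun δ => Filter.Eventually.of_forall fun σ => ?_
      refine (norm_indicator_le_norm_self _ _).trans ?_
      exact quot_bound hf s σ
    · exact integrable_const _
    · have hae : ∀ᵐ σ : ℝ ∂(volume.restrict (Ioc a b)), σ ≠ s := by
        apply ae_restrict_of_ae
        exact Measure.ae_ne volume s
      filter_upwards [hae] with σ hσ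
      have hne : 0 < |σ - s| := abs_pos.mpr (sub_ne_zero.mpr hσ)
      have h1 : ∀ᶠ δ : ℝ in 𝓝[>] 0, δ < |σ - s| :=
        mem_nhdsWithin_of_mem_nhds (Iio_mem_nhds hne)
      refine tendsto_const_nhds.congr' ?_
      filter_upwards [h1] with δ hδ
      rw [indicator_of_mem]
      exact hδ
  refine hmain.congr' ?_
  have h1 : ∀ᶠ δ : ℝ in 𝓝[>] 0, δ < s - a := mem_nhdsWithin_of_mem_nhds (Iio_mem_nhds (by linarith))
  have h2 : ∀ᶠ δ : ℝ in 𝓝[>] 0, δ < b - s := mem_nhdsWithin_of_mem_nhds (Iio_mem_nhds (by linarith))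
  filter_upwards [h1, h2, self_mem_nhdsWithin] with δ hδ1 hδ2 hδ0
  have hδ0' : 0 < δ := hδ0
  obtain ⟨i1, i2⟩ := int_inv_far hδ0' hδ1 hδ2
  rw [setIntegral_indicator (measurableSet_far δ s), ← i2, ← integral_complex_ofReal, ← integral_mul_const,
    ← integral_add]
  · apply setIntegral_congr_fun
    · exact measurableSet_Ioc.inter (measurableSet_far δ s)
    · intro σ _
      simp only
      push_cast
      ring
  · exact (quot_int hf s a b).mono_measure (Measure.restrict_mono inter_subset_left le_rfl)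
  · exact (i1.ofReal).mul_const _

/-- L2 bound, complex version, regularised -/
lemma keps_bound_complex {ε : ℝ} (hε : 0 < ε) (a b : ℝ) (f : ℝ → ℂ)
    (hf : Measurable f) (M : ℝ) (hM : ∀ x, ‖f x‖ ≤ M) :
    ∫⁻ x, ENNReal.ofReal (‖∫ y in Ioc a b, (k ε (y - x) : ℂ) * f y‖^2) ≤
      ENNReal.ofReal (Real.pi^2 * ∫ y in Ioc a b, ‖f y‖^2) := by
  have hre : Measurable (fun x => (f x).re) := Complex.measurable_re.comp hf
  have him : Measurable (fun x => (f x).im) := Complex.measurable_im.comp hf
  have hreM : ∀ x, |(f x).re| ≤ M := fun x => (Complex.abs_re_le_norm _).trans (hM x)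
  have himM : ∀ x, |(f x).im| ≤ M := fun x => (Complex.abs_im_le_norm _).trans (hM x)
  obtain ⟨r1, r2⟩ := keps_bound hε (volume.restrict (Ioc a b)) Measure.restrict_le_self _ hre M hreM
  obtain ⟨s1, s2⟩ := keps_bound hε (volume.restrict (Ioc a b)) Measure.restrict_le_self _ him M himM
  have hkey : ∀ x, ‖∫ y in Ioc a b, (k ε (y - x) : ℂ) * f y‖^2 =
      (∫ y in Ioc a b, (f y).re * k ε (y - x))^2 + (∫ y in Ioc a b, (f y).im * k ε (y - x))^2 := by
    intro x
    have hint : Integrable (fun y => (k ε (y - x) : ℂ) * f y) (volume.restrict (Ioc a b)) := by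
      have hkb : ∀ y, |k ε y| ≤ 1 / ε := by
        intro y
        unfold k
        rw [abs_div, abs_of_pos (show 0 < y^2 + ε^2 by positivity), div_le_div_iff₀ (by positivity) hε]
        nlinarith [sq_abs y, abs_nonneg y, sq_nonneg (|y| - ε)]
      apply Integrable.of_bound (C := 1/ε * M)
      · have := (k_cont hε).measurable
        apply Measurable.aestronglyMeasurable
        fun_prop
      · refine Filter.Eventually.of_forall fun y => ?_
        rw [norm_mul, Complex.norm_real, Real.norm_eq_abs]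
        have h1 := hkb (y - x)
        have h2 := hM y
        have h3 : 0 ≤ 1/ε := by positivity
        gcongr
    rw [← Complex.normSq_eq_norm_sq, Complex.normSq_apply]
    have e1 : (∫ y in Ioc a b, (k ε (y - x) : ℂ) * f y).re = ∫ y in Ioc a b, (f y).re * k ε (y - x) := by
      have := integral_re hint
      simp only [RCLike.re_eq_complex_re] at this
      rw [← this]
      congr 1
      funext y
      simp
      ring
    have e2 : (∫ y in Ioc a b, (k ε (y - x) : ℂ) * f y).im = ∫ y in Ioc a b, (f y).im * k ε (y - x) := by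
      have := integral_im hint
      simp only [RCLike.im_eq_complex_im] at this
      rw [← this]
      congr 1
      funext y
      simp
      ring
    rw [e1, e2]
    ring
  simp_rw [hkey]
  have h3 := ofReal_integral_eq_lintegral_ofReal (r1.add s1)
    (Filter.Eventually.of_forall fun x => by simp only [Pi.add_apply, Pi.zero_apply]; positivity)
  simp only [Pi.add_apply] at h3
  rw [← h3]
  apply ENNReal.ofReal_le_ofReal
  rw [integral_add r1 s1]
  have ir : Integrable (fun y => (f y).re^2) (volume.restrict (Ioc a b)) := by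
    apply integrable_bdd _ _ (by fun_prop) (M^2)
    intro y; rw [abs_pow]; have := hreM y; gcongr
  have ii : Integrable (fun y => (f y).im^2) (volume.restrict (Ioc a b)) := by
    apply integrable_bdd _ _ (by fun_prop) (M^2)
    intro y; rw [abs_pow]; have := himM y; gcongr
  have h4 : ∫ y in Ioc a b, ‖f y‖^2 = (∫ y in Ioc a b, (f y).re^2) + ∫ y in Ioc a b, (f y).im^2 := by
    rw [← integral_add ir ii]
    congr 1
    funext y
    rw [← Complex.normSq_eq_norm_sq, Complex.normSq_apply]
    ring
  rw [h4]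
  linarith

/-- clamp a function to `[a,b]` -/
lemma clamp_lip {f : ℝ → ℂ} {K : ℝ≥0} (hf : LipschitzWith K f) (a b : ℝ) :
    LipschitzWith K (fun x => f (max a (min b x))) := by
  have h1 : LipschitzWith 1 (fun x : ℝ => max a (min b x)) := by
    apply LipschitzWith.const_max
    exact LipschitzWith.const_min LipschitzWith.id b
  have := hf.comp h1
  rw [mul_one] at this
  exact this

lemma bounded_on {f : ℝ → ℂ} (hf : Continuous f) (a b : ℝ) :
    ∃ M, ∀ x, ‖f (max a (min b x))‖ ≤ M := by
  obtain ⟨M, hM⟩ := (isCompact_Icc (a := a) (b := max a b)).exists_bound_of_continuousOn hf.continuousOn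
  refine ⟨M, fun x => hM _ ⟨le_max_left _ _, ?_⟩⟩
  exact max_le_max le_rfl (min_le_left _ _)

/-- L2 bound for the finite Hilbert transform -/
lemma EE_bound {f : ℝ → ℂ} {K : ℝ≥0} (hf : LipschitzWith K f) (a b : ℝ) :
    ∫⁻ s in Ioo a b, ENNReal.ofReal (‖EE f a b s‖^2) ≤
      ENNReal.ofReal (Real.pi^2 * ∫ y in Ioc a b, ‖f y‖^2) := by
  obtain ⟨M, hM⟩ := bounded_on hf.continuous a b
  set f' : ℝ → ℂ := fun x => f (max a (min b x)) with hf'
  have hf'l : LipschitzWith K f' := clamp_lip hf a b
  have hff : ∀ x ∈ Ioc a b, f x = f' x := by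
    intro x hx
    have h1 : min b x = x := min_eq_right hx.2
    have h2 : max a x = x := max_eq_right hx.1.le
    simp only [hf', h1, h2]
  let e : ℕ → ℝ := fun n => 1 / ((n:ℝ) + 1)
  have he : ∀ n, 0 < e n := fun n => by simp only [e]; positivity
  have he0 : Tendsto e atTop (𝓝 0) := tendsto_one_div_add_atTop_nhds_zero_nat
  have hb : ∀ n, ∫⁻ x in Ioo a b, ENNReal.ofReal (‖∫ y in Ioc a b, (k (e n) (y - x) : ℂ) * f y‖^2) ≤
      ENNReal.ofReal (Real.pi^2 * ∫ y in Ioc a b, ‖f y‖^2) := by
    intro n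
    have h1 := keps_bound_complex (he n) a b f' hf'l.continuous.measurable M hM
    have h2 : ∫ y in Ioc a b, ‖f y‖^2 = ∫ y in Ioc a b, ‖f' y‖^2 :=
      setIntegral_congr_fun measurableSet_Ioc fun y hy => by simp only [hff y hy]
    rw [h2]
    refine le_trans ?_ h1
    refine le_trans (lintegral_mono' Measure.restrict_le_self le_rfl) ?_
    apply le_of_eq
    congr 1
    funext x
    congr 3
    exact setIntegral_congr_fun measurableSet_Ioc fun y hy => by simp only [hff y hy]
  have hF : ∫⁻ s in Ioo a b, ENNReal.ofReal (‖EE f a b s‖^2) ≤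
      liminf (fun n => ∫⁻ x in Ioo a b, ENNReal.ofReal (‖∫ y in Ioc a b, (k (e n) (y - x) : ℂ) * f y‖^2)) atTop := by
    have h5 : ∫⁻ s in Ioo a b, ENNReal.ofReal (‖EE f a b s‖^2) =
        ∫⁻ s in Ioo a b, liminf (fun n => ENNReal.ofReal (‖∫ y in Ioc a b, (k (e n) (y - s) : ℂ) * f y‖^2)) atTop := by
      apply setLIntegral_congr_fun measurableSet_Ioo
      intro s hs
      have h6 := tendsto_keps hf hs.1 hs.2 e he he0
      have h7 := (ENNReal.continuous_ofReal.tendsto _).comp (h6.norm.pow 2)
      exact h7.liminf_eq.symm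
    rw [h5]
    apply lintegral_liminf_le'
    intro n
    apply AEMeasurable.ennreal_ofReal
    apply AEMeasurable.pow_const
    apply AEMeasurable.norm
    apply AEStronglyMeasurable.aemeasurable
    apply StronglyMeasurable.aestronglyMeasurable
    apply StronglyMeasurable.integral_prod_right (f := fun x y => (k (e n) (y - x) : ℂ) * f y)
    apply Measurable.stronglyMeasurable
    have h8 := (k_cont (he n)).measurable
    have h9 := hf.continuous.measurable
    simp only [Function.uncurry_def]
    fun_prop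
  refine hF.trans ?_
  apply liminf_le_of_le
  · isBoundedDefault
  · intro c hc
    obtain ⟨n, hn⟩ := hc.exists
    exact hn.trans (hb n)

end Pool.Agent.Helper49.Sq.Pv
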