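import Mathlib
import Pool.Agent.Helper49.Sq.Defs
import Pool.Agent.Helper49.Sq.Core
import Pool.Agent.Helper49.Sq.Pv
import Pool.Agent.Helper49.Sq.Hardy

set_option autoImplicit false
open MeasureTheory Filter Topology Set
open scoped NNReal ENNReal
open Pool.Agent.Helper49.Sq.Keps Pool.Agent.Helper49.Sq.Pv Pool.Agent.Helper49.Sq.Hardy

open Pool.Agent.Helper49.Sq.Core
open Pool.Agent.Helper49.Sq.Defs (IsUnitSquare mu truncCauchy IsPC Condition3)

namespace Pool.Agent.Helper49.Sq.Geom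

/-- real part -/
noncomputable def X (s : ℝ) : ℝ := if s ≤ -1 then -1 - s else if s ≤ 0 then 0 else if s ≤ 1 then s else 1
noncomputable def Y (s : ℝ) : ℝ := if s ≤ -1 then 1 else if s ≤ 0 then -s else if s ≤ 1 then 0 else s - 1

lemma gam_eq {γ : ℝ → ℂ} (h : IsUnitSquare γ) (s : ℝ) (h1 : -2 ≤ s) (h2 : s ≤ 2) :
    γ s = (X s : ℂ) + (Y s : ℂ) * Complex.I := by
  unfold X Y
  split_ifs with a b c
  · rw [h.top s ⟨h1, a⟩]; push_cast; ring
  · rw [h.left s ⟨by linarith, b⟩]; push_cast; ring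
  · rw [h.bottom s ⟨by linarith, c⟩]; push_cast; ring
  · rw [h.right s ⟨by linarith, h2⟩]; push_cast; ring

/-- arc-chord in l1 form -/
lemma l1_bound (s σ : ℝ) (h1 : -2 ≤ s) (h2 : s ≤ 2) (h3 : -2 ≤ σ) (h4 : σ ≤ 2) :
    min |σ - s| (4 - |σ - s|) / 2 ≤ |X σ - X s| + |Y σ - Y s| := by
  wlog hle : s ≤ σ with H
  · have := H σ s h3 h4 h1 h2 (by linarith)
    rw [abs_sub_comm σ s, abs_sub_comm (X σ), abs_sub_comm (Y σ)]
    exact this
  rw [abs_of_nonneg (show 0 ≤ σ - s by linarith)]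
  have k1 := le_abs_self (X σ - X s)
  have k2 := neg_abs_le (X σ - X s)
  have k3 := le_abs_self (Y σ - Y s)
  have k4 := neg_abs_le (Y σ - Y s)
  have m1 := min_le_left (σ - s) (4 - (σ - s))
  have m2 := min_le_right (σ - s) (4 - (σ - s))
  revert k1 k2 k3 k4
  generalize |X σ - X s| = p
  generalize |Y σ - Y s| = q
  unfold X Y
  split_ifs <;> intro k1 k2 k3 k4 <;> linarith

lemma arc_chord {γ : ℝ → ℂ} (h : IsUnitSquare γ) (s σ : ℝ) (h1 : -2 ≤ s) (h2 : s ≤ 2) (h3 : -2 ≤ σ) (h4 : σ ≤ 2) :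
    min |σ - s| (4 - |σ - s|) / 4 ≤ ‖γ σ - γ s‖ := by
  have h5 := l1_bound s σ h1 h2 h3 h4
  rw [gam_eq h s h1 h2, gam_eq h σ h3 h4]
  have e : (X σ : ℂ) + (Y σ : ℂ) * Complex.I - ((X s : ℂ) + (Y s : ℂ) * Complex.I) =
    ((X σ - X s : ℝ) : ℂ) + ((Y σ - Y s : ℝ) : ℂ) * Complex.I := by push_cast; ring
  rw [e]
  have h6 := Complex.abs_re_le_norm (((X σ - X s : ℝ) : ℂ) + ((Y σ - Y s : ℝ) : ℂ) * Complex.I)
  have h7 := Complex.abs_im_le_norm (((X σ - X s : ℝ) : ℂ) + ((Y σ - Y s : ℝ) : ℂ) * Complex.I)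
  simp only [Complex.add_re, Complex.ofReal_re, Complex.mul_re, Complex.I_re, mul_zero, Complex.ofReal_im,
    Complex.I_im, mul_one, sub_self, add_zero, Complex.add_im, Complex.mul_im, zero_add] at h6 h7
  linarith

/-- nodes -/
def lo (i : ℕ) : ℝ := (i : ℝ) - 2

/-- tangents -/
noncomputable def tau (i : ℕ) : ℂ := if i = 0 then -1 else if i = 1 then -Complex.I else if i = 2 then 1 else Complex.I

lemma tau_norm (i : ℕ) : ‖tau i‖ = 1 := by
  unfold tau; split_ifs <;> simp

lemma tau_ne (i : ℕ) : tau i ≠ 0 := by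
  intro h
  have := tau_norm i
  rw [h] at this; simp at this

lemma gam_edge {γ : ℝ → ℂ} (h : IsUnitSquare γ) (i : ℕ) (hi : i < 4) (s σ : ℝ)
    (hs : s ∈ Icc (lo i) (lo i + 1)) (hσ : σ ∈ Icc (lo i) (lo i + 1)) :
    γ σ - γ s = tau i * ((σ - s : ℝ) : ℂ) := by
  unfold lo tau at *
  interval_cases i
  · have a1 : s ∈ Icc (-2:ℝ) (-1) := by
      have := hs.1; have := hs.2; push_cast at *; constructor <;> linarith
    have a2 : σ ∈ Icc (-2:ℝ) (-1) := by
      have := hσ.1; have := hσ.2; push_cast at *; constructor <;> linarith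
    rw [h.top s a1, h.top σ a2]
    push_cast; simp
  · have a1 : s ∈ Icc (-1:ℝ) 0 := by
      have := hs.1; have := hs.2; push_cast at *; constructor <;> linarith
    have a2 : σ ∈ Icc (-1:ℝ) 0 := by
      have := hσ.1; have := hσ.2; push_cast at *; constructor <;> linarith
    rw [h.left s a1, h.left σ a2]
    push_cast; simp; ring
  · have a1 : s ∈ Icc (0:ℝ) 1 := by
      have := hs.1; have := hs.2; push_cast at *; constructor <;> linarith
    have a2 : σ ∈ Icc (0:ℝ) 1 := by
      have := hσ.1; have := hσ.2; push_cast at *; constructor <;> linarith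
    rw [h.bottom s a1, h.bottom σ a2]
    push_cast; simp
  · have a1 : s ∈ Icc (1:ℝ) 2 := by
      have := hs.1; have := hs.2; push_cast at *; constructor <;> linarith
    have a2 : σ ∈ Icc (1:ℝ) 2 := by
      have := hσ.1; have := hσ.2; push_cast at *; constructor <;> linarith
    rw [h.right s a1, h.right σ a2]
    push_cast; simp; ring

lemma gam_deriv {γ : ℝ → ℂ} (h : IsUnitSquare γ) (i : ℕ) (hi : i < 4) (s : ℝ)
    (hs : s ∈ Ioo (lo i) (lo i + 1)) : deriv γ s = tau i := by
  apply HasDerivAt.deriv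
  have h1 : HasDerivAt (fun σ : ℝ => γ s + tau i * ((σ - s : ℝ) : ℂ)) (tau i) s := by
    have h2 : HasDerivAt (fun σ : ℝ => ((σ - s : ℝ) : ℂ)) 1 s := by
      have := ((hasDerivAt_id s).sub_const s).ofReal_comp
      simpa using this
    have := (h2.const_mul (tau i)).const_add (γ s)
    simpa using this
  refine h1.congr_of_eventuallyEq ?_
  filter_upwards [Ioo_mem_nhds hs.1 hs.2] with σ hσ
  have := gam_edge h i hi s σ ⟨hs.1.le, hs.2.le⟩ ⟨hσ.1.le, hσ.2.le⟩
  rw [← this]; ring

/-- the set identity for small truncation -/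
lemma trunc_set {γ : ℝ → ℂ} (h : IsUnitSquare γ) (i : ℕ) (hi : i < 4) (s δ : ℝ)
    (hδ1 : δ < (s - lo i) / 4) (hδ2 : δ < (lo i + 1 - s) / 4) (hs : s ∈ Ioo (lo i) (lo i + 1)) :
    Ioc (-2:ℝ) 2 ∩ {σ | δ < ‖γ σ - γ s‖} =
      (Ioc (lo i) (lo i + 1) ∩ {σ | δ < |σ - s|}) ∪ (Ioc (-2) 2 \ Ioc (lo i) (lo i + 1)) := by
  have hlo1 : -2 ≤ lo i := by unfold lo; linarith [Nat.cast_nonneg (α := ℝ) i]
  have hlo2 : lo i + 1 ≤ 2 := by
    unfold lo
    have : (i:ℝ) ≤ 3 := by exact_mod_cast Nat.le_of_lt_succ hi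
    linarith
  have hedge : ∀ σ ∈ Ioc (lo i) (lo i + 1), ‖γ σ - γ s‖ = |σ - s| := by
    intro σ hσ
    rw [gam_edge h i hi s σ ⟨hs.1.le, hs.2.le⟩ ⟨hσ.1.le, hσ.2⟩, norm_mul, tau_norm, one_mul,
      Complex.norm_real, Real.norm_eq_abs]
  ext σ
  simp only [mem_inter_iff, mem_union, Set.mem_sdiff]
  constructor
  · rintro ⟨h1, h2⟩
    by_cases h3 : σ ∈ Ioc (lo i) (lo i + 1)
    · left
      refine ⟨h3, ?_⟩
      have h2' : δ < ‖γ σ - γ s‖ := h2
      rw [hedge σ h3] at h2'
      exact h2'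
    · right; exact ⟨h1, h3⟩
  · rintro (⟨h1, h2⟩ | ⟨h1, h2⟩)
    · refine ⟨⟨by linarith [h1.1], by linarith [h1.2]⟩, ?_⟩
      have h2' : δ < |σ - s| := h2
      rw [← hedge σ h1] at h2'
      exact h2'
    · refine ⟨h1, ?_⟩
      show δ < ‖γ σ - γ s‖
      refine lt_of_lt_of_le ?_ (arc_chord h s σ (by linarith [hs.1]) (by linarith [hs.2]) h1.1.le h1.2)
      have hs1 := hs.1
      have hs2 := hs.2
      have h3 : σ ≤ lo i ∨ lo i + 1 < σ := by
        by_contra hcon
        push Not at hcon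
        exact h2 ⟨hcon.1, hcon.2⟩
      have g1 := h1.1
      have g2 := h1.2
      rw [lt_div_iff₀ (by norm_num)]
      apply lt_min
      · rcases h3 with h3 | h3
        · rw [abs_of_neg (by linarith)]; linarith
        · rw [abs_of_pos (by linarith)]; linarith
      · rcases h3 with h3 | h3
        · rw [abs_of_neg (by linarith)]; linarith
        · rw [abs_of_pos (by linarith)]; linarith

/-- kernel bound off the edge -/
noncomputable def kapsum (s σ : ℝ) : ℝ :=
  kap (-1) (-1) s σ + kap 0 0 s σ + kap 1 1 s σ + kap 2 (-2) s σ + kap (-2) 2 s σ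

lemma kernel_bound {γ : ℝ → ℂ} (h : IsUnitSquare γ) (i : ℕ) (hi : i < 4) (s σ : ℝ)
    (hs : s ∈ Ioo (lo i) (lo i + 1)) (hσ : σ ∈ Ioc (-2:ℝ) 2 \ Ioc (lo i) (lo i + 1)) :
    ‖(γ σ - γ s)⁻¹‖ ≤ 4 * kapsum s σ := by
  have hlo1 : -2 ≤ lo i := by unfold lo; linarith [Nat.cast_nonneg (α := ℝ) i]
  have hlo2 : lo i + 1 ≤ 2 := by
    unfold lo
    have : (i:ℝ) ≤ 3 := by exact_mod_cast Nat.le_of_lt_succ hi
    linarith
  have hs1 := hs.1
  have hs2 := hs.2
  have h3 : σ ≤ lo i ∨ lo i + 1 < σ := by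
    by_contra hcon
    push Not at hcon
    exact hσ.2 ⟨hcon.1, hcon.2⟩
  have g1 := hσ.1.1
  have g2 := hσ.1.2
  have hA : 0 < |σ - s| := by
    apply abs_pos.mpr
    rcases h3 with h3 | h3
    · linarith
    · linarith
  have hB : 0 < 4 - |σ - s| := by
    rcases h3 with h3 | h3
    · rw [abs_of_neg (by linarith)]; linarith
    · rw [abs_of_pos (by linarith)]; linarith
  have hac := arc_chord h s σ (by linarith) (by linarith) g1.le g2
  have hmin : 0 < min |σ - s| (4 - |σ - s|) := lt_min hA hB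
  rw [norm_inv]
  have h5 : ‖γ σ - γ s‖⁻¹ ≤ 4 * (min |σ - s| (4 - |σ - s|))⁻¹ := by
    have := inv_anti₀ (by positivity) hac
    refine this.trans (le_of_eq ?_)
    rw [inv_div]; ring
  refine h5.trans ?_
  apply mul_le_mul_of_nonneg_left _ (by norm_num)
  have h6 : (min |σ - s| (4 - |σ - s|))⁻¹ ≤ |σ - s|⁻¹ + (4 - |σ - s|)⁻¹ := by
    rcases min_choice |σ - s| (4 - |σ - s|) with hm | hm
    · rw [hm]; have := inv_pos.mpr hB; linarith
    · rw [hm]; have := inv_pos.mpr hA; linarith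
  refine h6.trans ?_
  have n1 := kap_nonneg (-1) (-1) s σ
  have n2 := kap_nonneg 0 0 s σ
  have n3 := kap_nonneg 1 1 s σ
  have n4 := kap_nonneg 2 (-2) s σ
  have n5 := kap_nonneg (-2) 2 s σ
  have h7 : |σ - s|⁻¹ ≤ kap (-1) (-1) s σ + kap 0 0 s σ + kap 1 1 s σ := by
    have key : ∀ m : ℝ, |s - m| + |σ - m| = |σ - s| → |σ - s|⁻¹ = kap m m s σ := by
      intro m hm
      unfold kap
      rw [hm, one_div]
    unfold lo at *
    rcases h3 with h3 | h3
    · interval_cases i
      · exfalso; push_cast at *; linarith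
      · rw [key (-1) (by
          push_cast at *
          rw [abs_of_pos (by linarith), abs_of_nonpos (by linarith), abs_of_neg (by linarith)]; ring)]
        linarith
      · rw [key 0 (by
          push_cast at *
          rw [abs_of_pos (by linarith), abs_of_nonpos (by linarith), abs_of_neg (by linarith)]; ring)]
        linarith
      · rw [key 1 (by
          push_cast at *
          rw [abs_of_pos (by linarith), abs_of_nonpos (by linarith), abs_of_neg (by linarith)]; ring)]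
        linarith
    · interval_cases i
      · rw [key (-1) (by
          push_cast at *
          rw [abs_of_neg (by linarith), abs_of_pos (by linarith), abs_of_pos (by linarith)]; ring)]
        linarith
      · rw [key 0 (by
          push_cast at *
          rw [abs_of_neg (by linarith), abs_of_pos (by linarith), abs_of_pos (by linarith)]; ring)]
        linarith
      · rw [key 1 (by
          push_cast at *
          rw [abs_of_neg (by linarith), abs_of_pos (by linarith), abs_of_pos (by linarith)]; ring)]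
        linarith
      · exfalso; push_cast at *; linarith
  have h8 : (4 - |σ - s|)⁻¹ ≤ kap 2 (-2) s σ + kap (-2) 2 s σ := by
    rcases h3 with h3 | h3
    · have : (4 - |σ - s|)⁻¹ = kap 2 (-2) s σ := by
        unfold kap
        rw [one_div]
        congr 1
        rw [abs_of_neg (show σ - s < 0 by linarith), abs_of_neg (show s - 2 < 0 by linarith),
          abs_of_pos (show 0 < σ - -2 by linarith)]
        ring
      rw [this]; linarith
    · have : (4 - |σ - s|)⁻¹ = kap (-2) 2 s σ := by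
        unfold kap
        rw [one_div]
        congr 1
        rw [abs_of_pos (show 0 < σ - s by linarith), abs_of_pos (show 0 < s - -2 by linarith),
          abs_of_nonpos (show σ - 2 ≤ 0 by linarith)]
        ring
      rw [this]; linarith
  unfold kapsum
  linarith

end Pool.Agent.Helper49.Sq.Geom
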