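import Mathlib
import Pool.Agent.Helper49.Sq.Geom

set_option autoImplicit false
open MeasureTheory Filter Topology Set
open scoped NNReal ENNReal
open Pool.Agent.Helper49.Sq.Keps Pool.Agent.Helper49.Sq.Pv Pool.Agent.Helper49.Sq.Hardy
open Pool.Agent.Helper49.Sq.Geom

open Pool.Agent.Helper49.Sq.Core
open Pool.Agent.Helper49.Sq.Defs (IsUnitSquare mu truncCauchy IsPC Condition3)

namespace Pool.Agent.Helper49.Sq.Op

noncomputable def G (s : ℝ) : ℂ := (X s : ℂ) + (Y s : ℂ) * Complex.I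

noncomputable def tf (σ : ℝ) : ℂ := if σ ≤ -1 then -1 else if σ ≤ 0 then -Complex.I else if σ ≤ 1 then 1 else Complex.I

lemma X_meas : Measurable X := by
  unfold X
  refine Measurable.ite measurableSet_Iic (by fun_prop) ?_
  refine Measurable.ite measurableSet_Iic (by fun_prop) ?_
  exact Measurable.ite measurableSet_Iic (by fun_prop) (by fun_prop)

lemma Y_meas : Measurable Y := by
  unfold Y
  refine Measurable.ite measurableSet_Iic (by fun_prop) ?_
  refine Measurable.ite measurableSet_Iic (by fun_prop) ?_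
  exact Measurable.ite measurableSet_Iic (by fun_prop) (by fun_prop)

lemma G_meas : Measurable G := by
  unfold G
  have := X_meas
  have := Y_meas
  fun_prop

lemma tf_meas : Measurable tf := by
  unfold tf
  refine Measurable.ite measurableSet_Iic (by fun_prop) ?_
  refine Measurable.ite measurableSet_Iic (by fun_prop) ?_
  exact Measurable.ite measurableSet_Iic (by fun_prop) (by fun_prop)

lemma tf_norm (σ : ℝ) : ‖tf σ‖ = 1 := by
  unfold tf; split_ifs <;> simp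

lemma tf_eq (i : ℕ) (hi : i < 4) (σ : ℝ) (hσ : σ ∈ Ioc (lo i) (lo i + 1)) : tf σ = tau i := by
  have h1 := hσ.1
  have h2 := hσ.2
  unfold tf tau lo at *
  interval_cases i
  · push_cast at *
    have a1 : σ ≤ -1 := by linarith
    rw [if_pos a1]
  · push_cast at *
    have a1 : ¬ σ ≤ -1 := by linarith
    have a2 : σ ≤ 0 := by linarith
    rw [if_neg a1, if_pos a2]
  · push_cast at *
    have a1 : ¬ σ ≤ -1 := by linarith
    have a2 : ¬ σ ≤ 0 := by linarith
    have a3 : σ ≤ 1 := by linarith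
    rw [if_neg a1, if_neg a2, if_pos a3]
  · push_cast at *
    have a1 : ¬ σ ≤ -1 := by linarith
    have a2 : ¬ σ ≤ 0 := by linarith
    have a3 : ¬ σ ≤ 1 := by linarith
    rw [if_neg a1, if_neg a2, if_neg a3]

lemma lo_ge (i : ℕ) : -2 ≤ lo i := by unfold lo; linarith [Nat.cast_nonneg (α := ℝ) i]

lemma lo_le (i : ℕ) (hi : i < 4) : lo i + 1 ≤ 2 := by
  unfold lo
  have : (i:ℝ) ≤ 3 := by exact_mod_cast Nat.le_of_lt_succ hi
  linarith

noncomputable def RR (i : ℕ) (f : ℝ → ℂ) (s : ℝ) : ℂ :=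
  ∫ σ in Ioc (-2 : ℝ) 2 \ Ioc (lo i) (lo i + 1), f σ * tf σ / (G σ - G s)

lemma far_bound {γ : ℝ → ℂ} (h : IsUnitSquare γ) (i : ℕ) (hi : i < 4) (s σ : ℝ)
    (hs : s ∈ Ioo (lo i) (lo i + 1)) (hσ : σ ∈ Ioc (-2:ℝ) 2 \ Ioc (lo i) (lo i + 1)) :
    min (s - lo i) (lo i + 1 - s) / 4 ≤ ‖γ σ - γ s‖ := by
  have hlo1 := lo_ge i
  have hlo2 := lo_le i hi
  have hs1 := hs.1
  have hs2 := hs.2
  have g1 := hσ.1.1
  have g2 := hσ.1.2
  refine le_trans ?_ (arc_chord h s σ (by linarith) (by linarith) g1.le g2)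
  have h3 : σ ≤ lo i ∨ lo i + 1 < σ := by
    by_contra hcon
    push Not at hcon
    exact hσ.2 ⟨hcon.1, hcon.2⟩
  apply div_le_div_of_nonneg_right _ (by norm_num)
  have m1 := min_le_left (s - lo i) (lo i + 1 - s)
  have m2 := min_le_right (s - lo i) (lo i + 1 - s)
  apply le_min
  · rcases h3 with h3 | h3
    · rw [abs_of_neg (by linarith)]; linarith
    · rw [abs_of_pos (by linarith)]; linarith
  · rcases h3 with h3 | h3
    · rw [abs_of_neg (by linarith)]; linarith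
    · rw [abs_of_pos (by linarith)]; linarith

/-- a concrete square parametrization -/
noncomputable def sq (s : ℝ) : ℂ := G (toIocMod (show (0:ℝ) < 4 by norm_num) (-2) s)

lemma toIocMod_self {s : ℝ} (hs : s ∈ Ioc (-2:ℝ) 2) : toIocMod (show (0:ℝ) < 4 by norm_num) (-2) s = s := by
  rw [toIocMod_eq_self]
  constructor <;> [exact hs.1; linarith [hs.2]]

lemma sq_eq {s : ℝ} (hs : s ∈ Icc (-2:ℝ) 2) : sq s = G s := by
  rcases eq_or_lt_of_le hs.1 with h | h
  · subst h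
    unfold sq
    have : toIocMod (show (0:ℝ) < 4 by norm_num) (-2) (-2 : ℝ) = 2 := by
      have h1 := toIocMod_apply_left (show (0:ℝ) < 4 by norm_num) (-2)
      rw [h1]; norm_num
    rw [this]
    unfold G X Y
    norm_num
  · unfold sq
    rw [toIocMod_self ⟨h, hs.2⟩]

lemma sq_isUnitSquare : IsUnitSquare sq := by
  constructor
  · intro s
    unfold sq
    rw [toIocMod_add_right]
  · intro s hs
    rw [sq_eq ⟨hs.1, by linarith [hs.2]⟩]
    unfold G X Y
    simp [hs.2]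
  · intro s hs
    rw [sq_eq ⟨by linarith [hs.1], by linarith [hs.2]⟩]
    unfold G X Y
    rcases eq_or_lt_of_le hs.1 with h | h
    · subst h; norm_num
    · simp [not_le.mpr h, hs.2]
  · intro s hs
    rw [sq_eq ⟨by linarith [hs.1], by linarith [hs.2]⟩]
    unfold G X Y
    rcases eq_or_lt_of_le hs.1 with h | h
    · subst h; norm_num
    · have h2 : ¬ s ≤ -1 := by linarith
      simp [not_le.mpr h, hs.2, h2]
  · intro s hs
    rw [sq_eq ⟨by linarith [hs.1], by linarith [hs.2]⟩]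
    unfold G X Y
    rcases eq_or_lt_of_le hs.1 with h | h
    · subst h; norm_num
    · have h2 : ¬ s ≤ -1 := by linarith
      have h3 : ¬ s ≤ 0 := by linarith
      simp [not_le.mpr h, h2, h3]

lemma G_eq {γ : ℝ → ℂ} (h : IsUnitSquare γ) {s : ℝ} (hs : s ∈ Icc (-2:ℝ) 2) : γ s = G s :=
  gam_eq h s hs.1 hs.2


lemma RR_integrable (f : ℝ → ℂ) (hf : Continuous f) (i : ℕ) (hi : i < 4) (s : ℝ)
    (hs : s ∈ Ioo (lo i) (lo i + 1)) :
    IntegrableOn (fun σ => f σ * tf σ / (G σ - G s)) (Ioc (-2 : ℝ) 2 \ Ioc (lo i) (lo i + 1)) := by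
  obtain ⟨M, hM⟩ := (isCompact_Icc (a := (-2:ℝ)) (b := 2)).exists_bound_of_continuousOn hf.continuousOn
  have hlo1 := lo_ge i
  have hlo2 := lo_le i hi
  have hm0 : 0 < min (s - lo i) (lo i + 1 - s) / 4 := by
    apply div_pos _ (by norm_num)
    apply lt_min <;> linarith [hs.1, hs.2]
  have hmeas : Measurable (fun σ => f σ * tf σ / (G σ - G s)) := by
    have := tf_meas; have := G_meas; have := hf.measurable
    fun_prop
  have hfin : volume (Ioc (-2 : ℝ) 2 \ Ioc (lo i) (lo i + 1)) ≠ ⊤ := by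
    apply ne_top_of_le_ne_top _ (measure_mono sdiff_subset)
    simp
  have : IsFiniteMeasure (volume.restrict (Ioc (-2 : ℝ) 2 \ Ioc (lo i) (lo i + 1))) :=
    ⟨by rw [Measure.restrict_apply_univ]; exact hfin.lt_top⟩
  apply Integrable.of_bound hmeas.aestronglyMeasurable (M / (min (s - lo i) (lo i + 1 - s) / 4))
  filter_upwards [ae_restrict_mem (measurableSet_Ioc.diff measurableSet_Ioc)] with σ hσ
  rw [norm_div, norm_mul, tf_norm, mul_one]
  have hσ2 : σ ∈ Icc (-2:ℝ) 2 := ⟨hσ.1.1.le, hσ.1.2⟩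
  have h1 := far_bound sq_isUnitSquare i hi s σ hs hσ
  rw [sq_eq hσ2, sq_eq ⟨by linarith [hs.1], by linarith [hs.2]⟩] at h1
  exact div_le_div₀ (le_trans (norm_nonneg _) (hM σ hσ2)) (hM σ hσ2) hm0 h1

noncomputable def TTi (i : ℕ) (f : ℝ → ℂ) (s : ℝ) : ℂ :=
  (1 / ((Real.pi : ℂ) * Complex.I)) * (EE f (lo i) (lo i + 1) s + RR i f s)

/-- pointwise limit of the truncated Cauchy integrals -/
lemma trunc_tendsto {γ : ℝ → ℂ} (h : IsUnitSquare γ) {f : ℝ → ℂ} {K : ℝ≥0} (hf : LipschitzWith K f)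
    (i : ℕ) (hi : i < 4) (s : ℝ) (hs : s ∈ Ioo (lo i) (lo i + 1)) :
    Tendsto (fun δ => truncCauchy γ δ f s) (𝓝[>] 0) (𝓝 (TTi i f s)) := by
  have hlo1 := lo_ge i
  have hlo2 := lo_le i hi
  have hsI : s ∈ Icc (-2:ℝ) 2 := ⟨by linarith [hs.1], by linarith [hs.2]⟩
  have h0 := (tendsto_trunc hf hs.1 hs.2).add_const (RR i f s)
  have h1 := h0.const_mul (1 / ((Real.pi : ℂ) * Complex.I))
  refine h1.congr' ?_
  have e1 : ∀ᶠ δ : ℝ in 𝓝[>] 0, δ < (s - lo i) / 4 :=
    mem_nhdsWithin_of_mem_nhds (Iio_mem_nhds (by linarith [hs.1]))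
  have e2 : ∀ᶠ δ : ℝ in 𝓝[>] 0, δ < (lo i + 1 - s) / 4 :=
    mem_nhdsWithin_of_mem_nhds (Iio_mem_nhds (by linarith [hs.2]))
  filter_upwards [e1, e2, self_mem_nhdsWithin] with δ hδ1 hδ2 hδ0
  have hδ0' : 0 < δ := hδ0
  unfold truncCauchy
  congr 1
  rw [trunc_set h i hi s δ hδ1 hδ2 hs]
  have hA : MeasurableSet (Ioc (lo i) (lo i + 1) ∩ {σ | δ < |σ - s|}) :=
    measurableSet_Ioc.inter (measurableSet_far δ s)
  have hB : MeasurableSet (Ioc (-2:ℝ) 2 \ Ioc (lo i) (lo i + 1)) := measurableSet_Ioc.diff measurableSet_Ioc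
  -- integrand on own edge
  have c1 : EqOn (fun σ => f σ / ((σ - s : ℝ) : ℂ)) (fun σ => f σ * tf σ / (G σ - G s))
      (Ioc (lo i) (lo i + 1) ∩ {σ | δ < |σ - s|}) := by
    intro σ hσ
    simp only
    have hσI : σ ∈ Icc (-2:ℝ) 2 := ⟨by linarith [hσ.1.1], by linarith [hσ.1.2]⟩
    rw [← G_eq h hσI, ← G_eq h hsI, gam_edge h i hi s σ ⟨hs.1.le, hs.2.le⟩ ⟨hσ.1.1.le, hσ.1.2⟩,
      tf_eq i hi σ hσ.1]
    have := tau_ne i
    have h2 : ((σ - s : ℝ) : ℂ) ≠ 0 := by
      intro hcon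
      have h3 : σ - s = 0 := by exact_mod_cast hcon
      have h4 : δ < |σ - s| := hσ.2
      rw [h3, abs_zero] at h4
      linarith
    field_simp
  -- integrability on own edge
  have i1 : IntegrableOn (fun σ => f σ / ((σ - s : ℝ) : ℂ)) (Ioc (lo i) (lo i + 1) ∩ {σ | δ < |σ - s|}) := by
    obtain ⟨M, hM⟩ := (isCompact_Icc (a := (-2:ℝ)) (b := 2)).exists_bound_of_continuousOn hf.continuous.continuousOn
    have : IsFiniteMeasure (volume.restrict (Ioc (lo i) (lo i + 1) ∩ {σ | δ < |σ - s|})) := by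
      refine ⟨?_⟩
      rw [Measure.restrict_apply_univ]
      refine lt_of_le_of_lt (measure_mono inter_subset_left) ?_
      simp
    have := hf.continuous.measurable
    apply Integrable.of_bound (C := M / δ) (by apply Measurable.aestronglyMeasurable; fun_prop)
    filter_upwards [ae_restrict_mem hA] with σ hσ
    have hσI : σ ∈ Icc (-2:ℝ) 2 := ⟨by linarith [hσ.1.1], by linarith [hσ.1.2]⟩
    rw [norm_div, Complex.norm_real, Real.norm_eq_abs]
    exact div_le_div₀ (le_trans (norm_nonneg _) (hM σ hσI)) (hM σ hσI) hδ0' (le_of_lt hσ.2)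
  have i2 : IntegrableOn (fun σ => f σ * tf σ / (G σ - G s)) (Ioc (lo i) (lo i + 1) ∩ {σ | δ < |σ - s|}) :=
    i1.congr_fun c1 hA
  have i3 := RR_integrable f hf.continuous i hi s hs
  have hdisj : Disjoint (Ioc (lo i) (lo i + 1) ∩ {σ | δ < |σ - s|}) (Ioc (-2:ℝ) 2 \ Ioc (lo i) (lo i + 1)) := by
    rw [Set.disjoint_left]
    intro x hx hx'
    exact hx'.2 hx.1
  -- replace γ, deriv γ by G, tf
  have hrep : ∫ σ in (Ioc (lo i) (lo i + 1) ∩ {σ | δ < |σ - s|}) ∪ (Ioc (-2) 2 \ Ioc (lo i) (lo i + 1)),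
      f σ * deriv γ σ / (γ σ - γ s) = ∫ σ in (Ioc (lo i) (lo i + 1) ∩ {σ | δ < |σ - s|}) ∪
        (Ioc (-2) 2 \ Ioc (lo i) (lo i + 1)), f σ * tf σ / (G σ - G s) := by
    apply setIntegral_congr_ae (hA.union hB)
    filter_upwards [Measure.ae_ne volume (-1:ℝ), Measure.ae_ne volume (0:ℝ), Measure.ae_ne volume (1:ℝ),
      Measure.ae_ne volume (2:ℝ)] with σ n1 n2 n3 n4 hσ
    have hσI : σ ∈ Ioc (-2:ℝ) 2 := by
      rcases hσ with hσ | hσ
      · exact ⟨by linarith [hσ.1.1], by linarith [hσ.1.2]⟩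
      · exact hσ.1
    have hσII : σ ∈ Icc (-2:ℝ) 2 := ⟨hσI.1.le, hσI.2⟩
    rw [G_eq h hσII, G_eq h hsI]
    have hd : deriv γ σ = tf σ := by
      have key : ∀ j : ℕ, j < 4 → σ ∈ Ioo (lo j) (lo j + 1) → deriv γ σ = tf σ := by
        intro j hj hσj
        rw [gam_deriv h j hj σ hσj, tf_eq j hj σ ⟨hσj.1, hσj.2.le⟩]
      rcases lt_or_gt_of_ne n1 with m1 | m1
      · exact key 0 (by norm_num) ⟨by unfold lo; push_cast; linarith [hσI.1], by unfold lo; push_cast; linarith⟩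
      rcases lt_or_gt_of_ne n2 with m2 | m2
      · exact key 1 (by norm_num) ⟨by unfold lo; push_cast; linarith, by unfold lo; push_cast; linarith⟩
      rcases lt_or_gt_of_ne n3 with m3 | m3
      · exact key 2 (by norm_num) ⟨by unfold lo; push_cast; linarith, by unfold lo; push_cast; linarith⟩
      have m4 : σ < 2 := lt_of_le_of_ne hσI.2 n4
      exact key 3 (by norm_num) ⟨by unfold lo; push_cast; linarith, by unfold lo; push_cast; linarith⟩
    rw [hd]
  rw [hrep, setIntegral_union hdisj hB i2 i3]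
  congr 1
  exact setIntegral_congr_fun hA c1

end Pool.Agent.Helper49.Sq.Op
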