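import Mathlib
import Pool.Agent.Helper49.Sq.Op

set_option autoImplicit false
open MeasureTheory Filter Topology Set
open scoped NNReal ENNReal
open Pool.Agent.Helper49.Sq.Keps Pool.Agent.Helper49.Sq.Pv Pool.Agent.Helper49.Sq.Hardy
open Pool.Agent.Helper49.Sq.Geom Pool.Agent.Helper49.Sq.Op

open Pool.Agent.Helper49.Sq.Core
open Pool.Agent.Helper49.Sq.Defs (IsUnitSquare mu truncCauchy IsPC Condition3)

namespace Pool.Agent.Helper49.Sq.Op2

lemma sq_add_le (a b : ℝ≥0∞) : (a + b)^2 ≤ 2 * a^2 + 2 * b^2 := by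
  rcases eq_or_ne a ⊤ with h | h
  · subst h; simp
  rcases eq_or_ne b ⊤ with h' | h'
  · subst h'; simp
  lift a to ℝ≥0 using h
  lift b to ℝ≥0 using h'
  norm_cast
  rw [← NNReal.coe_le_coe]
  push_cast
  nlinarith [_root_.sq_nonneg ((a:ℝ) - b)]

lemma EE_meas (f : ℝ → ℂ) (hf : Continuous f) (a b : ℝ) : Measurable (fun s => EE f a b s) := by
  unfold EE
  have hm := hf.measurable
  apply Measurable.add
  · apply StronglyMeasurable.measurable
    apply StronglyMeasurable.integral_prod_right (f := fun s σ => (f σ - f s) / ((σ - s : ℝ) : ℂ))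
    apply Measurable.stronglyMeasurable
    simp only [Function.uncurry_def]
    fun_prop
  · fun_prop

lemma RR_meas (i : ℕ) (f : ℝ → ℂ) (hf : Continuous f) : Measurable (fun s => RR i f s) := by
  unfold RR
  have hm := hf.measurable
  have := G_meas
  have := tf_meas
  apply StronglyMeasurable.measurable
  apply StronglyMeasurable.integral_prod_right (f := fun s σ => f σ * tf σ / (G σ - G s))
  apply Measurable.stronglyMeasurable
  simp only [Function.uncurry_def]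
  fun_prop

lemma TTi_meas (i : ℕ) (f : ℝ → ℂ) (hf : Continuous f) : Measurable (fun s => TTi i f s) := by
  unfold TTi
  have := EE_meas f hf (lo i) (lo i + 1)
  have := RR_meas i f hf
  fun_prop

noncomputable def gf (f : ℝ → ℂ) (σ : ℝ) : ℝ≥0∞ := (Ioc (-2:ℝ) 2).indicator (fun σ => ‖f σ‖ₑ) σ

lemma gf_meas (f : ℝ → ℂ) (hf : Continuous f) : Measurable (gf f) := by
  unfold gf
  exact (hf.measurable.enorm).indicator measurableSet_Ioc

lemma gf_sq (f : ℝ → ℂ) : ∫⁻ σ, (gf f σ)^2 = ∫⁻ σ in Ioc (-2:ℝ) 2, ‖f σ‖ₑ^2 := by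
  rw [← lintegral_indicator measurableSet_Ioc]
  apply lintegral_congr
  intro σ
  unfold gf
  by_cases h : σ ∈ Ioc (-2:ℝ) 2
  · simp [indicator_of_mem, h]
  · simp [indicator_of_notMem, h]

noncomputable def Hp (m m' : ℝ) (f : ℝ → ℂ) (s : ℝ) : ℝ≥0∞ := ∫⁻ σ, ENNReal.ofReal (kap m m' s σ) * gf f σ

lemma Hp_meas (m m' : ℝ) (f : ℝ → ℂ) (hf : Continuous f) : Measurable (Hp m m' f) := by
  unfold Hp
  apply Measurable.lintegral_prod_right (f := fun s σ => ENNReal.ofReal (kap m m' s σ) * gf f σ)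
  simp only [Function.uncurry_def]
  have h1 := gf_meas f hf
  have h2 : Measurable (fun a : ℝ × ℝ => kap m m' a.1 a.2) := meas_kap m m'
  fun_prop

lemma Hp_bound (m m' : ℝ) (f : ℝ → ℂ) (hf : Continuous f) :
    ∫⁻ s, (Hp m m' f s)^2 ≤ ENNReal.ofReal ((2 * Real.pi)^2) * ∫⁻ σ in Ioc (-2:ℝ) 2, ‖f σ‖ₑ^2 := by
  rw [← gf_sq]
  exact hardy m m' (gf f) (gf_meas f hf)

lemma RR_pointwise (i : ℕ) (hi : i < 4) (f : ℝ → ℂ) (hf : Continuous f) (s : ℝ)
    (hs : s ∈ Ioo (lo i) (lo i + 1)) :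
    ‖RR i f s‖ₑ ≤ 4 * (Hp (-1) (-1) f s + (Hp 0 0 f s + (Hp 1 1 f s + (Hp 2 (-2) f s + Hp (-2) 2 f s)))) := by
  have hlo1 := lo_ge i
  have hlo2 := lo_le i hi
  have hmk : ∀ m m' : ℝ, Measurable (fun σ => ENNReal.ofReal (kap m m' s σ) * gf f σ) := by
    intro m m'
    have h1 := gf_meas f hf
    have h2 : Measurable (fun σ => kap m m' s σ) := (meas_kap m m').of_uncurry_left
    fun_prop
  unfold RR
  refine (enorm_integral_le_lintegral_enorm _).trans ?_
  unfold Hp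
  rw [← lintegral_add_left (hmk _ _), ← lintegral_add_left (hmk _ _), ← lintegral_add_left (hmk _ _),
    ← lintegral_add_left (hmk _ _), ← lintegral_const_mul' _ _ (by norm_num)]
  refine le_trans ?_ (setLIntegral_le_lintegral (Ioc (-2 : ℝ) 2 \ Ioc (lo i) (lo i + 1)) _)
  apply setLIntegral_mono' (measurableSet_Ioc.diff measurableSet_Ioc)
  intro σ hσ
  have hg : gf f σ = ‖f σ‖ₑ := by
    unfold gf; rw [indicator_of_mem hσ.1]
  rw [hg]
  have hk := kernel_bound sq_isUnitSquare i hi s σ hs hσ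
  rw [sq_eq ⟨hσ.1.1.le, hσ.1.2⟩, sq_eq ⟨by linarith [hs.1], by linarith [hs.2]⟩] at hk
  rw [div_eq_mul_inv, enorm_mul, enorm_mul]
  have h1 : ‖tf σ‖ₑ = 1 := by rw [← ofReal_norm_eq_enorm, tf_norm]; simp
  rw [h1, mul_one]
  have h2 : ‖(G σ - G s)⁻¹‖ₑ ≤ ENNReal.ofReal (4 * kapsum s σ) := by
    rw [← ofReal_norm_eq_enorm]
    exact ENNReal.ofReal_le_ofReal hk
  refine (mul_le_mul_right h2 _).trans (le_of_eq ?_)
  unfold kapsum
  have n1 := kap_nonneg (-1) (-1) s σ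
  have n2 := kap_nonneg 0 0 s σ
  have n3 := kap_nonneg 1 1 s σ
  have n4 := kap_nonneg 2 (-2) s σ
  have n5 := kap_nonneg (-2) 2 s σ
  rw [ENNReal.ofReal_mul (by norm_num), ENNReal.ofReal_add (by positivity) (by positivity),
    ENNReal.ofReal_add (by positivity) (by positivity), ENNReal.ofReal_add (by positivity) (by positivity),
    ENNReal.ofReal_add (by positivity) (by positivity)]
  have : ENNReal.ofReal 4 = 4 := by norm_num
  rw [this]
  ring

lemma RR_bound (i : ℕ) (hi : i < 4) (f : ℝ → ℂ) (hf : Continuous f) :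
    ∫⁻ s in Ioo (lo i) (lo i + 1), ‖RR i f s‖ₑ^2 ≤
      (16 * 62 * ENNReal.ofReal ((2 * Real.pi)^2)) * ∫⁻ σ in Ioc (-2:ℝ) 2, ‖f σ‖ₑ^2 := by
  have m1 := Hp_meas (-1) (-1) f hf
  have m2 := Hp_meas 0 0 f hf
  have m3 := Hp_meas 1 1 f hf
  have m4 := Hp_meas 2 (-2) f hf
  have m5 := Hp_meas (-2) 2 f hf
  have b1 := Hp_bound (-1) (-1) f hf
  have b2 := Hp_bound 0 0 f hf
  have b3 := Hp_bound 1 1 f hf
  have b4 := Hp_bound 2 (-2) f hf
  have b5 := Hp_bound (-2) 2 f hf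
  set N := ENNReal.ofReal ((2 * Real.pi)^2) * ∫⁻ σ in Ioc (-2:ℝ) 2, ‖f σ‖ₑ^2 with hN
  calc ∫⁻ s in Ioo (lo i) (lo i + 1), ‖RR i f s‖ₑ^2
      ≤ ∫⁻ s in Ioo (lo i) (lo i + 1), 16 * (2 * (Hp (-1) (-1) f s)^2 + (4 * (Hp 0 0 f s)^2 +
        (8 * (Hp 1 1 f s)^2 + (16 * (Hp 2 (-2) f s)^2 + 16 * (Hp (-2) 2 f s)^2)))) := by
        apply setLIntegral_mono' measurableSet_Ioo
        intro s hs
        have h1 := pow_le_pow_left₀ (by positivity) (RR_pointwise i hi f hf s hs) 2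
        refine h1.trans ?_
        rw [mul_pow]
        have h2 : (4:ℝ≥0∞)^2 = 16 := by norm_num
        rw [h2]
        gcongr
        refine (sq_add_le _ _).trans ?_
        gcongr
        refine (mul_le_mul_right (sq_add_le _ _) 2).trans ?_
        rw [mul_add, ← mul_assoc, ← mul_assoc]
        have h3 : (2:ℝ≥0∞) * 2 = 4 := by norm_num
        rw [h3]
        gcongr
        refine (mul_le_mul_right (sq_add_le _ _) 4).trans ?_
        rw [mul_add, ← mul_assoc, ← mul_assoc]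
        have h4 : (4:ℝ≥0∞) * 2 = 8 := by norm_num
        rw [h4]
        gcongr
        refine (mul_le_mul_right (sq_add_le _ _) 8).trans ?_
        rw [mul_add, ← mul_assoc, ← mul_assoc]
        have h5 : (8:ℝ≥0∞) * 2 = 16 := by norm_num
        rw [h5]
    _ ≤ ∫⁻ s, 16 * (2 * (Hp (-1) (-1) f s)^2 + (4 * (Hp 0 0 f s)^2 +
        (8 * (Hp 1 1 f s)^2 + (16 * (Hp 2 (-2) f s)^2 + 16 * (Hp (-2) 2 f s)^2)))) :=
        setLIntegral_le_lintegral _ _
    _ = 16 * (2 * (∫⁻ s, (Hp (-1) (-1) f s)^2) + (4 * (∫⁻ s, (Hp 0 0 f s)^2) +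
        (8 * (∫⁻ s, (Hp 1 1 f s)^2) + (16 * (∫⁻ s, (Hp 2 (-2) f s)^2) + 16 * (∫⁻ s, (Hp (-2) 2 f s)^2))))) := by
        rw [lintegral_const_mul' _ _ (by norm_num), lintegral_add_left (by fun_prop),
          lintegral_add_left (by fun_prop), lintegral_add_left (by fun_prop), lintegral_add_left (by fun_prop),
          lintegral_const_mul' _ _ (by norm_num), lintegral_const_mul' _ _ (by norm_num),
          lintegral_const_mul' _ _ (by norm_num), lintegral_const_mul' _ _ (by norm_num),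
          lintegral_const_mul' _ _ (by norm_num)]
    _ ≤ 16 * (2 * N + (4 * N + (8 * N + (16 * N + 16 * N)))) := by gcongr
    _ ≤ 16 * 62 * N := by
        have : 16 * (2 * N + (4 * N + (8 * N + (16 * N + 16 * N)))) = 16 * 46 * N := by ring
        rw [this]
        gcongr
        norm_num
    _ = _ := by rw [hN]; ring

end Pool.Agent.Helper49.Sq.Op2
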