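import Mathlib
import Pool.Agent.Helper49.Sq.Op2

set_option autoImplicit false
open MeasureTheory Filter Topology Set
open scoped NNReal ENNReal
open Pool.Agent.Helper49.Sq.Keps Pool.Agent.Helper49.Sq.Pv Pool.Agent.Helper49.Sq.Hardy
open Pool.Agent.Helper49.Sq.Geom Pool.Agent.Helper49.Sq.Op Pool.Agent.Helper49.Sq.Op2

open Pool.Agent.Helper49.Sq.Core
open Pool.Agent.Helper49.Sq.Defs (IsUnitSquare mu truncCauchy IsPC Condition3)

namespace Pool.Agent.Helper49.Sq.Op3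

lemma enorm_sq_eq (z : ℂ) : ‖z‖ₑ^2 = ENNReal.ofReal (‖z‖^2) := by
  rw [← ofReal_norm, ENNReal.ofReal_pow (norm_nonneg _)]

lemma EE_bound' {f : ℝ → ℂ} {K : ℝ≥0} (hf : LipschitzWith K f) (i : ℕ) (hi : i < 4) :
    ∫⁻ s in Ioo (lo i) (lo i + 1), ‖EE f (lo i) (lo i + 1) s‖ₑ^2 ≤
      ENNReal.ofReal (Real.pi^2) * ∫⁻ σ in Ioc (-2:ℝ) 2, ‖f σ‖ₑ^2 := by
  have h := EE_bound hf (lo i) (lo i + 1)
  simp_rw [enorm_sq_eq]
  refine h.trans ?_
  rw [ENNReal.ofReal_mul (by positivity)]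
  gcongr
  rw [ofReal_integral_eq_lintegral_ofReal]
  · apply lintegral_mono_set
    intro x hx
    exact ⟨by linarith [hx.1, lo_ge i], by linarith [hx.2, lo_le i hi]⟩
  · have : Continuous (fun y => ‖f y‖^2) := (hf.continuous.norm.pow 2)
    exact (this.integrableOn_Icc (a := lo i) (b := lo i + 1)).mono_set Ioc_subset_Icc_self
  · exact Filter.Eventually.of_forall fun y => by positivity

noncomputable def CT : ℝ≥0∞ := 2 * ENNReal.ofReal (Real.pi^2) + 2 * (16 * 62 * ENNReal.ofReal ((2 * Real.pi)^2))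

lemma TTi_bound {f : ℝ → ℂ} {K : ℝ≥0} (hf : LipschitzWith K f) (i : ℕ) (hi : i < 4) :
    ∫⁻ s in Ioo (lo i) (lo i + 1), ‖TTi i f s‖ₑ^2 ≤ CT * ∫⁻ σ in Ioc (-2:ℝ) 2, ‖f σ‖ₑ^2 := by
  have h1 := EE_bound' hf i hi
  have h2 := RR_bound i hi f hf.continuous
  have m1 := EE_meas f hf.continuous (lo i) (lo i + 1)
  have hc : ‖(1 / ((Real.pi : ℂ) * Complex.I))‖ₑ ≤ 1 := by
    rw [← ofReal_norm, ← ENNReal.ofReal_one]
    apply ENNReal.ofReal_le_ofReal
    rw [norm_div, norm_mul, Complex.norm_I, Complex.norm_real, Real.norm_eq_abs, abs_of_pos Real.pi_pos]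
    simp only [norm_one, mul_one]
    rw [div_le_one Real.pi_pos]
    linarith [Real.pi_gt_three]
  calc ∫⁻ s in Ioo (lo i) (lo i + 1), ‖TTi i f s‖ₑ^2
      ≤ ∫⁻ s in Ioo (lo i) (lo i + 1), (2 * ‖EE f (lo i) (lo i + 1) s‖ₑ^2 + 2 * ‖RR i f s‖ₑ^2) := by
        apply lintegral_mono
        intro s
        simp only
        unfold TTi
        rw [enorm_mul, mul_pow]
        calc _ ≤ 1^2 * ‖EE f (lo i) (lo i + 1) s + RR i f s‖ₑ^2 := by gcongr
          _ = ‖EE f (lo i) (lo i + 1) s + RR i f s‖ₑ^2 := by simp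
          _ ≤ (‖EE f (lo i) (lo i + 1) s‖ₑ + ‖RR i f s‖ₑ)^2 := by gcongr; exact enorm_add_le _ _
          _ ≤ _ := sq_add_le _ _
    _ = 2 * (∫⁻ s in Ioo (lo i) (lo i + 1), ‖EE f (lo i) (lo i + 1) s‖ₑ^2) +
        2 * (∫⁻ s in Ioo (lo i) (lo i + 1), ‖RR i f s‖ₑ^2) := by
        rw [lintegral_add_left (by fun_prop), lintegral_const_mul' _ _ (by norm_num),
          lintegral_const_mul' _ _ (by norm_num)]
    _ ≤ 2 * (ENNReal.ofReal (Real.pi^2) * ∫⁻ σ in Ioc (-2:ℝ) 2, ‖f σ‖ₑ^2) +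
        2 * ((16 * 62 * ENNReal.ofReal ((2 * Real.pi)^2)) * ∫⁻ σ in Ioc (-2:ℝ) 2, ‖f σ‖ₑ^2) := by gcongr
    _ = _ := by unfold CT; ring

noncomputable def TT (f : ℝ → ℂ) (s : ℝ) : ℂ :=
  ∑ i ∈ Finset.range 4, (Ioo (lo i) (lo i + 1)).indicator (TTi i f) s

lemma lo_disj {i j : ℕ} {s : ℝ} (h1 : s ∈ Ioo (lo i) (lo i + 1)) (h2 : s ∈ Ioo (lo j) (lo j + 1)) : i = j := by
  unfold lo at *
  have a := h1.1; have b := h1.2; have c := h2.1; have d := h2.2
  have e1 : (i:ℝ) < j + 1 := by linarith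
  have e2 : (j:ℝ) < i + 1 := by linarith
  have e3 : i < j + 1 := by exact_mod_cast e1
  have e4 : j < i + 1 := by exact_mod_cast e2
  omega

lemma TT_eq (f : ℝ → ℂ) (i : ℕ) (hi : i < 4) (s : ℝ) (hs : s ∈ Ioo (lo i) (lo i + 1)) : TT f s = TTi i f s := by
  unfold TT
  rw [Finset.sum_eq_single i]
  · rw [indicator_of_mem hs]
  · intro j _ hj
    rw [indicator_of_notMem]
    intro h
    exact hj (lo_disj h hs)
  · intro h
    exact absurd (Finset.mem_range.mpr hi) h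

lemma ae_edge : ∀ᵐ s ∂mu, ∃ i, i < 4 ∧ s ∈ Ioo (lo i) (lo i + 1) := by
  rw [ae_restrict_iff' measurableSet_Ioc]
  filter_upwards [Measure.ae_ne volume (-1:ℝ), Measure.ae_ne volume (0:ℝ), Measure.ae_ne volume (1:ℝ),
      Measure.ae_ne volume (2:ℝ)] with σ n1 n2 n3 n4 hσ
  rcases lt_or_gt_of_ne n1 with m1 | m1
  · exact ⟨0, by norm_num, by unfold lo; push_cast; linarith [hσ.1], by unfold lo; push_cast; linarith⟩
  rcases lt_or_gt_of_ne n2 with m2 | m2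
  · exact ⟨1, by norm_num, by unfold lo; push_cast; linarith, by unfold lo; push_cast; linarith⟩
  rcases lt_or_gt_of_ne n3 with m3 | m3
  · exact ⟨2, by norm_num, by unfold lo; push_cast; linarith, by unfold lo; push_cast; linarith⟩
  have m4 : σ < 2 := lt_of_le_of_ne hσ.2 n4
  exact ⟨3, by norm_num, by unfold lo; push_cast; linarith, by unfold lo; push_cast; linarith⟩

lemma TT_meas (f : ℝ → ℂ) (hf : Continuous f) : Measurable (TT f) := by
  unfold TT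
  apply Finset.measurable_fun_sum
  intro i _
  exact (TTi_meas i f hf).indicator measurableSet_Ioo

lemma TT_bound {f : ℝ → ℂ} {K : ℝ≥0} (hf : LipschitzWith K f) :
    ∫⁻ s, ‖TT f s‖ₑ^2 ∂mu ≤ (4 * CT) * ∫⁻ σ, ‖f σ‖ₑ^2 ∂mu := by
  calc ∫⁻ s, ‖TT f s‖ₑ^2 ∂mu
      ≤ ∫⁻ s, ∑ i ∈ Finset.range 4, (Ioo (lo i) (lo i + 1)).indicator (fun s => ‖TTi i f s‖ₑ^2) s ∂mu := by
        apply lintegral_mono_ae
        filter_upwards [ae_edge] with s hs
        obtain ⟨i, hi, hsi⟩ := hs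
        rw [TT_eq f i hi s hsi]
        have h1 : ‖TTi i f s‖ₑ^2 = (Ioo (lo i) (lo i + 1)).indicator (fun s => ‖TTi i f s‖ₑ^2) s := by
          rw [indicator_of_mem hsi]
        rw [h1]
        exact Finset.single_le_sum (f := fun i => (Ioo (lo i) (lo i + 1)).indicator (fun s => ‖TTi i f s‖ₑ^2) s)
          (fun j _ => zero_le) (Finset.mem_range.mpr hi)
    _ ≤ ∫⁻ s, ∑ i ∈ Finset.range 4, (Ioo (lo i) (lo i + 1)).indicator (fun s => ‖TTi i f s‖ₑ^2) s :=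
        setLIntegral_le_lintegral _ _
    _ = ∑ i ∈ Finset.range 4, ∫⁻ s in Ioo (lo i) (lo i + 1), ‖TTi i f s‖ₑ^2 := by
        rw [lintegral_finsetSum]
        · apply Finset.sum_congr rfl
          intro i _
          rw [lintegral_indicator measurableSet_Ioo]
        · intro i _
          exact (((TTi_meas i f hf.continuous).enorm).pow_const 2).indicator measurableSet_Ioo
    _ ≤ ∑ i ∈ Finset.range 4, CT * ∫⁻ σ in Ioc (-2:ℝ) 2, ‖f σ‖ₑ^2 := by
        apply Finset.sum_le_sum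
        intro i hi
        exact TTi_bound hf i (Finset.mem_range.mp hi)
    _ = _ := by
        rw [Finset.sum_const, Finset.card_range]
        simp only [nsmul_eq_mul]
        push_cast
        ring

/-- Lipschitz functions on the closed curve -/
noncomputable def V : Submodule ℂ (ℝ → ℂ) where
  carrier := {f | (∃ K, LipschitzWith K f) ∧ f (-2) = f 2}
  add_mem' := by
    rintro f g ⟨⟨K, hK⟩, h1⟩ ⟨⟨K', hK'⟩, h2⟩
    exact ⟨⟨_, hK.add hK'⟩, by simp [h1, h2]⟩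
  zero_mem' := ⟨⟨0, LipschitzWith.const 0⟩, rfl⟩
  smul_mem' := by
    rintro c f ⟨⟨K, hK⟩, h1⟩
    refine ⟨⟨‖c‖₊ * K, ?_⟩, by simp [h1]⟩
    apply LipschitzWith.of_dist_le_mul
    intro x y
    simp only [Pi.smul_apply, smul_eq_mul]
    rw [dist_eq_norm, ← mul_sub, norm_mul]
    have := hK.dist_le_mul x y
    rw [dist_eq_norm] at this
    push_cast
    rw [mul_assoc]
    gcongr

lemma V_memLp (f : ℝ → ℂ) (hf : Continuous f) : MemLp f 2 mu := by
  obtain ⟨M, hM⟩ := (isCompact_Icc (a := (-2:ℝ)) (b := 2)).exists_bound_of_continuousOn hf.continuousOn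
  apply MemLp.of_bound hf.aestronglyMeasurable M
  filter_upwards [ae_restrict_mem measurableSet_Ioc] with x hx
  exact hM x ⟨hx.1.le, hx.2⟩

lemma CT_ne : CT ≠ ⊤ := by
  unfold CT
  finiteness

lemma lint_lt {f : ℝ → ℂ} (hf : MemLp f 2 mu) : ∫⁻ σ, ‖f σ‖ₑ^2 ∂mu < ⊤ := by
  have h := hf.2
  rw [eLpNorm_lt_top_iff_lintegral_rpow_enorm_lt_top (by norm_num) (by norm_num)] at h
  simpa using h

lemma TT_memLp {f : ℝ → ℂ} {K : ℝ≥0} (hf : LipschitzWith K f) : MemLp (TT f) 2 mu := by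
  refine ⟨(TT_meas f hf.continuous).aestronglyMeasurable, ?_⟩
  rw [eLpNorm_lt_top_iff_lintegral_rpow_enorm_lt_top (by norm_num) (by norm_num)]
  have h1 := TT_bound hf
  have h2 : (4 * CT) * ∫⁻ σ, ‖f σ‖ₑ^2 ∂mu < ⊤ := by
    apply ENNReal.mul_lt_top
    · exact ENNReal.mul_lt_top (by norm_num) CT_ne.lt_top
    · exact lint_lt (V_memLp f hf.continuous)
  have := h1.trans_lt h2
  simpa using this

lemma norm_sq_toLp {f : ℝ → ℂ} (hf : MemLp f 2 mu) :
    ENNReal.ofReal (‖hf.toLp f‖^2) = ∫⁻ σ, ‖f σ‖ₑ^2 ∂mu := by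
  rw [Lp.norm_toLp, ENNReal.ofReal_pow ENNReal.toReal_nonneg, ENNReal.ofReal_toReal hf.2.ne,
    eLpNorm_eq_lintegral_rpow_enorm_toReal (by norm_num) (by norm_num)]
  rw [← ENNReal.rpow_natCast, ← ENNReal.rpow_mul]
  simp

end Pool.Agent.Helper49.Sq.Op3
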