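import Mathlib
import Pool.Agent.Helper49.Sq.Op3

set_option autoImplicit false
open MeasureTheory Filter Topology Set
open scoped NNReal ENNReal
open Pool.Agent.Helper49.Sq.Keps Pool.Agent.Helper49.Sq.Pv Pool.Agent.Helper49.Sq.Hardy
open Pool.Agent.Helper49.Sq.Geom Pool.Agent.Helper49.Sq.Op Pool.Agent.Helper49.Sq.Op2
open Pool.Agent.Helper49.Sq.Op3

open Pool.Agent.Helper49.Sq.Core
open Pool.Agent.Helper49.Sq.Defs (IsUnitSquare mu truncCauchy IsPC Condition3)

namespace Pool.Agent.Helper49.Sq.Op4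

lemma EE_add {f g : ℝ → ℂ} {K K' : ℝ≥0} (hf : LipschitzWith K f) (hg : LipschitzWith K' g) (a b s : ℝ) :
    EE (f + g) a b s = EE f a b s + EE g a b s := by
  unfold EE
  have h1 := quot_int hf s a b
  have h2 := quot_int hg s a b
  have : (fun σ => ((f + g) σ - (f + g) s) / ((σ - s : ℝ) : ℂ)) =
      fun σ => (f σ - f s) / ((σ - s : ℝ) : ℂ) + (g σ - g s) / ((σ - s : ℝ) : ℂ) := by
    funext σ
    simp only [Pi.add_apply]
    ring
  rw [this, integral_add h1 h2]
  simp only [Pi.add_apply]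
  ring

lemma EE_smul (c : ℂ) (f : ℝ → ℂ) (a b s : ℝ) :
    EE (c • f) a b s = c * EE f a b s := by
  unfold EE
  have : (fun σ => ((c • f) σ - (c • f) s) / ((σ - s : ℝ) : ℂ)) =
      fun σ => c * ((f σ - f s) / ((σ - s : ℝ) : ℂ)) := by
    funext σ
    simp only [Pi.smul_apply, smul_eq_mul]
    ring
  rw [this, integral_const_mul]
  simp only [Pi.smul_apply, smul_eq_mul]
  ring

lemma RR_add {f g : ℝ → ℂ} (hf : Continuous f) (hg : Continuous g) (i : ℕ) (hi : i < 4) (s : ℝ)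
    (hs : s ∈ Ioo (lo i) (lo i + 1)) :
    RR i (f + g) s = RR i f s + RR i g s := by
  unfold RR
  have h1 := RR_integrable f hf i hi s hs
  have h2 := RR_integrable g hg i hi s hs
  rw [← integral_add h1 h2]
  congr 1
  funext σ
  simp only [Pi.add_apply]
  ring

lemma RR_smul (c : ℂ) (f : ℝ → ℂ) (i : ℕ) (s : ℝ) :
    RR i (c • f) s = c * RR i f s := by
  unfold RR
  rw [← integral_const_mul]
  congr 1
  funext σ
  simp only [Pi.smul_apply, smul_eq_mul]
  ring

lemma TT_add {f g : ℝ → ℂ} {K K' : ℝ≥0} (hf : LipschitzWith K f) (hg : LipschitzWith K' g) :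
    TT (f + g) =ᵐ[mu] TT f + TT g := by
  filter_upwards [ae_edge] with s hs
  obtain ⟨i, hi, hsi⟩ := hs
  simp only [Pi.add_apply]
  rw [TT_eq _ i hi s hsi, TT_eq _ i hi s hsi, TT_eq _ i hi s hsi]
  unfold TTi
  rw [EE_add hf hg, RR_add hf.continuous hg.continuous i hi s hsi]
  ring

lemma TT_smul (c : ℂ) (f : ℝ → ℂ) : TT (c • f) =ᵐ[mu] c • TT f := by
  filter_upwards [ae_edge] with s hs
  obtain ⟨i, hi, hsi⟩ := hs
  simp only [Pi.smul_apply, smul_eq_mul]
  rw [TT_eq _ i hi s hsi, TT_eq _ i hi s hsi]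
  unfold TTi
  rw [EE_smul, RR_smul]
  ring

noncomputable def embV : V →ₗ[ℂ] L2 where
  toFun f := (V_memLp f.1 f.2.1.choose_spec.continuous).toLp f.1
  map_add' f g := by
    rw [← MemLp.toLp_add]
    rfl
  map_smul' c f := by
    rw [RingHom.id_apply, ← MemLp.toLp_const_smul]
    rfl

noncomputable def opV : V →ₗ[ℂ] L2 where
  toFun f := (TT_memLp f.2.1.choose_spec).toLp (TT f.1)
  map_add' f g := by
    rw [← MemLp.toLp_add]
    apply MemLp.toLp_congr
    exact TT_add f.2.1.choose_spec g.2.1.choose_spec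
  map_smul' c f := by
    rw [RingHom.id_apply, ← MemLp.toLp_const_smul]
    apply MemLp.toLp_congr
    exact TT_smul c f.1

lemma embV_coe (f : V) : (embV f : ℝ → ℂ) =ᵐ[mu] f.1 :=
  MemLp.coeFn_toLp (V_memLp f.1 f.2.1.choose_spec.continuous)

lemma opV_coe (f : V) : (opV f : ℝ → ℂ) =ᵐ[mu] TT f.1 :=
  MemLp.coeFn_toLp (TT_memLp f.2.1.choose_spec)

lemma opV_bound : ∃ C : ℝ, ∀ f : V, ‖opV f‖ ≤ C * ‖embV f‖ := by
  have hC : (4 * CT) ≠ ⊤ := by
    have := CT_ne
    finiteness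
  refine ⟨Real.sqrt (4 * CT).toReal, fun f => ?_⟩
  have h1 := TT_bound f.2.1.choose_spec
  have h2 : ENNReal.ofReal (‖opV f‖^2) = ∫⁻ σ, ‖TT f.1 σ‖ₑ^2 ∂mu :=
    norm_sq_toLp (TT_memLp f.2.1.choose_spec)
  have h3 : ENNReal.ofReal (‖embV f‖^2) = ∫⁻ σ, ‖f.1 σ‖ₑ^2 ∂mu :=
    norm_sq_toLp (V_memLp f.1 f.2.1.choose_spec.continuous)
  rw [← h2, ← h3] at h1
  have h4 : (4 * CT) = ENNReal.ofReal (4 * CT).toReal := (ENNReal.ofReal_toReal hC).symm
  rw [h4, ← ENNReal.ofReal_mul ENNReal.toReal_nonneg] at h1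
  have h5 := (ENNReal.ofReal_le_ofReal_iff (by positivity)).mp h1
  have h6 := Real.sqrt_le_sqrt h5
  rw [Real.sqrt_sq (norm_nonneg _), Real.sqrt_mul ENNReal.toReal_nonneg, Real.sqrt_sq (norm_nonneg _)] at h6
  exact h6

/-- exponentials -/
noncomputable def ex (n : ℤ) (x : ℝ) : ℂ := fourier n (x : AddCircle (4:ℝ))

lemma ex_mem (n : ℤ) : ex n ∈ V := by
  refine ⟨⟨Real.toNNReal (2 * Real.pi * |(n:ℝ)| / 4), ?_⟩, ?_⟩
  · apply lipschitzWith_of_nnnorm_deriv_le
    · intro x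
      exact (hasDerivAt_fourier 4 n x).differentiableAt
    · intro x
      have := (hasDerivAt_fourier 4 n x).deriv
      unfold ex
      rw [this, ← NNReal.coe_le_coe, Real.coe_toNNReal _ (by positivity), coe_nnnorm]
      have h1 : ‖(fourier n (x : AddCircle (4:ℝ)) : ℂ)‖ = 1 := by
        rw [fourier_apply]; exact Circle.norm_coe _
      rw [norm_mul, h1, norm_div, norm_mul, norm_mul, norm_mul]
      simp
      rw [abs_of_pos Real.pi_pos]
  · unfold ex
    have h1 := AddCircle.coe_add_period (4:ℝ) (-2)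
    have h2 : (-2 + 4 : ℝ) = 2 := by norm_num
    rw [h2] at h1
    rw [h1]

instance : Fact ((0:ℝ) < 4) := ⟨by norm_num⟩

lemma dense_embV : DenseRange embV := by
  have htop : (LinearMap.range embV).topologicalClosure = ⊤ := by
    rw [Submodule.topologicalClosure_eq_top_iff, Submodule.eq_bot_iff]
    intro g hg
    rw [Submodule.mem_orthogonal] at hg
    have h1 : ∀ n : ℤ, fourierCoeffOn (show (-2:ℝ) < 2 by norm_num) (g : ℝ → ℂ) n = 0 := by
      intro n
      have h2 := hg (embV ⟨ex n, ex_mem n⟩) ⟨_, rfl⟩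
      rw [L2.inner_def] at h2
      rw [fourierCoeffOn_eq_integral, intervalIntegral.integral_of_le (by norm_num)]
      have h3 : ∫ x in Ioc (-2:ℝ) 2, (fourier (-n) (x : AddCircle ((2:ℝ) - (-2)))) • (g : ℝ → ℂ) x =
          ∫ a, inner ℂ ((embV ⟨ex n, ex_mem n⟩ : ℝ → ℂ) a) ((g : ℝ → ℂ) a) ∂mu := by
        apply integral_congr_ae
        have h4 : (embV ⟨ex n, ex_mem n⟩ : ℝ → ℂ) =ᵐ[mu] ex n := embV_coe _
        filter_upwards [h4] with x hx
        rw [hx, RCLike.inner_apply, smul_eq_mul, mul_comm]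
        congr 1
        unfold ex
        rw [fourier_coe_apply, fourier_coe_apply, ← Complex.exp_conj]
        congr 1
        have c2 : (starRingEnd ℂ) 2 = 2 := map_ofNat _ 2
        have c4 : (starRingEnd ℂ) 4 = 4 := map_ofNat _ 4
        simp
        norm_num [c2, c4]
      rw [h3, h2]
      simp
    have hmem : MemLp (g : ℝ → ℂ) 2 (volume.restrict (Ioc (-2:ℝ) 2)) := Lp.memLp g
    have h5 := hasSum_sq_fourierCoeffOn (show (-2:ℝ) < 2 by norm_num) hmem
    simp_rw [h1] at h5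
    simp only [norm_zero, ne_eq, OfNat.ofNat_ne_zero, not_false_eq_true, zero_pow] at h5
    have h6 := h5.unique hasSum_zero
    rw [intervalIntegral.integral_of_le (by norm_num)] at h6
    have h7 : ∫ x in Ioc (-2:ℝ) 2, ‖(g : ℝ → ℂ) x‖^2 = 0 := by
      have h8 : ((2:ℝ) - (-2))⁻¹ ≠ 0 := by norm_num
      rcases smul_eq_zero.mp h6 with h | h
      · exact absurd h h8
      · exact h
    have h9 : ‖g‖^2 = 0 := by
      have h10 : ENNReal.ofReal (‖g‖^2) = ∫⁻ σ, ‖(g : ℝ → ℂ) σ‖ₑ^2 ∂mu := by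
        have := norm_sq_toLp (Lp.memLp g)
        rwa [Lp.toLp_coeFn] at this
      have h11 : ∫⁻ σ, ‖(g : ℝ → ℂ) σ‖ₑ^2 ∂mu = ENNReal.ofReal (∫ x in Ioc (-2:ℝ) 2, ‖(g : ℝ → ℂ) x‖^2) := by
        rw [ofReal_integral_eq_lintegral_ofReal ((memLp_two_iff_integrable_sq_norm hmem.1).mp hmem)
          (Filter.Eventually.of_forall fun y => sq_nonneg _)]
        apply lintegral_congr
        intro x
        exact enorm_sq_eq _
      rw [h11, h7, ENNReal.ofReal_zero, ENNReal.ofReal_eq_zero] at h10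
      exact le_antisymm h10 (by positivity)
    have h12 : ‖g‖ = 0 := by
      exact pow_eq_zero_iff (by norm_num) |>.mp h9
    exact norm_eq_zero.mp h12
  intro x
  have : x ∈ (LinearMap.range embV).topologicalClosure := by rw [htop]; trivial
  rw [← SetLike.mem_coe, Submodule.topologicalClosure_coe, LinearMap.coe_range] at this
  exact this

/-- the Cauchy singular integral operator on the square exists as a bounded operator -/
theorem exists_cauchyOp {γ : ℝ → ℂ} (h : IsUnitSquare γ) : ∃ S : L2 →L[ℂ] L2, IsCauchyOp γ S := by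
  refine ⟨opV.extendOfNorm embV, ?_⟩
  rintro f ⟨K, hK⟩ hf2 F hF
  have hfV : f ∈ V := ⟨⟨K, hK⟩, hf2⟩
  have h1 : F = embV ⟨f, hfV⟩ := by
    apply Lp.ext
    refine hF.trans ?_
    exact (embV_coe ⟨f, hfV⟩).symm
  rw [h1, LinearMap.extendOfNorm_eq dense_embV opV_bound]
  have h2 : (opV ⟨f, hfV⟩ : ℝ → ℂ) =ᵐ[mu] TT f := opV_coe _
  filter_upwards [h2, ae_edge] with s hs hs2
  obtain ⟨i, hi, hsi⟩ := hs2
  rw [hs, TT_eq f i hi s hsi]
  exact trunc_tendsto h hK i hi s hsi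

end Pool.Agent.Helper49.Sq.Op4
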