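import Mathlib
import Pool.Agent.Helper49.Sq.Op4

set_option autoImplicit false
open MeasureTheory Filter Topology Set
open scoped NNReal ENNReal
open Pool.Agent.Helper49.Sq.Keps Pool.Agent.Helper49.Sq.Pv Pool.Agent.Helper49.Sq.Hardy
open Pool.Agent.Helper49.Sq.Geom Pool.Agent.Helper49.Sq.Op Pool.Agent.Helper49.Sq.Op2
open Pool.Agent.Helper49.Sq.Op3 Pool.Agent.Helper49.Sq.Op4

open Pool.Agent.Helper49.Sq.Core
open Pool.Agent.Helper49.Sq.Defs (IsUnitSquare mu truncCauchy IsPC Condition3)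

namespace Pool.Agent.Helper49.Sq.Test

lemma keps_split {f : ℝ → ℂ} {K : ℝ≥0} (hf : LipschitzWith K f) {a b : ℝ} (hab : a ≤ b) (s : ℝ) {ε : ℝ} (hε : 0 < ε) :
    ∫ σ in Ioc a b, (k ε (σ - s) : ℂ) * f σ =
      (∫ σ in Ioc a b, (k ε (σ - s) : ℂ) * (f σ - f s)) +
      (((Real.log ((b-s)^2+ε^2) - Real.log ((a-s)^2+ε^2)) / 2 : ℝ) : ℂ) * f s := by
  have hk1 : Integrable (fun σ => (k ε (σ - s) : ℂ)) (volume.restrict (Ioc a b)) := by
    have h1 : Continuous (fun σ => (k ε (σ - s) : ℂ)) :=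
      Complex.continuous_ofReal.comp ((k_cont hε).comp (by fun_prop))
    exact (h1.integrableOn_Icc (a := a) (b := b)).mono_set Ioc_subset_Icc_self
  rw [← int_k hε a b s, intervalIntegral.integral_of_le hab, ← integral_complex_ofReal]
  rw [← integral_mul_const, ← integral_add]
  · congr 1
    funext σ
    ring
  · have h1 : Continuous (fun σ => (k ε (σ - s) : ℂ) * (f σ - f s)) :=
      (Complex.continuous_ofReal.comp ((k_cont hε).comp (by fun_prop))).mul (hf.continuous.sub continuous_const)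
    exact (h1.integrableOn_Icc (a := a) (b := b)).mono_set Ioc_subset_Icc_self
  · exact hk1.mul_const _

lemma abs_log_le (u : ℝ) (hu : 0 < u) : |Real.log u| ≤ u + 1 / u := by
  rw [abs_le]
  have h1 := Real.log_le_self hu.le
  have h2 := Real.log_le_self (show 0 ≤ 1/u by positivity)
  rw [one_div, Real.log_inv] at h2
  have h3 : 0 < 1 / u := by positivity
  rw [one_div] at h3 ⊢
  constructor <;> linarith

/-- bound for the regularised transform at points away from the ends -/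
lemma keps_norm_le {f : ℝ → ℂ} {K : ℝ≥0} (hf : LipschitzWith K f) {a b c s : ℝ} (hc : 0 < c)
    (h1 : a + c ≤ s) (h2 : s ≤ b - c) {ε : ℝ} (hε : 0 < ε) (hε1 : ε ≤ 1) :
    ‖∫ σ in Ioc a b, (k ε (σ - s) : ℂ) * f σ‖ ≤ K * (b - a) + (((b-a)^2 + 1) + 1 / c^2) * ‖f s‖ := by
  have hab : a ≤ b := by linarith
  rw [keps_split hf hab s hε]
  refine (norm_add_le _ _).trans ?_
  apply add_le_add
  · have h3 : ∀ σ ∈ Ioc a b, ‖(k ε (σ - s) : ℂ) * (f σ - f s)‖ ≤ K := by
      intro σ _
      rw [norm_mul, Complex.norm_real, Real.norm_eq_abs]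
      have h2 : ‖f σ - f s‖ ≤ K * |σ - s| := by
        have := hf.dist_le_mul σ s
        rwa [dist_eq_norm, Real.dist_eq] at this
      unfold k
      rw [abs_div]
      have hp : 0 < (σ - s)^2 + ε^2 := by positivity
      rw [abs_of_pos hp, div_mul_eq_mul_div, div_le_iff₀ hp]
      have h3 := sq_abs (σ - s)
      have h4 : 0 ≤ (K:ℝ) := K.2
      calc |σ - s| * ‖f σ - f s‖ ≤ |σ - s| * (K * |σ - s|) := by gcongr
        _ = K * (σ - s)^2 := by rw [← h3]; ring
        _ ≤ K * ((σ - s)^2 + ε^2) := by gcongr; nlinarith [sq_nonneg ε]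
    have h4 := norm_setIntegral_le_of_norm_le_const (μ := volume) (s := Ioc a b) (by simp) h3
    refine h4.trans (le_of_eq ?_)
    simp [Measure.real, hab]
  · rw [norm_mul, Complex.norm_real, Real.norm_eq_abs]
    apply mul_le_mul_of_nonneg_right _ (norm_nonneg _)
    have hc2 : 0 < c^2 := by positivity
    have hε2 : ε^2 ≤ 1 := by nlinarith
    have u1 : c^2 ≤ (b-s)^2+ε^2 := by nlinarith [sq_nonneg ε]
    have u2 : (b-s)^2+ε^2 ≤ (b-a)^2+1 := by nlinarith
    have v1 : c^2 ≤ (a-s)^2+ε^2 := by nlinarith [sq_nonneg ε]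
    have v2 : (a-s)^2+ε^2 ≤ (b-a)^2+1 := by nlinarith
    have w1 := abs_log_le ((b-s)^2+ε^2) (by positivity)
    have w2 := abs_log_le ((a-s)^2+ε^2) (by positivity)
    have x1 : 1 / ((b-s)^2+ε^2) ≤ 1 / c^2 := one_div_le_one_div_of_le hc2 u1
    have x2 : 1 / ((a-s)^2+ε^2) ≤ 1 / c^2 := one_div_le_one_div_of_le hc2 v1
    rw [abs_div, abs_of_pos (show (0:ℝ) < 2 by norm_num), div_le_iff₀ (by norm_num)]
    have := abs_sub (Real.log ((b-s)^2+ε^2)) (Real.log ((a-s)^2+ε^2))
    linarith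

/-- antisymmetry for the regularised kernel -/
lemma keps_antisymm (f : ℝ → ℝ) (hf : Continuous f) (a b : ℝ) {ε : ℝ} (hε : 0 < ε) :
    ∫ s in Ioc a b, (f s : ℂ) * ∫ σ in Ioc a b, (k ε (σ - s) : ℂ) * (f σ : ℂ) = 0 := by
  have hkc := k_cont hε
  have hc : Continuous (fun p : ℝ × ℝ => (f p.1 : ℂ) * ((k ε (p.2 - p.1) : ℂ) * (f p.2 : ℂ))) := by
    have h1 : Continuous (fun p : ℝ × ℝ => k ε (p.2 - p.1)) := hkc.comp (by fun_prop)
    fun_prop
  have hint : Integrable (Function.uncurry fun s σ => (f s : ℂ) * ((k ε (σ - s) : ℂ) * (f σ : ℂ)))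
      ((volume.restrict (Ioc a b)).prod (volume.restrict (Ioc a b))) := by
    rw [Measure.prod_restrict]
    have h2 : IntegrableOn (fun p : ℝ × ℝ => (f p.1 : ℂ) * ((k ε (p.2 - p.1) : ℂ) * (f p.2 : ℂ)))
        (Icc a b ×ˢ Icc a b) (volume.prod volume) :=
      hc.continuousOn.integrableOn_compact (isCompact_Icc.prod isCompact_Icc)
    exact h2.mono_set (prod_mono Ioc_subset_Icc_self Ioc_subset_Icc_self)
  have h1 : ∫ s in Ioc a b, (f s : ℂ) * ∫ σ in Ioc a b, (k ε (σ - s) : ℂ) * (f σ : ℂ) =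
      ∫ s in Ioc a b, ∫ σ in Ioc a b, (f s : ℂ) * ((k ε (σ - s) : ℂ) * (f σ : ℂ)) := by
    congr 1
    funext s
    rw [integral_const_mul]
  rw [h1]
  have h2 := integral_integral_swap hint
  have h3 : ∫ s in Ioc a b, ∫ σ in Ioc a b, (f σ : ℂ) * ((k ε (s - σ) : ℂ) * (f s : ℂ)) =
      - ∫ s in Ioc a b, ∫ σ in Ioc a b, (f s : ℂ) * ((k ε (σ - s) : ℂ) * (f σ : ℂ)) := by
    rw [← integral_neg]
    congr 1
    funext s
    rw [← integral_neg]
    congr 1
    funext σ
    have : k ε (s - σ) = - k ε (σ - s) := by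
      rw [← k_neg]; congr 1; ring
    rw [this]
    push_cast
    ring
  rw [h3] at h2
  have h4 : ∀ z : ℂ, z = -z → z = 0 := by
    intro z hz
    have : z + z = 0 := by nth_rewrite 2 [hz]; ring
    have h5 : (2:ℂ) * z = 0 := by rw [two_mul]; exact this
    rcases mul_eq_zero.mp h5 with h | h
    · norm_num at h
    · exact h
  exact h4 _ h2

/-- the diagonal pairing vanishes -/
lemma EE_antisymm (f : ℝ → ℝ) (K : ℝ≥0) (hf : LipschitzWith K (fun x => (f x : ℂ))) (hfc : Continuous f) (a b c : ℝ) (hc : 0 < c)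
    (hab : a < b) (hsupp : ∀ s, f s ≠ 0 → a + c ≤ s ∧ s ≤ b - c) :
    ∫ s in Ioc a b, (f s : ℂ) * EE (fun x => (f x : ℂ)) a b s = 0 := by
  let e : ℕ → ℝ := fun n => 1 / ((n:ℝ) + 1)
  have he : ∀ n, 0 < e n := fun n => by simp only [e]; positivity
  have he1 : ∀ n, e n ≤ 1 := fun n => by
    simp only [e]
    rw [div_le_one (by positivity)]
    linarith [Nat.cast_nonneg (α := ℝ) n]
  have he0 : Tendsto e atTop (𝓝 0) := tendsto_one_div_add_atTop_nhds_zero_nat
  obtain ⟨M, hM⟩ := (isCompact_Icc (a := a) (b := b)).exists_bound_of_continuousOn hfc.continuousOn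
  have hlim : Tendsto (fun n => ∫ s in Ioc a b, (f s : ℂ) * ∫ σ in Ioc a b, (k (e n) (σ - s) : ℂ) * (f σ : ℂ)) atTop
      (𝓝 (∫ s in Ioc a b, (f s : ℂ) * EE (fun x => (f x : ℂ)) a b s)) := by
    apply tendsto_integral_of_dominated_convergence
      (fun _ => M * (K * (b - a) + (((b-a)^2 + 1) + 1 / c^2) * M))
    · intro n
      apply Measurable.aestronglyMeasurable
      apply Measurable.mul (by fun_prop)
      apply StronglyMeasurable.measurable
      apply StronglyMeasurable.integral_prod_right (f := fun s σ => (k (e n) (σ - s) : ℂ) * (f σ : ℂ))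
      apply Measurable.stronglyMeasurable
      have := (k_cont (he n)).measurable
      simp only [Function.uncurry_def]
      fun_prop
    · exact integrable_const _
    · intro n
      filter_upwards [ae_restrict_mem measurableSet_Ioc] with s hs
      have hM1 := hM s ⟨hs.1.le, hs.2⟩
      have hM0 : 0 ≤ M := le_trans (norm_nonneg _) hM1
      rw [norm_mul]
      by_cases h0 : f s = 0
      · rw [h0]
        simp only [Complex.ofReal_zero, norm_zero, zero_mul]
        have : 0 ≤ b - a := by linarith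
        positivity
      · obtain ⟨h1, h2⟩ := hsupp s h0
        have h3 := keps_norm_le hf hc h1 h2 (he n) (he1 n)
        have h4 : ‖(f s : ℂ)‖ ≤ M := by rw [Complex.norm_real]; exact hM1
        calc _ ≤ M * (K * (b - a) + (((b-a)^2 + 1) + 1 / c^2) * ‖(f s : ℂ)‖) := by gcongr
          _ ≤ _ := by gcongr
    · have hae : ∀ᵐ s ∂(volume.restrict (Ioc a b)), s ≠ b := by
        apply ae_restrict_of_ae
        exact Measure.ae_ne volume b
      filter_upwards [ae_restrict_mem measurableSet_Ioc, hae] with s hs hsb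
      apply Tendsto.const_mul
      exact tendsto_keps hf hs.1 (lt_of_le_of_ne hs.2 hsb) e he he0
  refine tendsto_nhds_unique hlim ?_
  have : ∀ n, ∫ s in Ioc a b, (f s : ℂ) * ∫ σ in Ioc a b, (k (e n) (σ - s) : ℂ) * (f σ : ℂ) = 0 :=
    fun n => keps_antisymm f hfc a b (he n)
  simp_rw [this]
  exact tendsto_const_nhds

end Pool.Agent.Helper49.Sq.Test
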