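import Mathlib
import Pool.Agent.Helper49.Sq.Test

set_option autoImplicit false
open MeasureTheory Filter Topology Set
open scoped NNReal ENNReal
open Pool.Agent.Helper49.Sq.Keps Pool.Agent.Helper49.Sq.Pv Pool.Agent.Helper49.Sq.Hardy
open Pool.Agent.Helper49.Sq.Geom Pool.Agent.Helper49.Sq.Op Pool.Agent.Helper49.Sq.Op2
open Pool.Agent.Helper49.Sq.Op3 Pool.Agent.Helper49.Sq.Op4 Pool.Agent.Helper49.Sq.Test

open Pool.Agent.Helper49.Sq.Core
open Pool.Agent.Helper49.Sq.Defs (IsUnitSquare mu truncCauchy IsPC Condition3)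

namespace Pool.Agent.Helper49.Sq.Test2

lemma S_eq_TT {γ : ℝ → ℂ} (h : IsUnitSquare γ) {S : L2 →L[ℂ] L2} (hS : IsCauchyOp γ S) (f : ℝ → ℂ) (K : ℝ≥0)
    (hK : LipschitzWith K f) (hf2 : f (-2) = f 2) (F : L2) (hF : (F : ℝ → ℂ) =ᵐ[mu] f) :
    (S F : ℝ → ℂ) =ᵐ[mu] TT f := by
  filter_upwards [hS f ⟨K, hK⟩ hf2 F hF, ae_edge] with s hs hs2
  obtain ⟨i, hi, hsi⟩ := hs2
  rw [TT_eq f i hi s hsi]
  exact tendsto_nhds_unique hs (trunc_tendsto h hK i hi s hsi)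

/-- profile functions -/
structure Prof (u : ℝ → ℝ) : Prop where
  lip : ∃ K, LipschitzWith K u
  supp : ∀ x, u x ≠ 0 → 1/8 ≤ x ∧ x ≤ 7/8

lemma Prof.cont {u : ℝ → ℝ} (hu : Prof u) : Continuous u := hu.lip.choose_spec.continuous

noncomputable def fg (u : ℝ → ℝ) (R s : ℝ) : ℂ := (u (R * s) : ℂ)
noncomputable def fh (u : ℝ → ℝ) (R s : ℝ) : ℂ := (u (-(R * s)) : ℂ)

lemma lip_fg {u : ℝ → ℝ} (hu : Prof u) (R : ℝ) : ∃ K, LipschitzWith K (fg u R) := by
  obtain ⟨K, hK⟩ := hu.lip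
  refine ⟨1 * (K * Real.toNNReal |R|), ?_⟩
  have h1 : LipschitzWith (Real.toNNReal |R|) (fun s : ℝ => R * s) := by
    apply LipschitzWith.of_dist_le_mul
    intro x y
    rw [Real.dist_eq, Real.dist_eq, ← mul_sub, abs_mul, Real.coe_toNNReal _ (abs_nonneg _)]
  exact Complex.isometry_ofReal.lipschitz.comp (hK.comp h1)

lemma lip_fh {u : ℝ → ℝ} (hu : Prof u) (R : ℝ) : ∃ K, LipschitzWith K (fh u R) := by
  obtain ⟨K, hK⟩ := hu.lip
  refine ⟨1 * (K * Real.toNNReal |R|), ?_⟩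
  have h1 : LipschitzWith (Real.toNNReal |R|) (fun s : ℝ => -(R * s)) := by
    apply LipschitzWith.of_dist_le_mul
    intro x y
    rw [Real.dist_eq, Real.dist_eq]
    have : -(R * x) - -(R * y) = -(R * (x - y)) := by ring
    rw [this, abs_neg, abs_mul, Real.coe_toNNReal _ (abs_nonneg _)]
  exact Complex.isometry_ofReal.lipschitz.comp (hK.comp h1)

/-- support of fg -/
lemma supp_fg {u : ℝ → ℝ} (hu : Prof u) {R : ℝ} (hR : 1 ≤ R) {s : ℝ} (h : fg u R s ≠ 0) :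
    1 / (8 * R) ≤ s ∧ s ≤ 7 / (8 * R) := by
  have h1 : u (R * s) ≠ 0 := by
    intro h0; apply h; unfold fg; rw [h0]; simp
  obtain ⟨h2, h3⟩ := hu.supp _ h1
  have hR0 : 0 < R := by linarith
  constructor
  · rw [div_le_iff₀ (by positivity)]; linarith
  · rw [le_div_iff₀ (by positivity)]; linarith

lemma supp_fh {u : ℝ → ℝ} (hu : Prof u) {R : ℝ} (hR : 1 ≤ R) {s : ℝ} (h : fh u R s ≠ 0) :
    1 / (8 * R) ≤ -s ∧ -s ≤ 7 / (8 * R) := by
  have h1 : u (-(R * s)) ≠ 0 := by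
    intro h0; apply h; unfold fh; rw [h0]; simp
  obtain ⟨h2, h3⟩ := hu.supp _ h1
  have hR0 : 0 < R := by linarith
  constructor
  · rw [div_le_iff₀ (by positivity)]; linarith
  · rw [le_div_iff₀ (by positivity)]; linarith

lemma R_small {R : ℝ} (hR : 1 ≤ R) : 0 < 1 / (8 * R) ∧ 7 / (8 * R) ≤ 1 - 1/8 := by
  have hR0 : 0 < R := by linarith
  refine ⟨by positivity, ?_⟩
  rw [div_le_iff₀ (by positivity)]
  linarith

lemma fg_pm2 {u : ℝ → ℝ} (hu : Prof u) {R : ℝ} (hR : 1 ≤ R) : fg u R (-2) = fg u R 2 := by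
  have h1 : fg u R (-2) = 0 := by
    by_contra h
    have := supp_fg hu hR h; have := R_small hR; linarith
  have h2 : fg u R 2 = 0 := by
    by_contra h
    have := supp_fg hu hR h; have := R_small hR; linarith
  rw [h1, h2]

lemma fh_pm2 {u : ℝ → ℝ} (hu : Prof u) {R : ℝ} (hR : 1 ≤ R) : fh u R (-2) = fh u R 2 := by
  have h1 : fh u R (-2) = 0 := by
    by_contra h
    have := supp_fh hu hR h; have := R_small hR; linarith
  have h2 : fh u R 2 = 0 := by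
    by_contra h
    have := supp_fh hu hR h; have := R_small hR; linarith
  rw [h1, h2]

noncomputable def Ug {u : ℝ → ℝ} (hu : Prof u) (R : ℝ) : L2 :=
  (V_memLp (fg u R) (lip_fg hu R).choose_spec.continuous).toLp _
noncomputable def Uh {u : ℝ → ℝ} (hu : Prof u) (R : ℝ) : L2 :=
  (V_memLp (fh u R) (lip_fh hu R).choose_spec.continuous).toLp _

lemma Ug_coe {u : ℝ → ℝ} (hu : Prof u) (R : ℝ) : (Ug hu R : ℝ → ℂ) =ᵐ[mu] fg u R := MemLp.coeFn_toLp _
lemma Uh_coe {u : ℝ → ℝ} (hu : Prof u) (R : ℝ) : (Uh hu R : ℝ → ℂ) =ᵐ[mu] fh u R := MemLp.coeFn_toLp _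

lemma SUg {γ : ℝ → ℂ} (h : IsUnitSquare γ) {S : L2 →L[ℂ] L2} (hS : IsCauchyOp γ S) {u : ℝ → ℝ} (hu : Prof u)
    {R : ℝ} (hR : 1 ≤ R) : (S (Ug hu R) : ℝ → ℂ) =ᵐ[mu] TT (fg u R) :=
  S_eq_TT h hS _ _ (lip_fg hu R).choose_spec (fg_pm2 hu hR) _ (Ug_coe hu R)

lemma SUh {γ : ℝ → ℂ} (h : IsUnitSquare γ) {S : L2 →L[ℂ] L2} (hS : IsCauchyOp γ S) {u : ℝ → ℝ} (hu : Prof u)
    {R : ℝ} (hR : 1 ≤ R) : (S (Uh hu R) : ℝ → ℂ) =ᵐ[mu] TT (fh u R) :=
  S_eq_TT h hS _ _ (lip_fh hu R).choose_spec (fh_pm2 hu hR) _ (Uh_coe hu R)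

/-- localisation of a pairing on an edge -/
lemma pair_edge (f w : ℝ → ℂ) (i : ℕ) (hi : i < 4) (hsupp : ∀ s, f s ≠ 0 → s ∈ Ioo (lo i) (lo i + 1)) :
    ∫ s, (starRingEnd ℂ (f s)) * TT w s ∂mu = ∫ s in Ioc (lo i) (lo i + 1), (starRingEnd ℂ (f s)) * TTi i w s := by
  have hsub : Ioc (lo i) (lo i + 1) ⊆ Ioc (-2:ℝ) 2 := by
    intro x hx
    exact ⟨by linarith [hx.1, lo_ge i], by linarith [hx.2, lo_le i hi]⟩
  have h1 : ∫ s, (starRingEnd ℂ (f s)) * TT w s ∂mu =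
      ∫ s in Ioc (lo i) (lo i + 1), (starRingEnd ℂ (f s)) * TT w s := by
    apply setIntegral_eq_of_subset_of_forall_sdiff_eq_zero measurableSet_Ioc hsub
    intro x hx
    have : f x = 0 := by
      by_contra h0
      have := hsupp x h0
      exact hx.2 ⟨this.1, this.2.le⟩
    rw [this]; simp
  rw [h1]
  apply setIntegral_congr_fun measurableSet_Ioc
  intro s hs
  simp only
  by_cases h0 : f s = 0
  · rw [h0]; simp
  · rw [TT_eq w i hi s (hsupp s h0)]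

lemma conj_fg (u : ℝ → ℝ) (R s : ℝ) : starRingEnd ℂ (fg u R s) = fg u R s := by
  unfold fg; exact Complex.conj_ofReal _
lemma conj_fh (u : ℝ → ℝ) (R s : ℝ) : starRingEnd ℂ (fh u R s) = fh u R s := by
  unfold fh; exact Complex.conj_ofReal _

lemma lo1 : lo 1 = -1 := by unfold lo; norm_num
lemma lo2 : lo 2 = 0 := by unfold lo; norm_num

lemma fg_edge {u : ℝ → ℝ} (hu : Prof u) {R : ℝ} (hR : 1 ≤ R) (s : ℝ) (h : fg u R s ≠ 0) :
    s ∈ Ioo (lo 2) (lo 2 + 1) := by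
  rw [lo2]
  have h1 := supp_fg hu hR h; have h2 := R_small hR
  constructor <;> linarith [h1.1, h1.2, h2.1, h2.2]

lemma fh_edge {u : ℝ → ℝ} (hu : Prof u) {R : ℝ} (hR : 1 ≤ R) (s : ℝ) (h : fh u R s ≠ 0) :
    s ∈ Ioo (lo 1) (lo 1 + 1) := by
  rw [lo1]
  have h1 := supp_fh hu hR h; have h2 := R_small hR
  constructor <;> linarith [h1.1, h1.2, h2.1, h2.2]

lemma RR_zero (f : ℝ → ℂ) (i : ℕ) (hsupp : ∀ s, f s ≠ 0 → s ∈ Ioo (lo i) (lo i + 1)) (s : ℝ) : RR i f s = 0 := by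
  unfold RR
  rw [setIntegral_congr_fun (g := fun _ => (0:ℂ)) (measurableSet_Ioc.diff measurableSet_Ioc)]
  · simp
  · intro σ hσ
    simp only
    have : f σ = 0 := by
      by_contra h0
      have := hsupp σ h0
      exact hσ.2 ⟨this.1, this.2.le⟩
    rw [this]; simp

lemma EE_zero (f : ℝ → ℂ) (a b s : ℝ) (h : ∀ σ ∈ Ioc a b, f σ = 0) (hs : s ∈ Ioc a b) : EE f a b s = 0 := by
  unfold EE
  rw [h s hs, setIntegral_congr_fun (g := fun _ => (0:ℂ)) measurableSet_Ioc]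
  · simp
  · intro σ hσ
    simp only
    rw [h σ hσ]; simp

/-- P1 -/
lemma P1 {γ : ℝ → ℂ} (h : IsUnitSquare γ) {S : L2 →L[ℂ] L2} (hS : IsCauchyOp γ S) {u : ℝ → ℝ} (hu : Prof u)
    {R : ℝ} (hR : 1 ≤ R) : (inner ℂ (Ug hu R) (S (Ug hu R)) : ℂ) = 0 := by
  rw [L2.inner_def]
  have h1 : ∫ s, (inner ℂ ((Ug hu R : ℝ → ℂ) s) ((S (Ug hu R) : ℝ → ℂ) s) : ℂ) ∂mu =
      ∫ s, (starRingEnd ℂ (fg u R s)) * TT (fg u R) s ∂mu := by
    apply integral_congr_ae
    filter_upwards [Ug_coe hu R, SUg h hS hu hR] with s h1 h2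
    rw [h1, h2, RCLike.inner_apply, mul_comm]
  rw [h1, pair_edge _ _ 2 (by norm_num) (fun s => fg_edge hu hR s)]
  have h2 : ∀ s, (starRingEnd ℂ (fg u R s)) * TTi 2 (fg u R) s =
      (1 / ((Real.pi : ℂ) * Complex.I)) * ((u (R * s) : ℂ) * EE (fun x => (u (R * x) : ℂ)) 0 1 s) := by
    intro s
    rw [conj_fg]
    unfold TTi
    rw [RR_zero _ 2 (fun s => fg_edge hu hR s), lo2]
    have : (fg u R) = fun x => (u (R * x) : ℂ) := rfl
    rw [this, zero_add]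
    ring
  simp_rw [h2]
  rw [lo2, zero_add, integral_const_mul]
  have hc := hu.cont
  rw [EE_antisymm (fun x => u (R * x)) _ (lip_fg hu R).choose_spec (by fun_prop) 0 1 (1 / (8 * R) ⊓ 1/8)
    (lt_min (R_small hR).1 (by norm_num)) zero_lt_one]
  · simp
  · intro s hs
    have hs' : fg u R s ≠ 0 := by unfold fg; exact_mod_cast hs
    have h3 := supp_fg hu hR hs'
    have h4 := R_small hR
    have m1 := min_le_left (1 / (8 * R)) (1/8)
    have m2 := min_le_right (1 / (8 * R)) (1/8)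
    constructor
    · linarith [h3.1]
    · linarith [h3.2, h4.2]

/-- P2 -/
lemma P2 {γ : ℝ → ℂ} (h : IsUnitSquare γ) {S : L2 →L[ℂ] L2} (hS : IsCauchyOp γ S) {u : ℝ → ℝ} (hu : Prof u)
    {R : ℝ} (hR : 1 ≤ R) : (inner ℂ (Uh hu R) (S (Uh hu R)) : ℂ) = 0 := by
  rw [L2.inner_def]
  have h1 : ∫ s, (inner ℂ ((Uh hu R : ℝ → ℂ) s) ((S (Uh hu R) : ℝ → ℂ) s) : ℂ) ∂mu =
      ∫ s, (starRingEnd ℂ (fh u R s)) * TT (fh u R) s ∂mu := by
    apply integral_congr_ae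
    filter_upwards [Uh_coe hu R, SUh h hS hu hR] with s h1 h2
    rw [h1, h2, RCLike.inner_apply, mul_comm]
  rw [h1, pair_edge _ _ 1 (by norm_num) (fun s => fh_edge hu hR s)]
  have h2 : ∀ s, (starRingEnd ℂ (fh u R s)) * TTi 1 (fh u R) s =
      (1 / ((Real.pi : ℂ) * Complex.I)) * ((u (-(R * s)) : ℂ) * EE (fun x => (u (-(R * x)) : ℂ)) (-1) 0 s) := by
    intro s
    rw [conj_fh]
    unfold TTi
    rw [RR_zero _ 1 (fun s => fh_edge hu hR s), lo1]
    have : (fh u R) = fun x => (u (-(R * x)) : ℂ) := rfl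
    have h0 : (-1:ℝ) + 1 = 0 := by norm_num
    rw [this, h0]
    ring
  simp_rw [h2]
  have h0 : (-1:ℝ) + 1 = 0 := by norm_num
  rw [lo1, h0, integral_const_mul]
  have hc := hu.cont
  rw [EE_antisymm (fun x => u (-(R * x))) _ (lip_fh hu R).choose_spec (by fun_prop) (-1) 0 (1 / (8 * R) ⊓ 1/8)
    (lt_min (R_small hR).1 (by norm_num)) (by norm_num)]
  · simp
  · intro s hs
    have hs' : fh u R s ≠ 0 := by unfold fh; exact_mod_cast hs
    have h3 := supp_fh hu hR hs'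
    have h4 := R_small hR
    have m1 := min_le_left (1 / (8 * R)) (1/8)
    have m2 := min_le_right (1 / (8 * R)) (1/8)
    constructor
    · linarith [h3.2, h4.2]
    · linarith [h3.1]

/-- the cross constant -/
noncomputable def KK (g η : ℝ → ℝ) : ℂ := ∫ x : ℝ, (g x : ℂ) * ∫ y : ℝ, (η y : ℂ) / ((x : ℂ) - (y : ℂ) * Complex.I)

/-- P3 -/
lemma P3 {γ : ℝ → ℂ} (h : IsUnitSquare γ) {S : L2 →L[ℂ] L2} (hS : IsCauchyOp γ S) {g η : ℝ → ℝ} (hg : Prof g)
    (hη : Prof η) {R : ℝ} (hR : 1 ≤ R) :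
    (inner ℂ (Ug hg R) (S (Uh hη R)) : ℂ) = KK g η / ((Real.pi : ℂ) * R) := by
  have hR0 : 0 < R := by linarith
  rw [L2.inner_def]
  have h1 : ∫ s, (inner ℂ ((Ug hg R : ℝ → ℂ) s) ((S (Uh hη R) : ℝ → ℂ) s) : ℂ) ∂mu =
      ∫ s, (starRingEnd ℂ (fg g R s)) * TT (fh η R) s ∂mu := by
    apply integral_congr_ae
    filter_upwards [Ug_coe hg R, SUh h hS hη hR] with s h1 h2
    rw [h1, h2, RCLike.inner_apply, mul_comm]
  rw [h1, pair_edge _ _ 2 (by norm_num) (fun s => fg_edge hg hR s)]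
  -- inner integral
  have h2 : ∀ s ∈ Ioc (lo 2) (lo 2 + 1), (starRingEnd ℂ (fg g R s)) * TTi 2 (fh η R) s =
      (1 / (Real.pi : ℂ)) * ((g (R * s) : ℂ) * ∫ y : ℝ, (η y : ℂ) / (((R * s : ℝ) : ℂ) - (y : ℂ) * Complex.I)) := by
    intro s hs
    rw [conj_fg]
    by_cases h0 : fg g R s = 0
    · rw [h0]
      have : (g (R * s) : ℂ) = 0 := h0
      rw [this]; simp
    have hsE := fg_edge hg hR s h0
    unfold TTi
    rw [lo2] at hsE hs ⊢
    have hEz : EE (fh η R) 0 (0 + 1) s = 0 := by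
      apply EE_zero _ _ _ _ _ hs
      intro σ hσ
      by_contra hc
      have := supp_fh hη hR hc
      have := R_small hR
      linarith [hσ.1]
    rw [hEz, zero_add]
    have hRR : RR 2 (fh η R) s = Complex.I * ∫ y : ℝ, (η y : ℂ) / (((R * s : ℝ) : ℂ) - (y : ℂ) * Complex.I) := by
      unfold RR
      have e1 : ∫ σ in Ioc (-2 : ℝ) 2 \ Ioc (lo 2) (lo 2 + 1), fh η R σ * tf σ / (G σ - G s) =
          ∫ σ in Ioc (-2 : ℝ) 2 \ Ioc (lo 2) (lo 2 + 1), fh η R σ * Complex.I / ((s : ℂ) + (σ : ℂ) * Complex.I) := by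
        apply setIntegral_congr_fun (measurableSet_Ioc.diff measurableSet_Ioc)
        intro σ hσ
        simp only
        by_cases hc : fh η R σ = 0
        · rw [hc]; simp
        · have hσE := fh_edge hη hR σ hc
          rw [tf_eq 1 (by norm_num) σ ⟨hσE.1, hσE.2.le⟩]
          rw [lo1] at hσE
          have hG1 : G σ = -(σ : ℂ) * Complex.I := by
            rw [← sq_eq ⟨by linarith [hσE.1], by linarith [hσE.2]⟩,
              sq_isUnitSquare.left σ ⟨hσE.1.le, by linarith [hσE.2]⟩]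
            push_cast; ring
          have hG2 : G s = (s : ℂ) := by
            rw [← sq_eq ⟨by linarith [hsE.1], by linarith [hsE.2]⟩,
              sq_isUnitSquare.bottom s ⟨hsE.1.le, by linarith [hsE.2]⟩]
          rw [hG1, hG2]
          have ht : tau 1 = -Complex.I := by unfold tau; simp
          rw [ht]
          have e2 : -(σ : ℂ) * Complex.I - (s : ℂ) = -((s : ℂ) + (σ : ℂ) * Complex.I) := by ring
          rw [e2, div_neg]
          ring
      rw [e1]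
      have e3 : ∫ σ in Ioc (-2 : ℝ) 2 \ Ioc (lo 2) (lo 2 + 1), fh η R σ * Complex.I / ((s : ℂ) + (σ : ℂ) * Complex.I) =
          ∫ σ : ℝ, fh η R σ * Complex.I / ((s : ℂ) + (σ : ℂ) * Complex.I) := by
        apply setIntegral_eq_integral_of_forall_compl_eq_zero
        intro σ hσ
        by_contra hc
        have hc' : fh η R σ ≠ 0 := by
          intro h0; apply hc; rw [h0]; simp
        have hσE := fh_edge hη hR σ hc'
        rw [lo1] at hσE
        apply hσ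
        rw [lo2]
        refine ⟨⟨by linarith [hσE.1], by linarith [hσE.2]⟩, ?_⟩
        intro h5
        linarith [h5.1, hσE.2]
      rw [e3]
      have e4 : (fun σ : ℝ => fh η R σ * Complex.I / ((s : ℂ) + (σ : ℂ) * Complex.I)) =
          fun σ : ℝ => (fun y : ℝ => (Complex.I * R) * ((η y : ℂ) / (((R * s : ℝ) : ℂ) - (y : ℂ) * Complex.I))) (-R * σ) := by
        funext σ
        simp only [fh]
        have e5 : ((-R * σ : ℝ)) = -(R * σ) := by ring
        rw [e5]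
        have hRc : (R : ℂ) ≠ 0 := by exact_mod_cast hR0.ne'
        have e6 : (((R * s : ℝ) : ℂ) - ((-(R * σ) : ℝ) : ℂ) * Complex.I) = (R : ℂ) * ((s : ℂ) + (σ : ℂ) * Complex.I) := by
          push_cast; ring
        rw [e6]
        by_cases hz : (s : ℂ) + (σ : ℂ) * Complex.I = 0
        · rw [hz]; simp
        · field_simp
      have e7 := Measure.integral_comp_mul_left
        (fun y : ℝ => (Complex.I * R) * ((η y : ℂ) / (((R * s : ℝ) : ℂ) - (y : ℂ) * Complex.I))) (-R)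
      rw [e4, e7, integral_const_mul]
      generalize (∫ y : ℝ, (η y : ℂ) / (((R * s : ℝ) : ℂ) - (y : ℂ) * Complex.I)) = Z
      rw [abs_inv, abs_neg, abs_of_pos hR0]
      have hRc : (R : ℂ) ≠ 0 := by exact_mod_cast hR0.ne'
      rw [Complex.real_smul]
      push_cast
      field_simp
    rw [hRR]
    have hI := Complex.I_ne_zero
    have hpi : (Real.pi : ℂ) ≠ 0 := by exact_mod_cast Real.pi_ne_zero
    have : fg g R s = (g (R * s) : ℂ) := rfl
    rw [this]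
    field_simp
  rw [setIntegral_congr_fun measurableSet_Ioc h2]
  have h3 : ∫ s in Ioc (lo 2) (lo 2 + 1), (1 / (Real.pi : ℂ)) * ((g (R * s) : ℂ) * ∫ y : ℝ, (η y : ℂ) / (((R * s : ℝ) : ℂ) - (y : ℂ) * Complex.I)) =
      ∫ s : ℝ, (1 / (Real.pi : ℂ)) * ((g (R * s) : ℂ) * ∫ y : ℝ, (η y : ℂ) / (((R * s : ℝ) : ℂ) - (y : ℂ) * Complex.I)) := by
    apply setIntegral_eq_integral_of_forall_compl_eq_zero
    intro s hs
    by_contra hc
    have hc' : fg g R s ≠ 0 := by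
      intro h0
      apply hc
      have : (g (R * s) : ℂ) = 0 := h0
      rw [this]; simp
    have := fg_edge hg hR s hc'
    exact hs ⟨this.1, this.2.le⟩
  rw [h3]
  have h4 := Measure.integral_comp_mul_left (fun x : ℝ => (1 / (Real.pi : ℂ)) * ((g x : ℂ) * ∫ y : ℝ, (η y : ℂ) / ((x : ℂ) - (y : ℂ) * Complex.I))) R
  rw [h4, integral_const_mul, abs_inv, abs_of_pos hR0, Complex.real_smul]
  change (((R⁻¹ : ℝ) : ℂ)) * ((1 / (Real.pi : ℂ)) * KK g η) = _
  push_cast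
  have hRc : (R : ℂ) ≠ 0 := by exact_mod_cast hR0.ne'
  have hpi : (Real.pi : ℂ) ≠ 0 := by exact_mod_cast Real.pi_ne_zero
  field_simp

end Pool.Agent.Helper49.Sq.Test2
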