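import Mathlib
import Pool.Agent.Helper49.Sq.Test2

set_option autoImplicit false
open MeasureTheory Filter Topology Set
open scoped NNReal ENNReal
open Pool.Agent.Helper49.Sq.Keps Pool.Agent.Helper49.Sq.Pv Pool.Agent.Helper49.Sq.Hardy
open Pool.Agent.Helper49.Sq.Geom Pool.Agent.Helper49.Sq.Op Pool.Agent.Helper49.Sq.Op2
open Pool.Agent.Helper49.Sq.Op3 Pool.Agent.Helper49.Sq.Op4 Pool.Agent.Helper49.Sq.Test
open Pool.Agent.Helper49.Sq.Test2

open Pool.Agent.Helper49.Sq.Core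
open Pool.Agent.Helper49.Sq.Defs (IsUnitSquare mu truncCauchy IsPC Condition3)

namespace Pool.Agent.Helper49.Sq.Test3

lemma KK_integrable {g η : ℝ → ℝ} (hg : Prof g) (hη : Prof η) :
    Integrable (fun p : ℝ × ℝ => (g p.1 : ℂ) * ((η p.2 : ℂ) / ((p.1 : ℂ) - (p.2 : ℂ) * Complex.I)))
      (volume.prod volume) := by
  have hgc := hg.cont
  have hηc := hη.cont
  have hden : ∀ p ∈ Icc (1/8:ℝ) (7/8) ×ˢ Icc (1/8:ℝ) (7/8), (p.1 : ℂ) - (p.2 : ℂ) * Complex.I ≠ 0 := by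
    intro p hp h0
    have := congrArg Complex.re h0
    simp at this
    have h1 := hp.1.1
    rw [this] at h1
    norm_num at h1
  have hc : ContinuousOn (fun p : ℝ × ℝ => (g p.1 : ℂ) * ((η p.2 : ℂ) / ((p.1 : ℂ) - (p.2 : ℂ) * Complex.I)))
      (Icc (1/8:ℝ) (7/8) ×ˢ Icc (1/8:ℝ) (7/8)) := by
    apply ContinuousOn.mul (by fun_prop)
    apply ContinuousOn.div (by fun_prop) (by fun_prop) hden
  have h1 := hc.integrableOn_compact (μ := volume.prod volume) (isCompact_Icc.prod isCompact_Icc)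
  rw [← integrableOn_iff_integrable_of_support_subset]
  · exact h1
  · intro p hp
    have hp' : (g p.1 : ℂ) * ((η p.2 : ℂ) / ((p.1 : ℂ) - (p.2 : ℂ) * Complex.I)) ≠ 0 := hp
    have h2 : g p.1 ≠ 0 := by
      intro h; apply hp'; rw [h]; simp
    have h3 : η p.2 ≠ 0 := by
      intro h; apply hp'; rw [h]; simp
    exact ⟨hg.supp _ h2, hη.supp _ h3⟩

lemma KK_swap {g η : ℝ → ℝ} (hg : Prof g) (hη : Prof η) :
    KK g η = ∫ y : ℝ, (η y : ℂ) * ∫ x : ℝ, (g x : ℂ) / ((x : ℂ) - (y : ℂ) * Complex.I) := by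
  unfold KK
  have h := integral_integral_swap (f := fun x y : ℝ => (g x : ℂ) * ((η y : ℂ) / ((x : ℂ) - (y : ℂ) * Complex.I)))
    (KK_integrable hg hη)
  have e1 : ∀ x : ℝ, (g x : ℂ) * ∫ y : ℝ, (η y : ℂ) / ((x : ℂ) - (y : ℂ) * Complex.I) =
      ∫ y : ℝ, (g x : ℂ) * ((η y : ℂ) / ((x : ℂ) - (y : ℂ) * Complex.I)) := fun x => by
    rw [integral_const_mul]
  have e2 : ∀ y : ℝ, (η y : ℂ) * ∫ x : ℝ, (g x : ℂ) / ((x : ℂ) - (y : ℂ) * Complex.I) =
      ∫ x : ℝ, (g x : ℂ) * ((η y : ℂ) / ((x : ℂ) - (y : ℂ) * Complex.I)) := fun y => by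
    rw [← integral_const_mul]
    congr 1
    funext x
    ring
  simp_rw [e1, e2]
  exact h

/-- P4 -/
lemma P4 {γ : ℝ → ℂ} (h : IsUnitSquare γ) {S : L2 →L[ℂ] L2} (hS : IsCauchyOp γ S) {g η : ℝ → ℝ} (hg : Prof g)
    (hη : Prof η) {R : ℝ} (hR : 1 ≤ R) :
    (inner ℂ (Uh hη R) (S (Ug hg R)) : ℂ) = -Complex.I * KK g η / ((Real.pi : ℂ) * R) := by
  have hR0 : 0 < R := by linarith
  rw [L2.inner_def]
  have h1 : ∫ s, (inner ℂ ((Uh hη R : ℝ → ℂ) s) ((S (Ug hg R) : ℝ → ℂ) s) : ℂ) ∂mu =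
      ∫ s, (starRingEnd ℂ (fh η R s)) * TT (fg g R) s ∂mu := by
    apply integral_congr_ae
    filter_upwards [Uh_coe hη R, SUg h hS hg hR] with s h1 h2
    rw [h1, h2, RCLike.inner_apply, mul_comm]
  rw [h1, pair_edge _ _ 1 (by norm_num) (fun s => fh_edge hη hR s)]
  have h2 : ∀ s ∈ Ioc (lo 1) (lo 1 + 1), (starRingEnd ℂ (fh η R s)) * TTi 1 (fg g R) s =
      (-Complex.I / (Real.pi : ℂ)) * ((η (-R * s) : ℂ) * ∫ x : ℝ, (g x : ℂ) / ((x : ℂ) - ((-R * s : ℝ) : ℂ) * Complex.I)) := by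
    intro s hs
    rw [conj_fh]
    have hee : (-R * s) = -(R * s) := by ring
    by_cases h0 : fh η R s = 0
    · rw [h0]
      have : (η (-(R * s)) : ℂ) = 0 := h0
      rw [hee, this]; simp
    have hsE := fh_edge hη hR s h0
    unfold TTi
    rw [lo1] at hsE hs ⊢
    have hz : (-1:ℝ) + 1 = 0 := by norm_num
    rw [hz] at hsE hs ⊢
    have hEz : EE (fg g R) (-1) 0 s = 0 := by
      apply EE_zero _ _ _ _ _ hs
      intro σ hσ
      by_contra hc
      have := supp_fg hg hR hc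
      have := R_small hR
      linarith [hσ.2]
    rw [hEz, zero_add]
    have hRR : RR 1 (fg g R) s = ∫ x : ℝ, (g x : ℂ) / ((x : ℂ) - ((-R * s : ℝ) : ℂ) * Complex.I) := by
      unfold RR
      have e1 : ∫ σ in Ioc (-2 : ℝ) 2 \ Ioc (lo 1) (lo 1 + 1), fg g R σ * tf σ / (G σ - G s) =
          ∫ σ in Ioc (-2 : ℝ) 2 \ Ioc (lo 1) (lo 1 + 1), fg g R σ / ((σ : ℂ) + (s : ℂ) * Complex.I) := by
        apply setIntegral_congr_fun (measurableSet_Ioc.diff measurableSet_Ioc)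
        intro σ hσ
        simp only
        by_cases hc : fg g R σ = 0
        · rw [hc]; simp
        · have hσE := fg_edge hg hR σ hc
          rw [tf_eq 2 (by norm_num) σ ⟨hσE.1, hσE.2.le⟩]
          rw [lo2] at hσE
          have hG1 : G s = -(s : ℂ) * Complex.I := by
            rw [← sq_eq ⟨by linarith [hsE.1], by linarith [hsE.2]⟩,
              sq_isUnitSquare.left s ⟨hsE.1.le, by linarith [hsE.2]⟩]
            push_cast; ring
          have hG2 : G σ = (σ : ℂ) := by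
            rw [← sq_eq ⟨by linarith [hσE.1], by linarith [hσE.2]⟩,
              sq_isUnitSquare.bottom σ ⟨hσE.1.le, by linarith [hσE.2]⟩]
          rw [hG1, hG2]
          have ht : tau 2 = 1 := by unfold tau; simp
          rw [ht, mul_one]
          congr 1
          ring
      rw [e1]
      have e3 : ∫ σ in Ioc (-2 : ℝ) 2 \ Ioc (lo 1) (lo 1 + 1), fg g R σ / ((σ : ℂ) + (s : ℂ) * Complex.I) =
          ∫ σ : ℝ, fg g R σ / ((σ : ℂ) + (s : ℂ) * Complex.I) := by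
        apply setIntegral_eq_integral_of_forall_compl_eq_zero
        intro σ hσ
        by_contra hc
        have hc' : fg g R σ ≠ 0 := by
          intro h0; apply hc; rw [h0]; simp
        have hσE := fg_edge hg hR σ hc'
        rw [lo2] at hσE
        apply hσ
        rw [lo1]
        refine ⟨⟨by linarith [hσE.1], by linarith [hσE.2]⟩, ?_⟩
        intro h5
        linarith [h5.2, hσE.1]
      rw [e3]
      have e4 : (fun σ : ℝ => fg g R σ / ((σ : ℂ) + (s : ℂ) * Complex.I)) =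
          fun σ : ℝ => (fun x : ℝ => (R : ℂ) * ((g x : ℂ) / ((x : ℂ) - ((-R * s : ℝ) : ℂ) * Complex.I))) (R * σ) := by
        funext σ
        simp only [fg]
        have hRc : (R : ℂ) ≠ 0 := by exact_mod_cast hR0.ne'
        have e6 : (((R * σ : ℝ) : ℂ) - ((-R * s : ℝ) : ℂ) * Complex.I) = (R : ℂ) * ((σ : ℂ) + (s : ℂ) * Complex.I) := by
          push_cast; ring
        rw [e6]
        by_cases hz : (σ : ℂ) + (s : ℂ) * Complex.I = 0
        · rw [hz]; simp
        · field_simp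
      have e7 := Measure.integral_comp_mul_left
        (fun x : ℝ => (R : ℂ) * ((g x : ℂ) / ((x : ℂ) - ((-R * s : ℝ) : ℂ) * Complex.I))) R
      rw [e4, e7, integral_const_mul]
      generalize (∫ x : ℝ, (g x : ℂ) / ((x : ℂ) - ((-R * s : ℝ) : ℂ) * Complex.I)) = Z
      rw [abs_inv, abs_of_pos hR0]
      have hRc : (R : ℂ) ≠ 0 := by exact_mod_cast hR0.ne'
      rw [Complex.real_smul]
      push_cast
      field_simp
    rw [hRR]
    have hI := Complex.I_ne_zero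
    have hpi : (Real.pi : ℂ) ≠ 0 := by exact_mod_cast Real.pi_ne_zero
    have : fh η R s = (η (-R * s) : ℂ) := by unfold fh; rw [hee]
    rw [this]
    generalize (∫ x : ℝ, (g x : ℂ) / ((x : ℂ) - ((-R * s : ℝ) : ℂ) * Complex.I)) = Z
    have hI2 : Complex.I ^ 2 = -1 := Complex.I_sq
    field_simp
    rw [hI2]
    ring
  rw [setIntegral_congr_fun measurableSet_Ioc h2]
  have h3 : ∫ s in Ioc (lo 1) (lo 1 + 1), (-Complex.I / (Real.pi : ℂ)) * ((η (-R * s) : ℂ) * ∫ x : ℝ, (g x : ℂ) / ((x : ℂ) - ((-R * s : ℝ) : ℂ) * Complex.I)) =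
      ∫ s : ℝ, (-Complex.I / (Real.pi : ℂ)) * ((η (-R * s) : ℂ) * ∫ x : ℝ, (g x : ℂ) / ((x : ℂ) - ((-R * s : ℝ) : ℂ) * Complex.I)) := by
    apply setIntegral_eq_integral_of_forall_compl_eq_zero
    intro s hs
    by_contra hc
    have hc' : fh η R s ≠ 0 := by
      intro h0
      apply hc
      have hee : (-R * s) = -(R * s) := by ring
      have : (η (-R * s) : ℂ) = 0 := by rw [hee]; exact h0
      rw [this]; simp
    have := fh_edge hη hR s hc'
    exact hs ⟨this.1, this.2.le⟩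
  rw [h3]
  have h4 := Measure.integral_comp_mul_left (fun y : ℝ => (-Complex.I / (Real.pi : ℂ)) * ((η y : ℂ) * ∫ x : ℝ, (g x : ℂ) / ((x : ℂ) - (y : ℂ) * Complex.I))) (-R)
  rw [h4, integral_const_mul, abs_inv, abs_neg, abs_of_pos hR0, Complex.real_smul, ← KK_swap hg hη]
  push_cast
  have hRc : (R : ℂ) ≠ 0 := by exact_mod_cast hR0.ne'
  have hpi : (Real.pi : ℂ) ≠ 0 := by exact_mod_cast Real.pi_ne_zero
  field_simp

/-- L2 norms -/
noncomputable def NN (u : ℝ → ℝ) : ℝ := ∫ x : ℝ, (u x)^2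

lemma Ngg {u : ℝ → ℝ} (hu : Prof u) {R : ℝ} (hR : 1 ≤ R) : (inner ℂ (Ug hu R) (Ug hu R) : ℂ) = (NN u : ℂ) / R := by
  have hR0 : 0 < R := by linarith
  rw [L2.inner_def]
  have h1 : ∫ s, (inner ℂ ((Ug hu R : ℝ → ℂ) s) ((Ug hu R : ℝ → ℂ) s) : ℂ) ∂mu =
      ∫ s in Ioc (-2:ℝ) 2, (((u (R * s))^2 : ℝ) : ℂ) := by
    apply integral_congr_ae
    filter_upwards [Ug_coe hu R] with s h1
    rw [h1, RCLike.inner_apply, conj_fg]
    unfold fg; push_cast; ring
  rw [h1]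
  have h3 : ∫ s in Ioc (-2:ℝ) 2, (((u (R * s))^2 : ℝ) : ℂ) = ∫ s, (((u (R * s))^2 : ℝ) : ℂ) := by
    apply setIntegral_eq_integral_of_forall_compl_eq_zero
    intro s hs
    by_contra hc
    have hc' : fg u R s ≠ 0 := by
      intro h0
      apply hc
      have : (u (R * s) : ℂ) = 0 := h0
      push_cast
      rw [this]; simp
    have := fg_edge hu hR s hc'
    rw [lo2] at this
    exact hs ⟨by linarith [this.1], by linarith [this.2]⟩
  rw [h3]
  have h4 := Measure.integral_comp_mul_left (fun x : ℝ => (((u x)^2 : ℝ) : ℂ)) R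
  rw [h4, abs_inv, abs_of_pos hR0, Complex.real_smul, integral_complex_ofReal]
  unfold NN
  push_cast
  ring

lemma Nhh {u : ℝ → ℝ} (hu : Prof u) {R : ℝ} (hR : 1 ≤ R) : (inner ℂ (Uh hu R) (Uh hu R) : ℂ) = (NN u : ℂ) / R := by
  have hR0 : 0 < R := by linarith
  rw [L2.inner_def]
  have h1 : ∫ s, (inner ℂ ((Uh hu R : ℝ → ℂ) s) ((Uh hu R : ℝ → ℂ) s) : ℂ) ∂mu =
      ∫ s in Ioc (-2:ℝ) 2, (((u (-R * s))^2 : ℝ) : ℂ) := by
    apply integral_congr_ae
    filter_upwards [Uh_coe hu R] with s h1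
    rw [h1, RCLike.inner_apply, conj_fh]
    have hee : (-R * s) = -(R * s) := by ring
    unfold fh; rw [hee]; push_cast; ring
  rw [h1]
  have h3 : ∫ s in Ioc (-2:ℝ) 2, (((u (-R * s))^2 : ℝ) : ℂ) = ∫ s, (((u (-R * s))^2 : ℝ) : ℂ) := by
    apply setIntegral_eq_integral_of_forall_compl_eq_zero
    intro s hs
    by_contra hc
    have hc' : fh u R s ≠ 0 := by
      intro h0
      apply hc
      have hee : (-R * s) = -(R * s) := by ring
      have : (u (-R * s) : ℂ) = 0 := by rw [hee]; exact h0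
      push_cast
      rw [this]; simp
    have := fh_edge hu hR s hc'
    rw [lo1] at this
    exact hs ⟨by linarith [this.1], by linarith [this.2]⟩
  rw [h3]
  have h4 := Measure.integral_comp_mul_left (fun x : ℝ => (((u x)^2 : ℝ) : ℂ)) (-R)
  rw [h4, abs_inv, abs_neg, abs_of_pos hR0, Complex.real_smul, integral_complex_ofReal]
  unfold NN
  push_cast
  ring

lemma Ngh {g η : ℝ → ℝ} (hg : Prof g) (hη : Prof η) {R R' : ℝ} (hR : 1 ≤ R) (hR' : 1 ≤ R') :
    (inner ℂ (Ug hg R) (Uh hη R') : ℂ) = 0 := by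
  rw [L2.inner_def]
  rw [← integral_zero ℝ ℂ (μ := mu)]
  apply integral_congr_ae
  filter_upwards [Ug_coe hg R, Uh_coe hη R'] with s h1 h2
  rw [h1, h2, RCLike.inner_apply]
  by_cases h3 : fg g R s = 0
  · rw [h3]; simp
  · by_cases h4 : fh η R' s = 0
    · rw [h4]; simp
    · exfalso
      have h5 := fg_edge hg hR s h3
      have h6 := fh_edge hη hR' s h4
      rw [lo2] at h5
      rw [lo1] at h6
      linarith [h5.1, h6.2]

lemma Nhg {g η : ℝ → ℝ} (hg : Prof g) (hη : Prof η) {R R' : ℝ} (hR : 1 ≤ R) (hR' : 1 ≤ R') :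
    (inner ℂ (Uh hη R') (Ug hg R) : ℂ) = 0 := by
  rw [← inner_conj_symm, Ngh hg hη hR hR']; simp

end Pool.Agent.Helper49.Sq.Test3
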