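import Mathlib
import Pool.Agent.Helper49.Sq.Test3

set_option autoImplicit false
open MeasureTheory Filter Topology Set
open scoped NNReal ENNReal
open Pool.Agent.Helper49.Sq.Keps Pool.Agent.Helper49.Sq.Pv Pool.Agent.Helper49.Sq.Hardy
open Pool.Agent.Helper49.Sq.Geom Pool.Agent.Helper49.Sq.Op Pool.Agent.Helper49.Sq.Op2
open Pool.Agent.Helper49.Sq.Op3 Pool.Agent.Helper49.Sq.Op4 Pool.Agent.Helper49.Sq.Test
open Pool.Agent.Helper49.Sq.Test2 Pool.Agent.Helper49.Sq.Test3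

open Pool.Agent.Helper49.Sq.Core
open Pool.Agent.Helper49.Sq.Defs (IsUnitSquare mu truncCauchy IsPC Condition3)

namespace Pool.Agent.Helper49.Sq.Test4

/-- localisation of multiplication -/
lemma loc_mul (U H W : L2) (θ : ℝ → ℂ) (c : ℂ) (τ : ℝ) (hτ : 0 ≤ τ)
    (hW : (W : ℝ → ℂ) =ᵐ[mu] fun s => θ s * (H : ℝ → ℂ) s)
    (hθ : ∀ᵐ s ∂mu, (U : ℝ → ℂ) s ≠ 0 → ‖θ s - c‖ ≤ τ) :
    ‖(inner ℂ U W : ℂ) - c * inner ℂ U H‖ ≤ τ * ‖U‖ * ‖H‖ := by
  have e1 : (inner ℂ U W : ℂ) - c * inner ℂ U H = inner ℂ U (W - c • H) := by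
    rw [inner_sub_right, inner_smul_right]
  rw [e1]
  have hA : MeasurableSet {s : ℝ | (U : ℝ → ℂ) s ≠ 0} := by
    have := (Lp.stronglyMeasurable U).measurable
    exact (measurableSet_eq_fun this measurable_const).compl
  have hm : MemLp (W - c • H : L2) 2 mu := Lp.memLp _
  have hm2 := hm.indicator hA
  set W' : L2 := hm2.toLp _ with hW'
  have hc : (W' : ℝ → ℂ) =ᵐ[mu] {s : ℝ | (U : ℝ → ℂ) s ≠ 0}.indicator ((W - c • H : L2) : ℝ → ℂ) :=
    MemLp.coeFn_toLp _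
  have e2 : (inner ℂ U (W - c • H) : ℂ) = inner ℂ U W' := by
    rw [L2.inner_def, L2.inner_def]
    apply integral_congr_ae
    filter_upwards [hc] with s hs
    rw [hs]
    by_cases h0 : (U : ℝ → ℂ) s = 0
    · rw [h0]; simp
    · rw [indicator_of_mem (show s ∈ {s : ℝ | (U : ℝ → ℂ) s ≠ 0} from h0)]
  rw [e2]
  have e3 : ‖W'‖ ≤ τ * ‖H‖ := by
    apply Lp.norm_le_mul_norm_of_ae_le_mul
    filter_upwards [hc, hW, hθ, Lp.coeFn_sub W (c • H), Lp.coeFn_smul c H] with s h1 h2 h3 h4 h5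
    rw [h1]
    by_cases h0 : (U : ℝ → ℂ) s = 0
    · rw [indicator_of_notMem (by simpa using h0)]
      simp only [norm_zero]
      positivity
    · rw [indicator_of_mem (show s ∈ {s : ℝ | (U : ℝ → ℂ) s ≠ 0} from h0), h4]
      simp only [Pi.sub_apply]
      rw [h5, h2]
      simp only [Pi.smul_apply, smul_eq_mul]
      rw [← sub_mul, norm_mul]
      exact mul_le_mul_of_nonneg_right (h3 h0) (norm_nonneg _)
  calc ‖(inner ℂ U W' : ℂ)‖ ≤ ‖U‖ * ‖W'‖ := norm_inner_le_norm _ _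
    _ ≤ ‖U‖ * (τ * ‖H‖) := by gcongr
    _ = _ := by ring

/-- compact operators map bounded weakly null sequences to norm null sequences -/
lemma compact_null (K : L2 →L[ℂ] L2) (hK : IsCompactOperator K) (z : ℕ → L2) (C : ℝ) (hz : ∀ n, ‖z n‖ ≤ C)
    (hw : ∀ y : L2, Tendsto (fun n => (inner ℂ y (z n) : ℂ)) atTop (𝓝 0)) :
    Tendsto (fun n => K (z n)) atTop (𝓝 0) := by
  obtain ⟨S, hS, hS2⟩ := hK.image_subset_compact_of_bounded (f := (K : L2 →ₗ[ℂ] L2)) (S := Metric.closedBall 0 C) Metric.isBounded_closedBall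
  refine hS.tendsto_nhds_of_unique_mapClusterPt ?_ ?_
  · refine Filter.Eventually.of_forall fun n => hS2 ⟨z n, ?_, rfl⟩
    rw [mem_closedBall_zero_iff]; exact hz n
  · intro y' _ hy'
    have h1 : ∀ x : L2, inner ℂ x y' = (0:ℂ) := by
      intro x
      have h2 : MapClusterPt (inner ℂ x y' : ℂ) atTop ((fun y => (inner ℂ x y : ℂ)) ∘ fun n => K (z n)) := by
        apply hy'.continuousAt_comp
        fun_prop
      have h3 : Tendsto ((fun y => (inner ℂ x y : ℂ)) ∘ fun n => K (z n)) atTop (𝓝 0) := by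
        have := hw (ContinuousLinearMap.adjoint K x)
        refine this.congr ?_
        intro n
        simp only [Function.comp]
        rw [ContinuousLinearMap.adjoint_inner_left]
      by_contra hne
      obtain ⟨U, V, hU, hV, hxU, hxV, hd⟩ := t2_separation hne
      have h4 := h2.frequently (hU.mem_nhds hxU)
      have h5 := h3 (hV.mem_nhds hxV)
      obtain ⟨n, hn1, hn2⟩ := (h4.and_eventually h5).exists
      exact Set.disjoint_left.mp hd hn1 hn2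
    have := h1 y'
    rwa [inner_self_eq_zero] at this

noncomputable def Rm (m : ℕ) : ℝ := 8 ^ m

lemma Rm_one_le (m : ℕ) : 1 ≤ Rm m := one_le_pow₀ (by norm_num)
lemma Rm_pos (m : ℕ) : 0 < Rm m := by unfold Rm; positivity

lemma Ug_orth {u : ℝ → ℝ} (hu : Prof u) {m k : ℕ} (hmk : m ≠ k) :
    (inner ℂ (Ug hu (Rm m)) (Ug hu (Rm k)) : ℂ) = 0 := by
  rw [L2.inner_def, ← integral_zero ℝ ℂ (μ := mu)]
  apply integral_congr_ae
  filter_upwards [Ug_coe hu (Rm m), Ug_coe hu (Rm k)] with s h1 h2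
  rw [h1, h2, RCLike.inner_apply]
  by_cases h3 : fg u (Rm m) s = 0
  · rw [h3]; simp
  by_cases h4 : fg u (Rm k) s = 0
  · rw [h4]; simp
  exfalso
  have a := supp_fg hu (Rm_one_le m) h3
  have b := supp_fg hu (Rm_one_le k) h4
  have key : ∀ p q : ℕ, p < q → 1 / (8 * Rm p) ≤ s → s ≤ 7 / (8 * Rm q) → False := by
    intro p q hpq h5 h6
    have h7 : 1 / (8 * Rm p) ≤ 7 / (8 * Rm q) := h5.trans h6
    rw [div_le_div_iff₀ (by have := Rm_pos p; positivity) (by have := Rm_pos q; positivity)] at h7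
    have h8 : 8 * Rm p ≤ Rm q := by
      unfold Rm
      calc (8:ℝ) * 8^p = 8^(p+1) := by ring
        _ ≤ 8^q := pow_le_pow_right₀ (by norm_num) hpq
    have := Rm_pos p
    linarith
  rcases lt_or_gt_of_ne hmk with h | h
  · exact key m k h a.1 b.2
  · exact key k m h b.1 a.2

lemma Uh_orth {u : ℝ → ℝ} (hu : Prof u) {m k : ℕ} (hmk : m ≠ k) :
    (inner ℂ (Uh hu (Rm m)) (Uh hu (Rm k)) : ℂ) = 0 := by
  rw [L2.inner_def, ← integral_zero ℝ ℂ (μ := mu)]
  apply integral_congr_ae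
  filter_upwards [Uh_coe hu (Rm m), Uh_coe hu (Rm k)] with s h1 h2
  rw [h1, h2, RCLike.inner_apply]
  by_cases h3 : fh u (Rm m) s = 0
  · rw [h3]; simp
  by_cases h4 : fh u (Rm k) s = 0
  · rw [h4]; simp
  exfalso
  have a := supp_fh hu (Rm_one_le m) h3
  have b := supp_fh hu (Rm_one_le k) h4
  have key : ∀ p q : ℕ, p < q → 1 / (8 * Rm p) ≤ -s → -s ≤ 7 / (8 * Rm q) → False := by
    intro p q hpq h5 h6
    have h7 : 1 / (8 * Rm p) ≤ 7 / (8 * Rm q) := h5.trans h6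
    rw [div_le_div_iff₀ (by have := Rm_pos p; positivity) (by have := Rm_pos q; positivity)] at h7
    have h8 : 8 * Rm p ≤ Rm q := by
      unfold Rm
      calc (8:ℝ) * 8^p = 8^(p+1) := by ring
        _ ≤ 8^q := pow_le_pow_right₀ (by norm_num) hpq
    have := Rm_pos p
    linarith
  rcases lt_or_gt_of_ne hmk with h | h
  · exact key m k h a.1 b.2
  · exact key k m h b.1 a.2

lemma NN_nonneg (u : ℝ → ℝ) : 0 ≤ NN u := integral_nonneg fun x => sq_nonneg _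

lemma Ug_norm_sq {u : ℝ → ℝ} (hu : Prof u) (m : ℕ) : ‖Ug hu (Rm m)‖^2 = NN u / Rm m := by
  have h := Ngg hu (Rm_one_le m)
  rw [← inner_self_eq_norm_sq (𝕜 := ℂ), h]
  have : (NN u : ℂ) / (Rm m : ℂ) = ((NN u / Rm m : ℝ) : ℂ) := by push_cast; rfl
  rw [this]
  exact Complex.ofReal_re _

lemma Uh_norm_sq {u : ℝ → ℝ} (hu : Prof u) (m : ℕ) : ‖Uh hu (Rm m)‖^2 = NN u / Rm m := by
  have h := Nhh hu (Rm_one_le m)
  rw [← inner_self_eq_norm_sq (𝕜 := ℂ), h]
  have : (NN u : ℂ) / (Rm m : ℂ) = ((NN u / Rm m : ℝ) : ℂ) := by push_cast; rfl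
  rw [this]
  exact Complex.ofReal_re _

/-- an orthogonal sequence of vectors of constant norm is weakly null -/
lemma weak_null (v : ℕ → L2) (N : ℝ) (hN : 0 < N) (hn : ∀ m, ‖v m‖^2 = N) (ho : ∀ m k, m ≠ k → (inner ℂ (v m) (v k) : ℂ) = 0)
    (y : L2) : Tendsto (fun m => (inner ℂ y (v m) : ℂ)) atTop (𝓝 0) := by
  have hs : 0 < Real.sqrt N := Real.sqrt_pos.mpr hN
  have hnorm : ∀ m, ‖v m‖ = Real.sqrt N := fun m => by
    rw [← hn m, Real.sqrt_sq (norm_nonneg _)]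
  have hon : Orthonormal ℂ (fun m => ((1 / Real.sqrt N : ℝ) : ℂ) • v m) := by
    constructor
    · intro m
      rw [norm_smul, hnorm, Complex.norm_real, Real.norm_eq_abs, abs_of_pos (by positivity)]
      field_simp
    · intro m k hmk
      simp only
      rw [inner_smul_left, inner_smul_right, ho m k hmk]
      simp
  have h1 := (hon.inner_products_summable y).tendsto_atTop_zero
  have h2 : Tendsto (fun m => ‖(inner ℂ y (v m) : ℂ)‖^2) atTop (𝓝 0) := by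
    have h3 := h1.const_mul N
    rw [mul_zero] at h3
    refine h3.congr ?_
    intro m
    rw [inner_smul_left, norm_mul, mul_pow]
    have h4 : ‖(starRingEnd ℂ) ((1 / Real.sqrt N : ℝ) : ℂ)‖^2 = 1 / N := by
      rw [Complex.conj_ofReal, Complex.norm_real, Real.norm_eq_abs, sq_abs, div_pow, Real.sq_sqrt hN.le]
      simp
    rw [h4, norm_inner_symm]
    field_simp
  rw [tendsto_zero_iff_norm_tendsto_zero]
  have h5 := h2.sqrt
  simp only [Real.sqrt_zero] at h5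
  refine h5.congr ?_
  intro m
  rw [Real.sqrt_sq (norm_nonneg _)]

/-- test vectors -/
noncomputable def Fm {g η : ℝ → ℝ} (hg : Prof g) (hη : Prof η) (x y : ℂ) (m : ℕ) : L2 :=
  ((Real.sqrt (Rm m) : ℂ) * x) • Ug hg (Rm m) + ((Real.sqrt (Rm m) : ℂ) * y) • Uh hη (Rm m)

lemma vg_norm {u : ℝ → ℝ} (hu : Prof u) (m : ℕ) : ‖((Real.sqrt (Rm m) : ℂ)) • Ug hu (Rm m)‖^2 = NN u := by
  rw [norm_smul, mul_pow, Ug_norm_sq, Complex.norm_real, Real.norm_eq_abs, sq_abs, Real.sq_sqrt (Rm_pos m).le]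
  have := (Rm_pos m).ne'
  field_simp

lemma vh_norm {u : ℝ → ℝ} (hu : Prof u) (m : ℕ) : ‖((Real.sqrt (Rm m) : ℂ)) • Uh hu (Rm m)‖^2 = NN u := by
  rw [norm_smul, mul_pow, Uh_norm_sq, Complex.norm_real, Real.norm_eq_abs, sq_abs, Real.sq_sqrt (Rm_pos m).le]
  have := (Rm_pos m).ne'
  field_simp

lemma Fm_weak {g η : ℝ → ℝ} (hg : Prof g) (hη : Prof η) (x y : ℂ) (hNg : 0 < NN g) (hNη : 0 < NN η) (z : L2) :
    Tendsto (fun m => (inner ℂ z (Fm hg hη x y m) : ℂ)) atTop (𝓝 0) := by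
  have h1 := weak_null (fun m => ((Real.sqrt (Rm m) : ℂ)) • Ug hg (Rm m)) (NN g) hNg (vg_norm hg) (by
    intro m k hmk
    rw [inner_smul_left, inner_smul_right, Ug_orth hg hmk]; simp) z
  have h2 := weak_null (fun m => ((Real.sqrt (Rm m) : ℂ)) • Uh hη (Rm m)) (NN η) hNη (vh_norm hη) (by
    intro m k hmk
    rw [inner_smul_left, inner_smul_right, Uh_orth hη hmk]; simp) z
  have h3 := (h1.const_mul x).add (h2.const_mul y)
  simp only [mul_zero, add_zero] at h3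
  refine h3.congr ?_
  intro m
  unfold Fm
  rw [inner_add_right, inner_smul_right, inner_smul_right, inner_smul_right, inner_smul_right]
  ring

lemma Fm_norm_le {g η : ℝ → ℝ} (hg : Prof g) (hη : Prof η) (x y : ℂ) (m : ℕ) :
    ‖Fm hg hη x y m‖ ≤ ‖x‖ * Real.sqrt (NN g) + ‖y‖ * Real.sqrt (NN η) := by
  unfold Fm
  refine (norm_add_le _ _).trans ?_
  have h1 : ‖((Real.sqrt (Rm m) : ℂ) * x) • Ug hg (Rm m)‖ = ‖x‖ * Real.sqrt (NN g) := by
    rw [← vg_norm hg m, Real.sqrt_sq (norm_nonneg _), norm_smul, norm_smul, norm_mul]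
    ring
  have h2 : ‖((Real.sqrt (Rm m) : ℂ) * y) • Uh hη (Rm m)‖ = ‖y‖ * Real.sqrt (NN η) := by
    rw [← vh_norm hη m, Real.sqrt_sq (norm_nonneg _), norm_smul, norm_smul, norm_mul]
    ring
  rw [h1, h2]

lemma Fm_norm_sq {g η : ℝ → ℝ} (hg : Prof g) (hη : Prof η) (x y : ℂ) (m : ℕ) :
    ‖Fm hg hη x y m‖^2 = ‖x‖^2 * NN g + ‖y‖^2 * NN η := by
  have h1 : ‖((Real.sqrt (Rm m) : ℂ) * x) • Ug hg (Rm m)‖^2 = ‖x‖^2 * NN g := by
    rw [← vg_norm hg m, norm_smul, norm_smul, norm_mul]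
    ring
  have h2 : ‖((Real.sqrt (Rm m) : ℂ) * y) • Uh hη (Rm m)‖^2 = ‖y‖^2 * NN η := by
    rw [← vh_norm hη m, norm_smul, norm_smul, norm_mul]
    ring
  unfold Fm
  rw [← h1, ← h2, pow_two, pow_two, pow_two]
  apply norm_add_sq_eq_norm_sq_add_norm_sq_of_inner_eq_zero (𝕜 := ℂ)
  rw [inner_smul_left, inner_smul_right, Ngh hg hη (Rm_one_le m) (Rm_one_le m)]
  simp

end Pool.Agent.Helper49.Sq.Test4
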