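import Mathlib
import Pool.Agent.Helper49.Sq.Test5

set_option autoImplicit false
open MeasureTheory Filter Topology Set
open scoped NNReal ENNReal
open Pool.Agent.Helper49.Sq.Keps Pool.Agent.Helper49.Sq.Pv Pool.Agent.Helper49.Sq.Hardy
open Pool.Agent.Helper49.Sq.Geom Pool.Agent.Helper49.Sq.Op Pool.Agent.Helper49.Sq.Op2
open Pool.Agent.Helper49.Sq.Op3 Pool.Agent.Helper49.Sq.Op4 Pool.Agent.Helper49.Sq.Test
open Pool.Agent.Helper49.Sq.Test2 Pool.Agent.Helper49.Sq.Test3 Pool.Agent.Helper49.Sq.Test4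
open Pool.Agent.Helper49.Sq.Test5

open Pool.Agent.Helper49.Sq.Core
open Pool.Agent.Helper49.Sq.Defs (IsUnitSquare mu truncCauchy IsPC Condition3)

namespace Pool.Agent.Helper49.Sq.Test6

lemma KK_prod {g η : ℝ → ℝ} (hg : Prof g) (hη : Prof η) :
    KK g η = ∫ p : ℝ × ℝ, (g p.1 : ℂ) * ((η p.2 : ℂ) / ((p.1 : ℂ) - (p.2 : ℂ) * Complex.I)) ∂(volume.prod volume) := by
  rw [integral_prod _ (KK_integrable hg hη)]
  unfold KK
  congr 1
  funext x
  exact (integral_const_mul _ _).symm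

lemma ker_re (a b x y : ℝ) :
    ((a : ℂ) * ((b : ℂ) / ((x : ℂ) - (y : ℂ) * Complex.I))).re = a * b * (x / (x^2 + y^2)) := by
  simp [Complex.div_re, Complex.div_im, Complex.normSq_apply]
  ring

lemma ker_im (a b x y : ℝ) :
    ((a : ℂ) * ((b : ℂ) / ((x : ℂ) - (y : ℂ) * Complex.I))).im = a * b * (y / (x^2 + y^2)) := by
  simp [Complex.div_re, Complex.div_im, Complex.normSq_apply]
  ring

lemma int_re {g η : ℝ → ℝ} (hg : Prof g) (hη : Prof η) :
    Integrable (fun p : ℝ × ℝ => g p.1 * η p.2 * (p.1 / (p.1^2 + p.2^2))) (volume.prod volume) := by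
  have h := (KK_integrable hg hη).re
  refine h.congr (Filter.Eventually.of_forall fun p => ?_)
  exact ker_re _ _ _ _

lemma int_im {g η : ℝ → ℝ} (hg : Prof g) (hη : Prof η) :
    Integrable (fun p : ℝ × ℝ => g p.1 * η p.2 * (p.2 / (p.1^2 + p.2^2))) (volume.prod volume) := by
  have h := (KK_integrable hg hη).im
  refine h.congr (Filter.Eventually.of_forall fun p => ?_)
  exact ker_im _ _ _ _

lemma KK_re {g η : ℝ → ℝ} (hg : Prof g) (hη : Prof η) :
    (KK g η).re = ∫ p : ℝ × ℝ, g p.1 * η p.2 * (p.1 / (p.1^2 + p.2^2)) ∂(volume.prod volume) := by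
  rw [KK_prod hg hη]
  have := integral_re (𝕜 := ℂ) (KK_integrable hg hη)
  change RCLike.re (K := ℂ) _ = _
  rw [← this]
  congr 1
  funext p
  exact ker_re _ _ _ _

lemma KK_im {g η : ℝ → ℝ} (hg : Prof g) (hη : Prof η) :
    (KK g η).im = ∫ p : ℝ × ℝ, g p.1 * η p.2 * (p.2 / (p.1^2 + p.2^2)) ∂(volume.prod volume) := by
  rw [KK_prod hg hη]
  have := integral_im (𝕜 := ℂ) (KK_integrable hg hη)
  change RCLike.im (K := ℂ) _ = _
  rw [← this]
  congr 1
  funext p
  exact ker_im _ _ _ _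

lemma KK_symm {g : ℝ → ℝ} (hg : Prof g) : (KK g g).im = (KK g g).re := by
  rw [KK_re hg hg, KK_im hg hg, ← integral_prod_swap]
  congr 1
  funext p
  simp only [Prod.fst_swap, Prod.snd_swap]
  ring

lemma pos_int {g η : ℝ → ℝ} (hg : Prof g) (hη : Prof η) (hg0 : ∀ x, 0 ≤ g x) (hη0 : ∀ x, 0 ≤ η x)
    (hgne : ∃ x, g x ≠ 0) (hηne : ∃ x, η x ≠ 0) (φ : ℝ × ℝ → ℝ)
    (hφ : ∀ x y, g x ≠ 0 → η y ≠ 0 → 0 < φ (x, y))
    (hint : Integrable (fun p : ℝ × ℝ => g p.1 * η p.2 * φ p) (volume.prod volume)) :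
    0 < ∫ p : ℝ × ℝ, g p.1 * η p.2 * φ p ∂(volume.prod volume) := by
  have hnn : ∀ p : ℝ × ℝ, 0 ≤ g p.1 * η p.2 * φ p := by
    intro p
    by_cases h1 : g p.1 = 0
    · rw [h1]; simp
    by_cases h2 : η p.2 = 0
    · rw [h2]; simp
    have := hφ p.1 p.2 h1 h2
    have h3 := hg0 p.1
    have h4 := hη0 p.2
    positivity
  rw [integral_pos_iff_support_of_nonneg hnn hint]
  have hsub : {x | g x ≠ 0} ×ˢ {y | η y ≠ 0} ⊆ Function.support (fun p : ℝ × ℝ => g p.1 * η p.2 * φ p) := by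
    intro p hp
    have h1 : g p.1 ≠ 0 := hp.1
    have h2 : η p.2 ≠ 0 := hp.2
    have h3 := hφ p.1 p.2 h1 h2
    exact mul_ne_zero (mul_ne_zero h1 h2) h3.ne'
  refine lt_of_lt_of_le ?_ (measure_mono hsub)
  rw [Measure.prod_prod]
  have o1 : IsOpen {x | g x ≠ 0} := isOpen_ne_fun hg.cont continuous_const
  have o2 : IsOpen {y | η y ≠ 0} := isOpen_ne_fun hη.cont continuous_const
  have m1 := o1.measure_pos (μ := volume) hgne
  have m2 := o2.measure_pos (μ := volume) hηne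
  exact ENNReal.mul_pos m1.ne' m2.ne'

/-- tent functions -/
noncomputable def tent (c x : ℝ) : ℝ := max 0 (1 - 8 * |x - c|)

lemma tent_nonneg (c x : ℝ) : 0 ≤ tent c x := le_max_left _ _

lemma tent_ne {c x : ℝ} (h : tent c x ≠ 0) : c - 1/8 < x ∧ x < c + 1/8 := by
  unfold tent at h
  have h1 : 0 < 1 - 8 * |x - c| := by
    by_contra h2
    rw [not_lt] at h2
    exact h (max_eq_left h2)
  have h2 : |x - c| < 1/8 := by linarith
  rw [abs_lt] at h2
  constructor <;> linarith [h2.1, h2.2]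

lemma tent_lip (c : ℝ) : ∃ K, LipschitzWith K (tent c) := by
  refine ⟨8, LipschitzWith.const_max (LipschitzWith.of_dist_le_mul fun x y => ?_) 0⟩
  rw [Real.dist_eq, Real.dist_eq]
  have e : (1 - 8 * |x - c|) - (1 - 8 * |y - c|) = -(8 * (|x - c| - |y - c|)) := by ring
  rw [e, abs_neg, abs_mul]
  have h1 := abs_abs_sub_abs_le_abs_sub (x - c) (y - c)
  have h2 : x - c - (y - c) = x - y := by ring
  rw [h2] at h1
  have h3 : |(8:ℝ)| = 8 := by norm_num
  rw [h3]
  simpa using h1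

lemma tent_prof {c : ℝ} (h1 : 1/4 ≤ c) (h2 : c ≤ 3/4) : Prof (tent c) :=
  ⟨tent_lip c, fun x hx => by
    have := tent_ne hx
    constructor <;> linarith [this.1, this.2]⟩

lemma tent_ex (c : ℝ) : ∃ x, tent c x ≠ 0 := ⟨c, by unfold tent; simp⟩

lemma NN_tent (c : ℝ) : NN (tent c) = NN (tent 0) := by
  unfold NN
  have := integral_sub_right_eq_self (μ := volume) (fun x => (tent 0 x)^2) c
  rw [← this]
  congr 1
  funext x
  unfold tent
  simp

lemma NN_pos (c : ℝ) : 0 < NN (tent c) := by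
  unfold NN
  have hc : Continuous (tent c) := (tent_lip c).choose_spec.continuous
  apply Continuous.integral_pos_of_hasCompactSupport_nonneg_nonzero (x := c)
  · fun_prop
  · apply HasCompactSupport.of_support_subset_isCompact (K := Icc (c - 1/8) (c + 1/8)) isCompact_Icc
    intro x hx
    have h1 : tent c x ≠ 0 := by
      intro h
      apply hx
      simp [h]
    have h2 := tent_ne h1
    exact ⟨h2.1.le, h2.2.le⟩
  · intro x
    exact sq_nonneg _
  · unfold tent; simp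

end Pool.Agent.Helper49.Sq.Test6
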