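import Mathlib
import Pool.Agent.Helper49.Sq.Test6

set_option autoImplicit false
open MeasureTheory Filter Topology Set
open scoped NNReal ENNReal
open Pool.Agent.Helper49.Sq.Keps Pool.Agent.Helper49.Sq.Pv Pool.Agent.Helper49.Sq.Hardy
open Pool.Agent.Helper49.Sq.Geom Pool.Agent.Helper49.Sq.Op Pool.Agent.Helper49.Sq.Op2
open Pool.Agent.Helper49.Sq.Op3 Pool.Agent.Helper49.Sq.Op4 Pool.Agent.Helper49.Sq.Test
open Pool.Agent.Helper49.Sq.Test2 Pool.Agent.Helper49.Sq.Test3 Pool.Agent.Helper49.Sq.Test4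
open Pool.Agent.Helper49.Sq.Test5 Pool.Agent.Helper49.Sq.Test6

open Pool.Agent.Helper49.Sq.Core
open Pool.Agent.Helper49.Sq.Defs (IsUnitSquare mu truncCauchy IsPC Condition3)

namespace Pool.Agent.Helper49.Sq.Test7

lemma quad (P R : ℝ) (M : ℂ) (hR : 0 < R)
    (h : ∀ x y : ℂ, 0 ≤ P * ‖x‖^2 + R * ‖y‖^2 + (starRingEnd ℂ x * y * M).re) : ‖M‖^2 ≤ 4 * P * R := by
  have h1 := h ((2 * R : ℝ) : ℂ) (-(starRingEnd ℂ M))
  have e1 : (starRingEnd ℂ ((2 * R : ℝ) : ℂ) * (-(starRingEnd ℂ M)) * M) = ((-(2 * R * ‖M‖^2) : ℝ) : ℂ) := by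
    have := mul_conj_norm M
    rw [Complex.conj_ofReal]
    push_cast at this ⊢
    rw [← this]
    ring
  rw [e1, Complex.ofReal_re, Complex.norm_real, norm_neg, RCLike.norm_conj, Real.norm_eq_abs,
    abs_of_pos (by positivity)] at h1
  have h2 : 0 ≤ R * (4 * P * R - ‖M‖^2) := by nlinarith [h1]
  have h3 : 0 ≤ 4 * P * R - ‖M‖^2 := by
    by_contra h4
    rw [not_le] at h4
    have := mul_neg_of_pos_of_neg hR h4
    linarith
  linarith

noncomputable def MM (tp tm K : ℂ) : ℂ := (tp * K + Complex.I * starRingEnd ℂ tm * starRingEnd ℂ K) / Real.pi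

lemma QQ_re (ε : ℝ) (tp tm : ℂ) (g η : ℝ → ℝ) (x y : ℂ) :
    (QQ ε tp tm g η x y).re = ε * tp.im * NN g * ‖x‖^2 + ε * tm.im * NN η * ‖y‖^2 +
      (starRingEnd ℂ x * y * MM tp tm (KK g η)).re := by
  unfold QQ MM
  generalize KK g η = K
  have hpi := Real.pi_pos
  have e1 : (tm * (-Complex.I * starRingEnd ℂ y * x * (K / Real.pi))).re =
      (starRingEnd ℂ x * y * (Complex.I * starRingEnd ℂ tm * starRingEnd ℂ K / Real.pi)).re := by
    rw [← Complex.conj_re]
    congr 1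
    simp only [map_mul, map_neg, map_div₀, Complex.conj_I, Complex.conj_conj, Complex.conj_ofReal]
    ring
  have e2 : (starRingEnd ℂ x * y * ((tp * K + Complex.I * starRingEnd ℂ tm * starRingEnd ℂ K) / Real.pi)).re =
      (tp * (starRingEnd ℂ x * y * (K / Real.pi))).re +
      (starRingEnd ℂ x * y * (Complex.I * starRingEnd ℂ tm * starRingEnd ℂ K / Real.pi)).re := by
    rw [← Complex.add_re]
    congr 1
    ring
  rw [e2, ← e1]
  have e3 : tp * (-(ε : ℂ) * Complex.I * ((‖x‖^2 * NN g : ℝ) : ℂ) + starRingEnd ℂ x * y * (K / Real.pi)) =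
      tp * (-(ε : ℂ) * Complex.I * ((‖x‖^2 * NN g : ℝ) : ℂ)) + tp * (starRingEnd ℂ x * y * (K / Real.pi)) := by ring
  have e4 : tm * (-(ε : ℂ) * Complex.I * ((‖y‖^2 * NN η : ℝ) : ℂ) - Complex.I * starRingEnd ℂ y * x * (K / Real.pi)) =
      tm * (-(ε : ℂ) * Complex.I * ((‖y‖^2 * NN η : ℝ) : ℂ)) + tm * (-Complex.I * starRingEnd ℂ y * x * (K / Real.pi)) := by ring
  rw [e3, e4, Complex.add_re, Complex.add_re, Complex.add_re]
  have e5 : ∀ (t : ℂ) (r : ℝ), (t * (-(ε : ℂ) * Complex.I * (r : ℂ))).re = ε * t.im * r := by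
    intro t r
    simp
    ring
  rw [e5, e5]
  ring

lemma pair_bound {ε : ℝ} {tp tm : ℂ} {g η : ℝ → ℝ} {κ : ℝ} (hκ : 0 < κ) (hε : 0 < ε)
    (hNg : 0 < NN g) (hNη : 0 < NN η)
    (h : ∀ x y : ℂ, κ * (‖x‖^2 * NN g + ‖y‖^2 * NN η) ≤ (QQ ε tp tm g η x y).re) :
    0 < tp.im ∧ 0 < tm.im ∧ ‖MM tp tm (KK g η)‖^2 ≤ 4 * (ε * tp.im * NN g) * (ε * tm.im * NN η) := by
  have h1 : 0 < tp.im := by
    have := h 1 0
    rw [QQ_re] at this
    simp at this
    have h2 : 0 < ε * tp.im * NN g := lt_of_lt_of_le (by positivity) this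
    by_contra h3
    rw [not_lt] at h3
    have : ε * tp.im * NN g ≤ 0 := by
      have := mul_nonpos_of_nonneg_of_nonpos (mul_pos hε hNg).le h3
      linarith
    linarith
  have h2 : 0 < tm.im := by
    have := h 0 1
    rw [QQ_re] at this
    simp at this
    have h2 : 0 < ε * tm.im * NN η := lt_of_lt_of_le (by positivity) this
    by_contra h3
    rw [not_lt] at h3
    have : ε * tm.im * NN η ≤ 0 := by
      have := mul_nonpos_of_nonneg_of_nonpos (mul_pos hε hNη).le h3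
      linarith
    linarith
  refine ⟨h1, h2, quad _ _ _ (by positivity) fun x y => ?_⟩
  have h3 := h x y
  rw [QQ_re] at h3
  refine le_trans ?_ h3
  positivity

lemma MM_eq (tp tm : ℂ) (α β : ℝ) (K : ℂ) (hK : K = α * (1 + Complex.I) + β * (1 - Complex.I)) :
    MM tp tm K * Real.pi = α * (1 + Complex.I) * (tp + starRingEnd ℂ tm) +
      β * (1 - Complex.I) * (tp - starRingEnd ℂ tm) := by
  unfold MM
  rw [div_mul_cancel₀ _ (by exact_mod_cast Real.pi_ne_zero), hK]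
  simp only [map_add, map_sub, map_mul, Complex.conj_I, Complex.conj_ofReal, map_one]
  ring_nf
  rw [Complex.I_sq]
  ring

lemma norm_1I : ‖(1 + Complex.I : ℂ)‖ = Real.sqrt 2 := by
  rw [Complex.norm_def, Complex.normSq_apply]; simp; norm_num
lemma norm_1mI : ‖(1 - Complex.I : ℂ)‖ = Real.sqrt 2 := by
  rw [Complex.norm_def, Complex.normSq_apply]; simp; norm_num

/-- the numerical contradiction -/
lemma algebra_contra {tp tm K1 K2 : ℂ} {ε N k α β : ℝ} (hε : 0 < ε) (hN : 0 < N) (hk : 0 < k)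
    (hβ : 0 < β) (hK1 : K1 = k * (1 + Complex.I)) (hK2 : K2 = α * (1 + Complex.I) + β * (1 - Complex.I))
    (hp : 0 < tp.im) (hq : 0 < tm.im)
    (h1 : ‖MM tp tm K1‖^2 ≤ 4 * (ε * tp.im * N) * (ε * tm.im * N))
    (h2 : ‖MM tp tm K2‖^2 ≤ 4 * (ε * tp.im * N) * (ε * tm.im * N)) :
    β ≤ ε * (Real.pi * N * (1 + |α| / k)) := by
  set p := tp.im with hpdef
  set q := tm.im with hqdef
  set r := Real.sqrt (p * q) with hr
  have hr0 : 0 < r := Real.sqrt_pos.mpr (mul_pos hp hq)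
  have hrr : r^2 = p * q := Real.sq_sqrt (mul_pos hp hq).le
  have hb : ∀ M : ℂ, ‖M‖^2 ≤ 4 * (ε * p * N) * (ε * q * N) → ‖M‖ ≤ 2 * ε * N * r := by
    intro M hM
    have : ‖M‖^2 ≤ (2 * ε * N * r)^2 := by
      calc ‖M‖^2 ≤ 4 * (ε * p * N) * (ε * q * N) := hM
        _ = 4 * ε^2 * N^2 * (p * q) := by ring
        _ = (2 * ε * N * r)^2 := by rw [← hrr]; ring
    exact (sq_le_sq₀ (norm_nonneg _) (by positivity)).mp this
  have b1 := hb _ h1
  have b2 := hb _ h2
  have hs2 : 0 < Real.sqrt 2 := by positivity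
  have hs : Real.sqrt 2 * Real.sqrt 2 = 2 := Real.mul_self_sqrt (by norm_num)
  have hs1 : 1 ≤ Real.sqrt 2 := by
    rw [Real.one_le_sqrt]; norm_num
  set u := tp + starRingEnd ℂ tm with hu
  set w := tp - starRingEnd ℂ tm with hw
  have hpi := Real.pi_pos
  -- pair 1
  have e1 : MM tp tm K1 * Real.pi = k * (1 + Complex.I) * u := by
    have := MM_eq tp tm k 0 K1 (by rw [hK1]; simp)
    rw [this]; simp [hu]
  have n1 : k * Real.sqrt 2 * ‖u‖ ≤ 2 * ε * N * r * Real.pi := by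
    have := congrArg norm e1
    rw [norm_mul, norm_mul, norm_mul, Complex.norm_real, Complex.norm_real, Real.norm_eq_abs, Real.norm_eq_abs,
      abs_of_pos hpi, abs_of_pos hk, norm_1I] at this
    rw [← this]
    gcongr
  have n1' : Real.sqrt 2 * ‖u‖ ≤ 2 * ε * N * r * Real.pi / k := by
    rw [le_div_iff₀ hk]; linarith
  -- pair 2
  have e2 : (β : ℂ) * (1 - Complex.I) * w = MM tp tm K2 * Real.pi - α * (1 + Complex.I) * u := by
    rw [MM_eq tp tm α β K2 hK2]; ring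
  have n2 : β * Real.sqrt 2 * ‖w‖ ≤ 2 * ε * N * r * Real.pi + |α| * (2 * ε * N * r * Real.pi / k) := by
    have := congrArg norm e2
    rw [norm_mul, norm_mul, Complex.norm_real, Real.norm_eq_abs, abs_of_pos hβ, norm_1mI] at this
    rw [this]
    refine (norm_sub_le _ _).trans ?_
    rw [norm_mul, norm_mul, norm_mul, Complex.norm_real, Complex.norm_real, Real.norm_eq_abs, Real.norm_eq_abs,
      abs_of_pos hpi, norm_1I]
    have a1 : ‖MM tp tm K2‖ * Real.pi ≤ 2 * ε * N * r * Real.pi := by gcongr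
    have a2 : |α| * Real.sqrt 2 * ‖u‖ ≤ |α| * (2 * ε * N * r * Real.pi / k) := by
      rw [mul_assoc]; gcongr
    linarith
  have n3 : 2 * r ≤ ‖w‖ := by
    have h3 : w.im = p + q := by simp [hw, hpdef, hqdef]
    have h4 : |w.im| ≤ ‖w‖ := Complex.abs_im_le_norm w
    rw [h3, abs_of_pos (by positivity)] at h4
    have h5 : 2 * r ≤ p + q := by
      have : (2 * r)^2 ≤ (p + q)^2 := by
        rw [mul_pow, hrr]; nlinarith [sq_nonneg (p - q)]
      exact (sq_le_sq₀ (by positivity) (by positivity)).mp this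
    linarith
  have n4 : β * Real.sqrt 2 * (2 * r) ≤ β * Real.sqrt 2 * ‖w‖ := by gcongr
  have n5 : β * (2 * r) ≤ β * Real.sqrt 2 * (2 * r) := by
    have : β * 1 * (2 * r) ≤ β * Real.sqrt 2 * (2 * r) := by gcongr
    linarith
  have n6 : β * (2 * r) ≤ ε * (Real.pi * N * (1 + |α| / k)) * (2 * r) := by
    calc β * (2 * r) ≤ 2 * ε * N * r * Real.pi + |α| * (2 * ε * N * r * Real.pi / k) := by linarith
      _ = ε * (Real.pi * N * (1 + |α| / k)) * (2 * r) := by field_simp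
  exact le_of_mul_le_mul_right n6 (by positivity)

theorem not_theta {γ : ℝ → ℂ} (h : IsUnitSquare γ) {S : L2 →L[ℂ] L2} (hS : IsCauchyOp γ S) :
    ∃ ε0 : ℝ, 0 < ε0 ∧ ∀ ε : ℝ, 0 < ε → ε < ε0 → ∀ A : L2 →L[ℂ] L2,
      (∀ F, A F = (-(ε : ℂ) * Complex.I) • F + S F) → ¬ ThetaStronglyElliptic A := by
  have g1 : Prof (tent (3/4)) := tent_prof (by norm_num) (by norm_num)
  have g2 : Prof (tent (1/4)) := tent_prof (by norm_num) (by norm_num)
  set N := NN (tent 0) with hN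
  have hN1 : NN (tent (3/4)) = N := NN_tent _
  have hN2 : NN (tent (1/4)) = N := NN_tent _
  have hN0 : 0 < N := NN_pos 0
  set K1 := KK (tent (3/4)) (tent (3/4)) with hK1
  set K2 := KK (tent (3/4)) (tent (1/4)) with hK2
  have hk : 0 < K1.re := by
    rw [hK1, KK_re g1 g1]
    apply pos_int g1 g1 (tent_nonneg _) (tent_nonneg _) (tent_ex _) (tent_ex _) (fun p => p.1 / (p.1^2 + p.2^2))
    · intro x y hx hy
      have := tent_ne hx
      have hx0 : 0 < x := by linarith [this.1]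
      simp only
      positivity
    · exact int_re g1 g1
  have hsym : K1.im = K1.re := KK_symm g1
  have hβ : 0 < (K2.re - K2.im) / 2 := by
    rw [hK2, KK_re g1 g2, KK_im g1 g2, ← integral_sub (int_re g1 g2) (int_im g1 g2)]
    apply div_pos _ (by norm_num)
    have := pos_int g1 g2 (tent_nonneg _) (tent_nonneg _) (tent_ex _) (tent_ex _)
      (fun p => p.1 / (p.1^2 + p.2^2) - p.2 / (p.1^2 + p.2^2)) (by
        intro x y hx hy
        have h1 := tent_ne hx
        have h2 := tent_ne hy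
        have hx0 : 0 < x := by linarith [h1.1]
        have hxy : 0 < x - y := by linarith [h1.1, h2.2]
        simp only
        rw [← sub_div]
        positivity) (by
        refine ((int_re g1 g2).sub (int_im g1 g2)).congr (Filter.Eventually.of_forall fun p => ?_)
        simp only [Pi.sub_apply]
        ring)
    refine this.trans_eq ?_
    congr 1
    funext p
    ring
  set α := (K2.re + K2.im) / 2 with hα
  set β := (K2.re - K2.im) / 2 with hβd
  have hpi := Real.pi_pos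
  have hden : 0 < Real.pi * N * (1 + |α| / K1.re) := by positivity
  refine ⟨β / (Real.pi * N * (1 + |α| / K1.re)), by positivity, fun ε hε hε0 A hA hθ => ?_⟩
  obtain ⟨θ, hPC, -, -, Mθ, hM, D, T, hDT, ⟨κ, hκ0, hκ⟩, hT⟩ := hθ
  set B : L2 →L[ℂ] L2 := Mθ ∘L A with hBdef
  have hB : ∀ f : L2, (B f : ℝ → ℂ) =ᵐ[mu] fun s => θ s * (A f : ℝ → ℂ) s := fun f => hM (A f)
  obtain ⟨-, -, hlim⟩ := hPC
  obtain ⟨⟨tp, htp⟩, ⟨tm, htm⟩⟩ := hlim 0
  have q1 := pair_bound (ε := ε) (tp := tp) (tm := tm) (g := tent (3/4)) (η := tent (3/4)) hκ0 hε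
    (NN_pos _) (NN_pos _) (main_ineq h hS ε A hA θ tp tm htp htm B hB D T hDT κ hκ hT g1 g1 (NN_pos _) (NN_pos _))
  have q2 := pair_bound (ε := ε) (tp := tp) (tm := tm) (g := tent (3/4)) (η := tent (1/4)) hκ0 hε
    (NN_pos _) (NN_pos _) (main_ineq h hS ε A hA θ tp tm htp htm B hB D T hDT κ hκ hT g1 g2 (NN_pos _) (NN_pos _))
  obtain ⟨hp, hq, i1⟩ := q1
  obtain ⟨-, -, i2⟩ := q2
  rw [hN1] at i1
  rw [hN1, hN2] at i2
  have hfin := algebra_contra (tp := tp) (tm := tm) (K1 := K1) (K2 := K2) (ε := ε) (N := N) (k := K1.re)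
    (α := α) (β := β) hε hN0 hk hβ (by
      apply Complex.ext
      · simp
      · simp [hsym]) (by
      apply Complex.ext
      · simp [hα, hβd]; ring
      · simp [hα, hβd]; ring) hp hq i1 i2
  rw [lt_div_iff₀ hden] at hε0
  linarith

end Pool.Agent.Helper49.Sq.Test7
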