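import Mathlib
import Pool.Agent.Helper49.Sq.Test7

set_option autoImplicit false
open MeasureTheory Filter Topology Set
open scoped NNReal ENNReal
open Pool.Agent.Helper49.Sq.Geom Pool.Agent.Helper49.Sq.Op Pool.Agent.Helper49.Sq.Op2
open Pool.Agent.Helper49.Sq.Op3 Pool.Agent.Helper49.Sq.Op4 Pool.Agent.Helper49.Sq.Test7
open Pool.Agent.Helper49.Sq.Core
open Pool.Agent.Helper49.Sq.Defs (IsUnitSquare mu truncCauchy IsPC Condition3)

namespace Pool.Agent.Helper49.Sq.Extra

/-- the Cauchy singular integral operator is unique -/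
theorem cauchyOp_unique {γ : ℝ → ℂ} {S S' : L2 →L[ℂ] L2} (hS : IsCauchyOp γ S)
    (hS' : IsCauchyOp γ S') : S' = S := by
  have h1 : ∀ v : V, S' (embV v) = S (embV v) := by
    intro v
    apply Lp.ext
    have a := hS v.1 v.2.1 v.2.2 (embV v) (embV_coe v)
    have b := hS' v.1 v.2.1 v.2.2 (embV v) (embV_coe v)
    filter_upwards [a, b] with s hs hs'
    exact tendsto_nhds_unique hs' hs
  have h2 : (S' : L2 → L2) = S :=
    dense_embV.equalizer S'.continuous S.continuous (funext h1)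
  exact DFunLike.coe_injective h2

/-- a piecewise continuous function has countably many discontinuities -/
lemma isPC_countable {f : ℝ → ℂ} (hf : IsPC f) : {x | ¬ ContinuousAt f x}.Countable := by
  obtain ⟨-, -, hlim⟩ := hf
  have key : ∀ n : ℕ, ∃ C : Set ℝ, C.Countable ∧ ∀ x ∉ C, ∃ U ∈ 𝓝 x, ∀ y ∈ U, ∀ z ∈ U,
      dist (f y) (f z) < 1 / (n + 1 : ℝ) := by
    intro n
    have hpos : (0:ℝ) < 1 / (n + 1) := by positivity
    have h1 : ∀ s : ℝ, ∃ W ∈ 𝓝 s, IsOpen W ∧ (∀ y ∈ W ∩ Ioi s, ∀ z ∈ W ∩ Ioi s, dist (f y) (f z) < 1 / (n + 1 : ℝ)) ∧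
        (∀ y ∈ W ∩ Iio s, ∀ z ∈ W ∩ Iio s, dist (f y) (f z) < 1 / (n + 1 : ℝ)) := by
      intro s
      obtain ⟨⟨l, hl⟩, ⟨m, hm⟩⟩ := hlim s
      have e1 := hl (Metric.ball_mem_nhds l (half_pos hpos))
      have e2 := hm (Metric.ball_mem_nhds m (half_pos hpos))
      rw [mem_map, mem_nhdsWithin] at e1 e2
      obtain ⟨W1, o1, s1, k1⟩ := e1
      obtain ⟨W2, o2, s2, k2⟩ := e2
      refine ⟨W1 ∩ W2, (o1.inter o2).mem_nhds ⟨s1, s2⟩, o1.inter o2, ?_, ?_⟩
      · intro y hy z hz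
        have a1 : dist (f y) l < 1 / (n + 1 : ℝ) / 2 := k1 ⟨hy.1.1, hy.2⟩
        have a2 : dist (f z) l < 1 / (n + 1 : ℝ) / 2 := k1 ⟨hz.1.1, hz.2⟩
        have := dist_triangle_right (f y) (f z) l
        linarith
      · intro y hy z hz
        have a1 : dist (f y) m < 1 / (n + 1 : ℝ) / 2 := k2 ⟨hy.1.2, hy.2⟩
        have a2 : dist (f z) m < 1 / (n + 1 : ℝ) / 2 := k2 ⟨hz.1.2, hz.2⟩
        have := dist_triangle_right (f y) (f z) m
        linarith
    choose W hW oW hW1 hW2 using h1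
    obtain ⟨C, hC, hcov⟩ := TopologicalSpace.countable_cover_nhds hW
    refine ⟨C, hC, fun x hx => ?_⟩
    have hx2 : x ∈ ⋃ c ∈ C, W c := by rw [hcov]; trivial
    rw [mem_iUnion₂] at hx2
    obtain ⟨c, hc, hxc⟩ := hx2
    have hne : x ≠ c := fun h => hx (h ▸ hc)
    rcases lt_or_gt_of_ne hne with h | h
    · exact ⟨W c ∩ Iio c, ((oW c).inter isOpen_Iio).mem_nhds ⟨hxc, h⟩, hW2 c⟩
    · exact ⟨W c ∩ Ioi c, ((oW c).inter isOpen_Ioi).mem_nhds ⟨hxc, h⟩, hW1 c⟩
  choose C hC hC2 using key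
  apply (countable_iUnion hC).mono
  intro x hx
  by_contra hcon
  rw [mem_iUnion, not_exists] at hcon
  apply hx
  rw [Metric.continuousAt_iff']
  intro ε hε
  obtain ⟨n, hn⟩ := exists_nat_one_div_lt hε
  obtain ⟨U, hU, hU2⟩ := hC2 n x (hcon n)
  filter_upwards [hU] with y hy
  exact (hU2 y hy x (mem_of_mem_nhds hU)).trans hn

lemma isPC_measurable {f : ℝ → ℂ} (hf : IsPC f) : Measurable f := by
  have hc := isPC_countable hf
  apply measurable_of_isOpen
  intro U hU
  have e : f ⁻¹' U = interior (f ⁻¹' U) ∪ (f ⁻¹' U ∩ {x | ¬ ContinuousAt f x}) := by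
    apply Subset.antisymm
    · intro x hx
      by_cases h : ContinuousAt f x
      · left
        rw [mem_interior_iff_mem_nhds]
        exact h (hU.mem_nhds hx)
      · right; exact ⟨hx, h⟩
    · apply union_subset interior_subset inter_subset_left
  rw [e]
  exact isOpen_interior.measurableSet.union ((hc.mono inter_subset_right).measurableSet)

/-- multiplication by a piecewise continuous function is a bounded operator -/
theorem exists_mulOp {b : ℝ → ℂ} (hb : IsPC b) : ∃ M : L2 →L[ℂ] L2, IsMulOp b M := by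
  have hm := isPC_measurable hb
  obtain ⟨-, ⟨K, hK⟩, -⟩ := hb
  have hmem : ∀ f : L2, MemLp (fun s => b s * (f : ℝ → ℂ) s) 2 mu := fun f =>
    (Lp.memLp f).of_le_mul (c := K) ((hm.aestronglyMeasurable).mul (Lp.aestronglyMeasurable f))
      (Filter.Eventually.of_forall fun s => by
        rw [norm_mul]; exact mul_le_mul_of_nonneg_right (hK s) (norm_nonneg _))
  have hcoe : ∀ f : L2, ((hmem f).toLp _ : ℝ → ℂ) =ᵐ[mu] fun s => b s * (f : ℝ → ℂ) s :=
    fun f => MemLp.coeFn_toLp _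
  refine ⟨LinearMap.mkContinuous
    { toFun := fun f => (hmem f).toLp _
      map_add' := fun f g => by
        apply Lp.ext
        filter_upwards [hcoe (f + g), hcoe f, hcoe g, Lp.coeFn_add f g,
          Lp.coeFn_add ((hmem f).toLp _) ((hmem g).toLp _)] with s h1 h2 h3 h4 h5
        rw [h1, h5, Pi.add_apply, h2, h3, h4, Pi.add_apply]
        ring
      map_smul' := fun c f => by
        apply Lp.ext
        filter_upwards [hcoe (c • f), hcoe f, Lp.coeFn_smul c f,
          Lp.coeFn_smul c ((hmem f).toLp _)] with s h1 h2 h3 h4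
        rw [RingHom.id_apply, h1, h4, Pi.smul_apply, h2, h3, Pi.smul_apply]
        simp only [smul_eq_mul]
        ring } K ?_, ?_⟩
  · intro f
    apply Lp.norm_le_mul_norm_of_ae_le_mul
    filter_upwards [hcoe f] with s hs
    simp only [LinearMap.coe_mk, AddHom.coe_mk]
    rw [hs, norm_mul]
    exact mul_le_mul_of_nonneg_right (hK s) (norm_nonneg _)
  · intro f
    exact hcoe f

lemma isPC_const (c : ℂ) : IsPC (fun _ => c) :=
  ⟨fun _ => rfl, ⟨‖c‖, fun _ => le_rfl⟩, fun _ => ⟨⟨c, tendsto_const_nhds⟩, ⟨c, tendsto_const_nhds⟩⟩⟩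

lemma mulOp_const {c : ℂ} {M : L2 →L[ℂ] L2} (h : IsMulOp (fun _ => c) M) (F : L2) : M F = c • F := by
  apply Lp.ext
  filter_upwards [h F, Lp.coeFn_smul c F] with s h1 h2
  rw [h1, h2]; rfl

lemma cond3 (ε : ℝ) (hε : ε ≠ 0) : Condition3 (fun _ => -(ε : ℂ) * Complex.I) (fun _ => 1) := by
  intro s cp cm dp dm h1 h2 h3 h4 μ _ ν _
  have e1 := tendsto_nhds_unique h1 tendsto_const_nhds
  have e2 := tendsto_nhds_unique h2 tendsto_const_nhds
  have e3 := tendsto_nhds_unique h3 tendsto_const_nhds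
  have e4 := tendsto_nhds_unique h4 tendsto_const_nhds
  subst e1 e2 e3 e4
  have key : ((-(ε : ℂ) * Complex.I + 1) * (-(ε : ℂ) * Complex.I - 1) * (μ : ℂ) +
      (-(ε : ℂ) * Complex.I + 1) * (-(ε : ℂ) * Complex.I - 1) * (1 - (μ : ℂ))) * (ν : ℂ) +
      (-(ε : ℂ) * Complex.I - 1) * (-(ε : ℂ) * Complex.I - 1) * (1 - (ν : ℂ)) =
      (-(ε : ℂ) * Complex.I - 1) * ((2 * (ν : ℂ) - 1) - (ε : ℂ) * Complex.I) := by ring
  rw [key]
  apply mul_ne_zero
  · intro h
    have := congrArg Complex.re h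
    simp at this
  · intro h
    have := congrArg Complex.im h
    simp at this
    exact hε this

end Pool.Agent.Helper49.Sq.Extra
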