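import Mathlib
import Pool.Agent.Helper49.Sq.Extra

set_option autoImplicit false
open MeasureTheory Filter Topology Set
open Pool.Agent.Helper49.Sq.Defs

namespace Pool.Agent.Helper49.Sq.Transfer

lemma cauchy_iff (γ : ℝ → ℂ) (S : Core.L2 →L[ℂ] Core.L2) :
    Core.IsCauchyOp γ S ↔ Defs.IsCauchyOp γ S := Iff.rfl

lemma mul_iff (b : ℝ → ℂ) (S : Core.L2 →L[ℂ] Core.L2) :
    Core.IsMulOp b S ↔ Defs.IsMulOp b S := Iff.rfl

lemma real_part_core (B R : Core.L2 →L[ℂ] Core.L2)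
    (hR : ∀ f g : Core.L2, (inner ℂ (R f) g : ℂ) = (inner ℂ (B f) g + inner ℂ f (B g)) / 2) :
    (1/2 : ℂ) • (B + ContinuousLinearMap.adjoint B) = R := by
  ext1 f
  apply ext_inner_right ℂ
  intro g
  rw [hR, smul_apply, add_apply, inner_smul_left, inner_add_left,
    ContinuousLinearMap.adjoint_inner_left]
  have h2 : starRingEnd ℂ (1/2 : ℂ) = 1/2 := by
    have c2 : (starRingEnd ℂ) 2 = 2 := map_ofNat _ 2
    rw [map_div₀, c2]; simp
  rw [h2]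
  ring

lemma strong_core (B R D T : Core.L2 →L[ℂ] Core.L2)
    (hR : ∀ f g : Core.L2, (inner ℂ (R f) g : ℂ) = (inner ℂ (B f) g + inner ℂ f (B g)) / 2)
    (κ : ℝ) (hκ : 0 < κ) (hD : ∀ f : Core.L2, κ * ‖f‖ ^ 2 ≤ (inner ℂ (D f) f : ℂ).re)
    (hT : IsCompactOperator T) (hRD : ∀ f, R f = D f + T f) : Core.StronglyElliptic B :=
  ⟨D, T, (real_part_core B R hR).trans (ContinuousLinearMap.ext hRD), ⟨κ, hκ, hD⟩, hT⟩

lemma strong (B : Core.L2 →L[ℂ] Core.L2) (h : Defs.StronglyElliptic B) : Core.StronglyElliptic B := by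
  obtain ⟨R, D, T, hR, ⟨-, κ, hκ, hD⟩, hT, hRD⟩ := h
  exact strong_core B R D T hR κ hκ hD hT hRD

lemma theta (A : Core.L2 →L[ℂ] Core.L2) (h : Defs.ThetaStronglyElliptic A) :
    Core.ThetaStronglyElliptic A := by
  obtain ⟨θ, h1, h2, h3, M, hM, hS⟩ := h
  exact ⟨θ, h1, h2, h3, M, hM, strong _ hS⟩

end Pool.Agent.Helper49.Sq.Transfer
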